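import Pool.Agent.Helper10.CR.Goals1

/-!
# Packet CR-CONCAT: schemes in the two parts of an interval of a modular lattice
-/

universe u

namespace Pool.Agent.Helper39.CR

open Pool.Agent.Helper10.Width Pool.Agent.Helper72.Width Pool.Agent.Helper10.CR

theorem chain {L : Type*} [Lattice L] {φ ψ : List Bool → L} (h : Scheme φ ψ) (t : List Bool) :
    ∀ u : List Bool, ψ t ≤ ψ (u ++ t) ∧ φ (u ++ t) ≤ φ t := by
  intro u
  induction u with
  | nil => exact ⟨le_rfl, le_rfl⟩
  | cons i u ih => exact ⟨ih.1.trans (h.psi_le i _), (h.phi_le i _).trans ih.2⟩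

theorem goalConcat : GoalConcat.{u} := by
  intro L _ _ b c a hbc hca ⟨φ, ψ, h, hb, ha⟩
  by_cases hc : ∃ t : List Bool, ∀ u : List Bool, ψ (u ++ t) ⊓ c ≠ φ (u ++ t) ⊓ c
  · -- case 1
    obtain ⟨t, ht⟩ := hc
    left
    refine ⟨fun s => φ (s ++ t) ⊓ c, fun s => ψ (s ++ t) ⊓ c, ⟨fun s => ?_, fun i s => ?_,
      fun i s => ?_, fun i s => ?_⟩, ?_, inf_le_right⟩
    · exact lt_of_le_of_ne (inf_le_inf_right c (h.lt _).le) (ht s)
    · exact inf_le_inf_right c (h.phi_le i _)
    · exact inf_le_inf_right c (h.psi_le i _)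
    · refine le_inf (le_trans (inf_le_inf inf_le_left inf_le_left) (h.cap i (s ++ t))) ?_
      exact inf_le_left.trans inf_le_right
    · refine le_inf (hb.trans ?_) hbc
      have := (chain h [] t).1
      rwa [List.append_nil] at this
  · -- case 2
    push Not at hc
    obtain ⟨u, hu⟩ := hc []
    rw [List.append_nil] at hu
    right
    -- the interval `[ψ u, φ u]`
    have key1 : ∀ x : L, ψ u ≤ x → x ≤ φ u → (x ⊔ c) ⊓ φ u = x := by
      intro x hx hx'
      apply le_antisymm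
      · have h1 : (x ⊔ c) ⊓ φ u ≤ x ⊔ (c ⊓ φ u) := sup_inf_le_assoc_of_le c hx'
        refine h1.trans (sup_le le_rfl ?_)
        rw [inf_comm, ← hu]
        exact inf_le_left.trans hx
      · exact le_inf le_sup_left hx'
    have key2 : ∀ x y : L, ψ u ≤ x → x ≤ φ u → ψ u ≤ y → y ≤ φ u →
        (x ⊔ c) ⊓ (y ⊔ c) ≤ (x ⊓ y) ⊔ c := by
      intro x y hx hx' hy hy'
      have h1 : (c ⊔ x) ⊓ (y ⊔ c) ≤ c ⊔ (x ⊓ (y ⊔ c)) :=
        sup_inf_le_assoc_of_le x le_sup_right
      rw [sup_comm x c]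
      refine h1.trans (sup_le le_sup_right ?_)
      refine le_trans (le_inf inf_le_left ?_) le_sup_left
      calc x ⊓ (y ⊔ c) ≤ (y ⊔ c) ⊓ φ u := le_inf inf_le_right (inf_le_left.trans hx')
        _ = y := key1 y hy hy'
    have hψ : ∀ s : List Bool, ψ u ≤ ψ (s ++ u) := fun s => (chain h u s).1
    have hφ : ∀ s : List Bool, φ (s ++ u) ≤ φ u := fun s => (chain h u s).2
    have hψφ : ∀ s : List Bool, ψ (s ++ u) ≤ φ u := fun s => (h.lt _).le.trans (hφ s)
    have hφψ : ∀ s : List Bool, ψ u ≤ φ (s ++ u) := fun s => (hψ s).trans (h.lt _).le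
    refine ⟨fun s => φ (s ++ u) ⊔ c, fun s => ψ (s ++ u) ⊔ c, ⟨fun s => ?_, fun i s => ?_,
      fun i s => ?_, fun i s => ?_⟩, le_sup_right, ?_⟩
    · refine lt_of_le_of_ne (sup_le_sup_right (h.lt _).le c) fun he => ?_
      have h1 := key1 (ψ (s ++ u)) (hψ s) (hψφ s)
      have h2 := key1 (φ (s ++ u)) (hφψ s) (hφ s)
      have he' : ψ (s ++ u) ⊔ c = φ (s ++ u) ⊔ c := he
      rw [he', h2] at h1
      exact (h.lt (s ++ u)).ne h1.symm
    · exact sup_le_sup_right (h.phi_le i _) c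
    · exact sup_le_sup_right (h.psi_le i _) c
    · refine (key2 _ _ (hφψ (false :: s)) (hφ (false :: s)) (hφψ (true :: s))
        (hφ (true :: s))).trans (sup_le_sup_right (h.cap i (s ++ u)) c)
    · refine sup_le ?_ hca
      refine le_trans ?_ ha
      have := (chain h [] u).2
      rwa [List.append_nil] at this

end Pool.Agent.Helper39.CR
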