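import Pool.Agent.Helper88.CR.GoalsA
import Mathlib.NumberTheory.Chebyshev

/-!
# Primes in progressions to large smooth moduli: assembly (packet CR-PX)
-/

set_option autoImplicit false

open Finset Filter Topology

open scoped Classical ArithmeticFunction

namespace Pool.Agent.Helper39.CR

open Pool.Agent.Helper88.CR
open Pool.Agent.Helper88.CG (tw pw th)

/-- the primorial grows faster than any power -/
lemma prim_big (A : ℝ) (hA : 0 < A) :
    ∃ W : ℕ, ∀ w : ℕ, W ≤ w → A * (w : ℝ) ^ 12 ≤ (primorial w : ℝ) := by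
  have h1 : ∀ᶠ t : ℝ in atTop, ‖Real.log t‖ ≤ (1 / 200) * ‖id t‖ :=
    Real.isLittleO_log_id_atTop.def (by norm_num)
  have h2 : ∀ᶠ t : ℝ in atTop, ‖Real.log t‖ ≤ (1 / 200) * ‖t ^ (1 / 2 : ℝ)‖ :=
    (isLittleO_log_rpow_atTop (by norm_num)).def (by norm_num)
  have h3 : ∀ᶠ t : ℝ in atTop, max 100 (10 * Real.log A) ≤ t := eventually_ge_atTop _
  have key : ∀ᶠ t : ℝ in atTop,
      Real.log A + 12 * Real.log t + Real.log (t + 1) + 2 * √t * Real.log t
        ≤ t * Real.log 2 := by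
    filter_upwards [h1, h2, h3] with t ht1 ht2 ht3
    have ht100 : 100 ≤ t := le_trans (le_max_left _ _) ht3
    have htA : 10 * Real.log A ≤ t := le_trans (le_max_right _ _) ht3
    have ht0 : 0 < t := by linarith
    have hl0 : 0 ≤ Real.log t := Real.log_nonneg (by linarith)
    rw [Real.norm_of_nonneg hl0] at ht1 ht2
    simp only [id, Real.norm_of_nonneg ht0.le] at ht1
    rw [← Real.sqrt_eq_rpow, Real.norm_of_nonneg (Real.sqrt_nonneg _)] at ht2
    have hs : √t * √t = t := Real.mul_self_sqrt ht0.le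
    have hs0 : 0 ≤ √t := Real.sqrt_nonneg _
    have e1 : 2 * √t * Real.log t ≤ t / 100 := by nlinarith only [hs, ht2, hl0]
    have e2 : Real.log (t + 1) ≤ Real.log 2 + Real.log t := by
      rw [← Real.log_mul (by norm_num) (by linarith)]
      exact Real.log_le_log (by linarith) (by linarith)
    have e3 := Real.log_two_gt_d9
    have e4 := Real.log_two_lt_d9
    nlinarith only [ht100, htA, ht1, e1, e2, e3, e4]
  obtain ⟨T, hT⟩ := eventually_atTop.1 key
  refine ⟨max 1 ⌈T⌉₊, fun w hw => ?_⟩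
  have hw1 : 1 ≤ w := le_trans (le_max_left _ _) hw
  have hwT : T ≤ (w : ℝ) :=
    le_trans (Nat.le_ceil T) (by exact_mod_cast le_trans (le_max_right _ _) hw)
  have hk := hT w hwT
  have hth := Chebyshev.theta_ge w
  rw [Chebyshev.theta_eq_log_primorial, Nat.floor_natCast] at hth
  have hP : (0 : ℝ) < primorial w := by exact_mod_cast primorial_pos w
  have hw0 : (0 : ℝ) < w := by exact_mod_cast hw1
  rw [← Real.log_le_log_iff (by positivity) hP, Real.log_mul (by positivity) (by positivity),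
    Real.log_pow]
  push_cast
  linarith

lemma m0_ge (L : ℝ) (hL : 0 < L) (k : ℕ) :
    (L / (Real.exp 1 * k)) ^ k ≤ L ^ k * Real.exp (-(k : ℝ)) / (k.factorial : ℝ) := by
  rcases Nat.eq_zero_or_pos k with hk | hk
  · subst hk; simp
  have hk0 : (0 : ℝ) < k := by exact_mod_cast hk
  have he : Real.exp (-(k : ℝ)) = 1 / Real.exp 1 ^ k := by
    rw [Real.exp_neg, ← Real.exp_nat_mul, mul_one, one_div]
  rw [he, div_pow, mul_pow]
  have h1 : (k.factorial : ℝ) ≤ (k : ℝ) ^ k := by exact_mod_cast Nat.factorial_le_pow k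
  have h2 : (0 : ℝ) < k.factorial := by exact_mod_cast k.factorial_pos
  have h3 : L ^ k * (1 / Real.exp 1 ^ k) / (k.factorial : ℝ)
      = L ^ k / (Real.exp 1 ^ k * k.factorial) := by
    field_simp
  rw [h3]
  gcongr

/-- size of `kx x` -/
lemma kx_facts (x : ℕ) (hL : 64 ≤ Real.log x) :
    (1 : ℝ) ≤ kx x ∧ Real.log (Real.log x) ≤ kx x ∧ (kx x : ℝ) ≤ 2 * Real.log (Real.log x) ∧
    (kx x : ℝ) + 1 ≤ Real.log x ∧ 4 * (kx x : ℝ) ≤ Real.log x ∧
    Real.exp (2 * kx x) ≤ 8 * Real.log x ^ 2 ∧ Real.exp (-(3 * kx x)) * Real.log x ^ 3 ≤ 1 ∧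
    1 ≤ Real.log (Real.log x) := by
  set L := Real.log x with hLd
  have hL0 : 0 < L := by linarith
  have h1 : 1 ≤ Real.log L := by
    rw [Real.le_log_iff_exp_le hL0]
    have := Real.exp_one_lt_d9
    linarith
  have h2 : Real.log L ≤ kx x := Nat.le_ceil _
  have h3 : (kx x : ℝ) < Real.log L + 1 := Nat.ceil_lt_add_one (by linarith)
  have h4 : Real.log L ≤ L / 16 + 2 := by
    have e1 : Real.log (L / 16) ≤ L / 16 - 1 := Real.log_le_sub_one_of_pos (by positivity)
    rw [Real.log_div (by positivity) (by norm_num)] at e1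
    have e2 : Real.log 16 = 4 * Real.log 2 := by
      rw [show (16 : ℝ) = 2 ^ 4 by norm_num, Real.log_pow]; norm_num
    have e3 := Real.log_two_lt_d9
    linarith
  have h5 : Real.exp (2 * kx x) ≤ 8 * L ^ 2 := by
    have e1 : Real.exp (2 * kx x) ≤ Real.exp (2 * (Real.log L + 1)) :=
      Real.exp_le_exp.2 (by linarith)
    have e2 : Real.exp (2 * (Real.log L + 1)) = Real.exp 1 ^ 2 * L ^ 2 := by
      rw [show 2 * (Real.log L + 1) = 2 * Real.log L + 2 * 1 by ring, Real.exp_add]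
      rw [show (2 : ℝ) * Real.log L = ((2 : ℕ) : ℝ) * Real.log L by norm_num,
        show (2 : ℝ) * 1 = ((2 : ℕ) : ℝ) * 1 by norm_num, Real.exp_nat_mul, Real.exp_nat_mul,
        Real.exp_log hL0]
      ring
    have e3 : Real.exp 1 ^ 2 ≤ 8 := by
      have := Real.exp_one_lt_d9
      have h0 := Real.exp_pos 1
      nlinarith only [this, h0]
    rw [e2] at e1
    nlinarith only [e1, e3, sq_nonneg L]
  have h6 : Real.exp (-(3 * kx x)) * L ^ 3 ≤ 1 := by
    have e1 : Real.exp (-(3 * kx x)) ≤ Real.exp (-(3 * Real.log L)) :=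
      Real.exp_le_exp.2 (by linarith)
    have e2 : Real.exp (-(3 * Real.log L)) * L ^ 3 = 1 := by
      rw [Real.exp_neg, show (3 : ℝ) * Real.log L = ((3 : ℕ) : ℝ) * Real.log L by norm_num,
        Real.exp_nat_mul, Real.exp_log hL0]
      exact inv_mul_cancel₀ (by positivity)
    calc Real.exp (-(3 * kx x)) * L ^ 3 ≤ Real.exp (-(3 * Real.log L)) * L ^ 3 := by gcongr
      _ = 1 := e2
  refine ⟨by linarith, h2, by linarith, by linarith, by linarith, h5, h6, h1⟩

lemma pt_nonneg (x n : ℕ) : 0 ≤ pt x n := le_max_left _ _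

lemma pt_le_one (x n : ℕ) : pt x n ≤ 1 := by
  unfold pt
  refine max_le zero_le_one ?_
  have : 0 ≤ |Real.log (4 * n / x) / (4 * Real.log x)
    - round (Real.log (4 * n / x) / (4 * Real.log x))| / (Real.log 4 / (4 * Real.log x)) := by
    have h1 : 0 ≤ Real.log (x : ℝ) := Real.log_natCast_nonneg x
    have h2 : 0 ≤ Real.log 4 := Real.log_nonneg (by norm_num)
    positivity
  linarith

lemma tw_nonneg (x n : ℕ) : 0 ≤ tw x n := le_max_left _ _

lemma tw_le_one (x n : ℕ) : tw x n ≤ 1 := by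
  unfold tw
  refine max_le zero_le_one ?_
  have : 0 ≤ |Real.log (4 * n / x)| / Real.log 4 := by
    have h2 : 0 ≤ Real.log 4 := Real.log_nonneg (by norm_num)
    positivity
  linarith

lemma pt_eq_tw (x n : ℕ) (hx : 16 ≤ x) (hn : 1 ≤ n) (hnx : n ≤ x) : pt x n = tw x n := by
  have hx0 : (0 : ℝ) < x := by exact_mod_cast (by omega : 0 < x)
  have hn0 : (0 : ℝ) < n := by exact_mod_cast hn
  have hnx' : (n : ℝ) ≤ x := by exact_mod_cast hnx
  have hn1 : (1 : ℝ) ≤ n := by exact_mod_cast hn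
  have hl4 : 0 < Real.log 4 := Real.log_pos (by norm_num)
  have hlx : 2 * Real.log 4 ≤ Real.log x := by
    have : Real.log 16 ≤ Real.log x := Real.log_le_log (by norm_num) (by exact_mod_cast hx)
    rwa [show (16 : ℝ) = 4 ^ 2 by norm_num, Real.log_pow] at this
  have hlx0 : 0 < Real.log x := by linarith
  have hu1 : Real.log (4 * n / x) ≤ Real.log 4 := by
    apply Real.log_le_log (by positivity)
    rw [div_le_iff₀ hx0]; linarith
  have hu2 : - Real.log x ≤ Real.log (4 * n / x) := by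
    rw [← Real.log_inv]
    apply Real.log_le_log (by positivity)
    rw [inv_eq_one_div]
    gcongr
    linarith
  have hr : round (Real.log (4 * n / x) / (4 * Real.log x)) = 0 := by
    rw [round_eq_zero_iff]
    constructor
    · rw [le_div_iff₀ (by positivity)]; linarith
    · rw [div_lt_iff₀ (by positivity)]; linarith
  unfold pt tw
  rw [hr]
  congr 2
  rw [Int.cast_zero, sub_zero, abs_div, abs_of_pos (by positivity : 0 < 4 * Real.log x)]
  field_simp

lemma fx_nonneg (x n : ℕ) : 0 ≤ fx x n := by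
  unfold fx
  have h1 : (0 : ℝ) ≤ ArithmeticFunction.vonMangoldt n := ArithmeticFunction.vonMangoldt_nonneg
  have h2 : 0 ≤ Real.log (n : ℝ) := Real.log_natCast_nonneg n
  positivity

/-- the sum over a class and the rough integers -/
noncomputable def G (x z q a n : ℕ) : ℝ := if n ≡ a [MOD q] ∧ rg z n then fx x n else 0

lemma G_nonneg (x z q a n : ℕ) : 0 ≤ G x z q a n := by
  unfold G; split_ifs
  · exact fx_nonneg x n
  · exact le_rfl

lemma G_le (x z q a n : ℕ) : G x z q a n ≤ fx x n := by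
  unfold G; split_ifs
  · exact le_rfl
  · exact fx_nonneg x n

lemma nrm (n : ℕ) (hn : n ≠ 0) (t : ℝ) : ‖(n : ℂ) ^ (Complex.I * t)‖ = 1 := by
  rw [Complex.norm_natCast_cpow_of_pos (Nat.pos_of_ne_zero hn)]
  simp

/-- `s = 1 + k/log x - i t` -/
noncomputable def sx (x : ℕ) (t : ℝ) : ℂ :=
  ((1 + kx x / Real.log x : ℝ) : ℂ) - Complex.I * t

lemma sx_re (x : ℕ) (t : ℝ) : (sx x t).re = 1 + kx x / Real.log x := by
  simp [sx, -Complex.ofReal_add, -Complex.ofReal_div]

lemma sx_im (x : ℕ) (t : ℝ) : (sx x t).im = -t := by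
  simp [sx, -Complex.ofReal_add, -Complex.ofReal_div]

lemma ser (x z q a : ℕ) (h0 : fx x 0 = 0) (t : ℝ) :
    ∑' n, (G x z q a n : ℂ) * (n : ℂ) ^ (Complex.I * t) = PL (ci z q a) (kx x) (sx x t) := by
  unfold PL LSeries
  refine tsum_congr fun n => ?_
  rcases eq_or_ne n 0 with hn | hn
  · subst hn
    have : G x z q a 0 = 0 := le_antisymm (by simpa [h0] using G_le x z q a 0) (G_nonneg _ _ _ _ _)
    simp [this]
  rw [LSeries.term_of_ne_zero hn]
  unfold G gj ci
  by_cases h : n ≡ a [MOD q] ∧ rg z n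
  · rw [if_pos h, if_pos h, one_mul]
    unfold fx
    have hn0 : (0 : ℝ) ≤ n := Nat.cast_nonneg n
    have hnc : (n : ℂ) ≠ 0 := by exact_mod_cast hn
    have e1 : (((n : ℝ) ^ (-(1 + kx x / Real.log x) : ℝ) : ℝ) : ℂ) * (n : ℂ) ^ (Complex.I * t)
        = 1 / (n : ℂ) ^ (sx x t) := by
      rw [Complex.ofReal_cpow hn0, Complex.ofReal_natCast, ← Complex.cpow_add _ _ hnc, one_div,
        ← Complex.cpow_neg]
      congr 1
      unfold sx
      push_cast
      ring
    rw [Complex.ofReal_mul, Complex.ofReal_mul, mul_assoc, e1]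
    ring
  · rw [if_neg h, if_neg h]
    simp

lemma ser_summable (x z q a : ℕ) (hs : Summable (fx x)) (h0 : fx x 0 = 0) (t : ℝ) :
    Summable fun n => (G x z q a n : ℂ) * (n : ℂ) ^ (Complex.I * t) := by
  refine Summable.of_norm_bounded hs fun n => ?_
  rcases eq_or_ne n 0 with hn | hn
  · subst hn
    have : G x z q a 0 = 0 := le_antisymm (by simpa [h0] using G_le x z q a 0) (G_nonneg _ _ _ _ _)
    simp [this, h0]
  rw [norm_mul, nrm n hn, mul_one, Complex.norm_real, Real.norm_of_nonneg (G_nonneg _ _ _ _ _)]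
  exact G_le x z q a n

/-- the size of the main term -/
noncomputable def m0 (x : ℕ) : ℝ :=
  Real.log x ^ kx x * Real.exp (-(kx x : ℝ)) / ((kx x).factorial : ℝ)

lemma m0_pos (x : ℕ) (hL : 64 ≤ Real.log x) : 0 < m0 x := by
  unfold m0
  have : 0 < Real.log x := by linarith
  have h2 : (0 : ℝ) < (kx x).factorial := by exact_mod_cast (kx x).factorial_pos
  positivity

lemma e1_bd (x : ℕ) (hL : 64 ≤ Real.log x) (y : ℝ) (hy : 0 ≤ y) (hyL : y ≤ Real.log x)
    (hk : Real.exp 1 * kx x * y ≤ Real.exp (-3) * Real.log x) :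
    y ^ (kx x + 1) * Real.log x ^ 2 ≤ m0 x := by
  obtain ⟨k1, k2, k3, k4, k5, k6, k7, k8⟩ := kx_facts x hL
  have hm := m0_ge (Real.log x) (by linarith) (kx x)
  have hm0 := m0_pos x hL
  change _ ≤ m0 x at hm
  set L := Real.log x with hLd
  set k := kx x with hkd
  have hL0 : 0 < L := by linarith only [hL]
  have he : 0 < Real.exp 1 := Real.exp_pos 1
  have e1 : y ^ k = (Real.exp 1 * k * y / L) ^ k * (L / (Real.exp 1 * k)) ^ k := by
    rw [← mul_pow]
    congr 1
    have : (k : ℝ) ≠ 0 := by linarith only [k1]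
    field_simp
  have e2 : (Real.exp 1 * k * y / L) ^ k ≤ Real.exp (-(3 * k)) := by
    have h1 : Real.exp 1 * k * y / L ≤ Real.exp (-3) := by
      rw [div_le_iff₀ hL0]; exact hk
    have h2 : Real.exp (-(3 * k)) = Real.exp (-3) ^ k := by
      rw [← Real.exp_nat_mul]; ring_nf
    rw [h2]
    exact pow_le_pow_left₀ (by positivity) h1 k
  have e3 : y ^ k ≤ Real.exp (-(3 * k)) * m0 x := by
    rw [e1]
    exact mul_le_mul e2 hm (by positivity) (Real.exp_pos _).le
  calc y ^ (k + 1) * L ^ 2 = y ^ k * (y * L ^ 2) := by ring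
    _ ≤ (Real.exp (-(3 * k)) * m0 x) * (L * L ^ 2) := by gcongr
    _ = (Real.exp (-(3 * k)) * L ^ 3) * m0 x := by ring
    _ ≤ 1 * m0 x := by gcongr
    _ = m0 x := one_mul _

lemma e2_bd (x : ℕ) (hL : 64 ≤ Real.log x) (h3 : StmtTV) (hx : 16 ≤ x) :
    ∑' n, fx x n ≤ Real.log x ^ 6 * m0 x := by
  obtain ⟨k1, k2, k3, k4, k5, k6, k7, k8⟩ := kx_facts x hL
  obtain ⟨-, -, hT⟩ := h3 x hx
  have hm := m0_ge (Real.log x) (by linarith) (kx x)
  have hm0 := m0_pos x hL
  change _ ≤ m0 x at hm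
  refine hT.trans ?_
  set L := Real.log x with hLd
  set k := kx x with hkd
  have hL0 : 0 < L := by linarith only [hL]
  have he : 0 < Real.exp 1 := Real.exp_pos 1
  have hk0 : (0 : ℝ) < k := by linarith only [k1]
  have e1 : (2 * L / k) ^ (k + 1) ≤ (2 * L) * (8 * L ^ 2 * m0 x) := by
    have h1 : (2 * L / k) ^ k = (2 * Real.exp 1) ^ k * (L / (Real.exp 1 * k)) ^ k := by
      rw [← mul_pow]
      congr 1
      field_simp
    have h2 : (2 * Real.exp 1) ^ k ≤ 8 * L ^ 2 := by
      refine le_trans ?_ k6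
      rw [show (2 : ℝ) * k = (k : ℝ) * 2 by ring, Real.exp_nat_mul]
      refine pow_le_pow_left₀ (by positivity) ?_ k
      rw [show (2 : ℝ) = 1 + 1 by norm_num, Real.exp_add]
      have := Real.exp_one_gt_d9
      have h0 : (1 + 1 : ℝ) ≤ Real.exp 1 := by linarith only [this]
      gcongr
    have h3 : (2 * L / k) ^ k ≤ 8 * L ^ 2 * m0 x := by
      rw [h1]
      exact mul_le_mul h2 hm (by positivity) (by positivity)
    have h4 : 2 * L / k ≤ 2 * L := div_le_self (by positivity) k1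
    rw [pow_succ, mul_comm]
    exact mul_le_mul h4 h3 (by positivity) (by positivity)
  have e2 : 1 + 2 * L / k ≤ 3 * L := by
    have h4 : 2 * L / k ≤ 2 * L := div_le_self (by positivity) k1
    linarith only [hL, h4]
  calc ((k : ℝ) + 1) * (2 * L / k) ^ (k + 1) * (1 + 2 * L / k)
      ≤ L * ((2 * L) * (8 * L ^ 2 * m0 x)) * (3 * L) := by gcongr
    _ = 48 * (L ^ 5 * m0 x) := by ring
    _ ≤ L * (L ^ 5 * m0 x) := by
        have : 0 ≤ L ^ 5 * m0 x := by positivity
        nlinarith only [this, hL]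
    _ = L ^ 6 * m0 x := by ring

/-- the terms with `n ≤ x` -/
lemma fx_le (x n : ℕ) (hL : 64 ≤ Real.log x) (hn : 1 ≤ n) (hnx : n ≤ x)
    (htw : 0 < tw x n) :
    fx x n ≤ 32 / x * m0 x * ArithmeticFunction.vonMangoldt n := by
  obtain ⟨k1, k2, k3, k4, k5, k6, k7, k8⟩ := kx_facts x hL
  have hx0 : (0 : ℝ) < x := by
    rcases Nat.eq_zero_or_pos x with h | h
    · subst h; norm_num at hL
    · exact_mod_cast h
  have hn0 : (0 : ℝ) < n := by exact_mod_cast hn
  have hnx' : (n : ℝ) ≤ x := by exact_mod_cast hnx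
  have hl4 : 0 < Real.log 4 := Real.log_pos (by norm_num)
  have hn16 : (x : ℝ) / 16 ≤ n := by
    have h1 : 0 < 1 - |Real.log (4 * n / x)| / Real.log 4 := by
      unfold tw at htw
      rcases lt_max_iff.1 htw with h | h
      · exact absurd h (lt_irrefl _)
      · exact h
    have h2 : |Real.log (4 * n / x)| < Real.log 4 := by
      rw [sub_pos, div_lt_one hl4] at h1; exact h1
    have h3 : - Real.log 4 < Real.log (4 * n / x) := (abs_lt.1 h2).1
    rw [← Real.log_inv] at h3
    have h4 : (4 : ℝ)⁻¹ < 4 * n / x := (Real.log_lt_log_iff (by norm_num) (by positivity)).1 h3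
    rw [lt_div_iff₀ hx0] at h4
    linarith only [h4]
  unfold fx m0
  set L := Real.log x with hLd
  set k := kx x with hkd
  have hL0 : 0 < L := by linarith only [hL]
  have h0 : (0 : ℝ) < k.factorial := by exact_mod_cast k.factorial_pos
  have hkL : 0 ≤ (k : ℝ) / L := by positivity
  have e1 : (n : ℝ) ^ (-(1 + k / L)) ≤ 32 / x * Real.exp (-(k : ℝ)) := by
    calc (n : ℝ) ^ (-(1 + k / L)) ≤ ((x : ℝ) / 16) ^ (-(1 + k / L)) :=
          Real.rpow_le_rpow_of_nonpos (by positivity) hn16 (by linarith only [hkL])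
      _ = Real.exp (Real.log ((x : ℝ) / 16) * (-(1 + k / L))) :=
          Real.rpow_def_of_pos (by positivity) _
      _ ≤ Real.exp (Real.log 32 - L + -(k : ℝ)) := by
          apply Real.exp_le_exp.2
          rw [Real.log_div (by positivity) (by norm_num), ← hLd]
          have e2 : Real.log 16 = 4 * Real.log 2 := by
            rw [show (16 : ℝ) = 2 ^ 4 by norm_num, Real.log_pow]; norm_num
          have e3 : Real.log 32 = 5 * Real.log 2 := by
            rw [show (32 : ℝ) = 2 ^ 5 by norm_num, Real.log_pow]; norm_num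
          rw [e2, e3]
          have e4 : (L - 4 * Real.log 2) * (-(1 + k / L))
              = - L - k + 4 * Real.log 2 + 4 * (k / L) * Real.log 2 := by
            field_simp
            ring
          have e5 : 4 * ((k : ℝ) / L) ≤ 1 := by
            rw [← mul_div_assoc, div_le_one hL0]; exact k5
          have e6 : 0 < Real.log 2 := Real.log_pos (by norm_num)
          rw [e4]
          nlinarith only [hL, k5, e6, e4]
      _ = 32 / x * Real.exp (-(k : ℝ)) := by
          rw [Real.exp_add, Real.exp_sub, Real.exp_log (by norm_num), hLd, Real.exp_log hx0]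
  have hLn : Real.log n ≤ L := Real.log_le_log hn0 hnx'
  have hLn0 : 0 ≤ Real.log (n : ℝ) := Real.log_natCast_nonneg n
  have hv : (0 : ℝ) ≤ ArithmeticFunction.vonMangoldt n := ArithmeticFunction.vonMangoldt_nonneg
  calc ArithmeticFunction.vonMangoldt n * (Real.log n ^ k / (k.factorial : ℝ))
        * (n : ℝ) ^ (-(1 + k / L))
      ≤ ArithmeticFunction.vonMangoldt n * (L ^ k / (k.factorial : ℝ))
        * (32 / x * Real.exp (-(k : ℝ))) := by gcongr
    _ = 32 / x * (L ^ k * Real.exp (-(k : ℝ)) / (k.factorial : ℝ))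
        * ArithmeticFunction.vonMangoldt n := by ring

lemma low (x z q a : ℕ) (hL : 64 ≤ Real.log x) (hx : 16 ≤ x) :
    ∑ n ∈ Icc 1 x, G x z q a n * pt x n
      ≤ 32 / x * m0 x * (Real.log x * th x q a + 2 * √(x : ℝ) * Real.log x) := by
  have hm0 := m0_pos x hL
  have hx0 : (0 : ℝ) < x := by exact_mod_cast (by omega : 0 < x)
  have hL0 : 0 < Real.log x := by linarith
  have step : ∀ n ∈ Icc 1 x, G x z q a n * pt x n
      ≤ 32 / x * m0 x * (if n ≡ a [MOD q] then ArithmeticFunction.vonMangoldt n * tw x n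
        else 0) := by
    intro n hn
    rw [mem_Icc] at hn
    rw [pt_eq_tw x n hx hn.1 hn.2]
    have hv : (0 : ℝ) ≤ ArithmeticFunction.vonMangoldt n := ArithmeticFunction.vonMangoldt_nonneg
    rcases (tw_nonneg x n).eq_or_lt with h | h
    · rw [← h]; simp
    unfold G
    by_cases h1 : n ≡ a [MOD q]
    · rw [if_pos h1]
      split_ifs
      · calc fx x n * tw x n ≤ (32 / x * m0 x * ArithmeticFunction.vonMangoldt n) * tw x n := by
              gcongr
              exact fx_le x n hL hn.1 hn.2 h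
          _ = _ := by ring
      · rw [zero_mul]
        positivity
    · rw [if_neg h1, if_neg (fun h2 => h1 h2.1)]
      simp
  have e1 : ∑ n ∈ Icc 1 x, (if n ≡ a [MOD q] then ArithmeticFunction.vonMangoldt n * tw x n
        else 0) ≤ Real.log x * th x q a + (Chebyshev.psi x - Chebyshev.theta x) := by
    rw [Chebyshev.psi_sub_theta_eq_sum_not_prime, Nat.floor_natCast]
    have e2 : Real.log x * th x q a
        = ∑ n ∈ Icc 1 x, (if n ≡ a [MOD q] then (if n.Prime then tw x n * Real.log n else 0)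
          else 0) := by
      unfold th
      rw [sum_filter, mul_sum]
      refine sum_congr rfl fun n _ => ?_
      split_ifs with h1 h2
      · unfold pw
        rw [if_pos h2]
        field_simp
      · unfold pw
        rw [if_neg h2, mul_zero]
      · rw [mul_zero]
    have e3 : ∑ n ∈ (Ioc 0 x).filter (fun n => ¬ n.Prime), ArithmeticFunction.vonMangoldt n
        = ∑ n ∈ Icc 1 x, (if ¬ n.Prime then ArithmeticFunction.vonMangoldt n else 0) := by
      rw [sum_filter]
      rfl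
    rw [e2, e3, ← sum_add_distrib]
    refine sum_le_sum fun n _ => ?_
    have hv : (0 : ℝ) ≤ ArithmeticFunction.vonMangoldt n := ArithmeticFunction.vonMangoldt_nonneg
    by_cases h1 : n ≡ a [MOD q]
    · rw [if_pos h1, if_pos h1]
      by_cases h2 : n.Prime
      · rw [if_pos h2, if_neg (not_not.2 h2), ArithmeticFunction.vonMangoldt_apply_prime h2]
        linarith
      · rw [if_neg h2, if_pos h2]
        have := tw_le_one x n
        nlinarith only [hv, this]
    · rw [if_neg h1, if_neg h1]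
      split_ifs <;> simp
  have e4 : Chebyshev.psi x - Chebyshev.theta x ≤ 2 * √(x : ℝ) * Real.log x :=
    Chebyshev.psi_sub_theta_le (by exact_mod_cast (by omega : 1 ≤ x))
  calc ∑ n ∈ Icc 1 x, G x z q a n * pt x n
      ≤ ∑ n ∈ Icc 1 x, 32 / x * m0 x *
        (if n ≡ a [MOD q] then ArithmeticFunction.vonMangoldt n * tw x n else 0) :=
          sum_le_sum step
    _ = 32 / x * m0 x * ∑ n ∈ Icc 1 x,
        (if n ≡ a [MOD q] then ArithmeticFunction.vonMangoldt n * tw x n else 0) := by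
          rw [mul_sum]
    _ ≤ 32 / x * m0 x * (Real.log x * th x q a + 2 * √(x : ℝ) * Real.log x) := by
        gcongr
        linarith

/-- the comparison of a class with all rough integers -/
lemma cmp (x z q a : ℕ) (CF T E1 E2 : ℝ)
    (hφ : 0 < (Nat.totient q : ℝ)) (hφ1 : 1 ≤ (Nat.totient q : ℝ))
    (hs : Summable (fx x)) (h0 : fx x 0 = 0)
    (hFS : ∀ g : ℕ → ℝ, Summable g → g 0 = 0 →
      (∀ t : ℝ, |t| ≤ T → ‖∑' n, (g n : ℂ) * (n : ℂ) ^ (Complex.I * t)‖ ≤ E1) →
      (∀ t : ℝ, ‖∑' n, (g n : ℂ) * (n : ℂ) ^ (Complex.I * t)‖ ≤ E2) →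
      |∑' n, g n * pt x n| ≤ E1 + CF * E2 / T)
    (hE2 : ∑' n, fx x n ≤ E2)
    (hE1 : ∀ t : ℝ, |t| ≤ T → ‖PL (ci z q a) (kx x) (sx x t)
      - ((1 / (Nat.totient q : ℝ) : ℝ) : ℂ) * PL (ci z 1 0) (kx x) (sx x t)‖ ≤ E1) :
    1 / (Nat.totient q : ℝ) * ∑' n, G x z 1 0 n * pt x n - (E1 + CF * E2 / T)
      ≤ ∑' n, G x z q a n * pt x n := by
  have hser : ∀ t : ℝ, ∑' n, ((G x z q a n - 1 / (Nat.totient q : ℝ) * G x z 1 0 n : ℝ) : ℂ)
      * (n : ℂ) ^ (Complex.I * t) = PL (ci z q a) (kx x) (sx x t)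
      - ((1 / (Nat.totient q : ℝ) : ℝ) : ℂ) * PL (ci z 1 0) (kx x) (sx x t) := by
    intro t
    rw [← ser x z q a h0 t, ← ser x z 1 0 h0 t, ← tsum_mul_left,
      ← (ser_summable x z q a hs h0 t).tsum_sub ((ser_summable x z 1 0 hs h0 t).mul_left _)]
    refine tsum_congr fun n => ?_
    push_cast
    ring
  have hG0 : ∀ q a, G x z q a 0 = 0 := fun q a =>
    le_antisymm (by simpa [h0] using G_le x z q a 0) (G_nonneg _ _ _ _ _)
  have hGs : ∀ q a, Summable (G x z q a) := fun q a =>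
    Summable.of_nonneg_of_le (fun n => G_nonneg _ _ _ _ _) (fun n => G_le _ _ _ _ _) hs
  have hGp : ∀ q a, Summable (fun n => G x z q a n * pt x n) := fun q a =>
    Summable.of_nonneg_of_le (fun n => mul_nonneg (G_nonneg _ _ _ _ _) (pt_nonneg _ _))
      (fun n => by
        have h1 := G_le x z q a n
        have h2 := pt_le_one x n
        have h3 := G_nonneg x z q a n
        nlinarith only [h1, h2, h3, pt_nonneg x n]) hs
  have hab : ∀ n, |G x z q a n - 1 / (Nat.totient q : ℝ) * G x z 1 0 n| ≤ fx x n := by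
    intro n
    have e1 := G_nonneg x z q a n
    have e2 := G_le x z q a n
    have e3 := G_nonneg x z 1 0 n
    have e4 := G_le x z 1 0 n
    have e5 : 1 / (Nat.totient q : ℝ) ≤ 1 := by rw [div_le_one hφ]; exact hφ1
    have e6 : 0 ≤ 1 / (Nat.totient q : ℝ) := by positivity
    have e7 : 1 / (Nat.totient q : ℝ) * G x z 1 0 n ≤ fx x n := by nlinarith only [e4, e3, e5]
    have e8 : 0 ≤ 1 / (Nat.totient q : ℝ) * G x z 1 0 n := by positivity
    rw [abs_le]
    constructor <;> linarith only [e1, e7, e2, e8]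
  have hmain := hFS (fun n => G x z q a n - 1 / (Nat.totient q : ℝ) * G x z 1 0 n)
    ((hGs q a).sub ((hGs 1 0).mul_left _)) (by simp [hG0])
    (fun t ht => by rw [hser t]; exact hE1 t ht)
    (fun t => by
      refine le_trans ?_ hE2
      refine tsum_of_norm_bounded hs.hasSum fun n => ?_
      rcases eq_or_ne n 0 with hn | hn
      · subst hn
        simp [hG0, h0]
      rw [norm_mul, nrm n hn, mul_one, Complex.norm_real, Real.norm_eq_abs]
      exact hab n)
  have e9 : ∑' n, (G x z q a n - 1 / (Nat.totient q : ℝ) * G x z 1 0 n) * pt x n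
      = ∑' n, G x z q a n * pt x n - 1 / (Nat.totient q : ℝ) * ∑' n, G x z 1 0 n * pt x n := by
    rw [← tsum_mul_left, ← (hGp q a).tsum_sub ((hGp 1 0).mul_left _)]
    refine tsum_congr fun n => ?_
    ring
  rw [e9] at hmain
  have := (abs_le.1 hmain).1
  linarith only [this]

/-- the part `n ≤ x` -/
lemma split (x z q a : ℕ) (B : ℝ) (hs : Summable (fx x)) (h0 : fx x 0 = 0)
    (hCs : Summable (fun n => (if x < n ∧ n ≡ a [MOD q] then fx x n else 0) * pt x n))
    (hC : ∑' n, (if x < n ∧ n ≡ a [MOD q] then fx x n else 0) * pt x n ≤ B) :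
    ∑' n, G x z q a n * pt x n ≤ ∑ n ∈ Icc 1 x, G x z q a n * pt x n + B := by
  have hG0 : G x z q a 0 = 0 :=
    le_antisymm (by simpa [h0] using G_le x z q a 0) (G_nonneg _ _ _ _ _)
  have hGp : Summable (fun n => G x z q a n * pt x n) :=
    Summable.of_nonneg_of_le (fun n => mul_nonneg (G_nonneg _ _ _ _ _) (pt_nonneg _ _))
      (fun n => by
        have h1 := G_le x z q a n
        have h2 := pt_le_one x n
        have h3 := G_nonneg x z q a n
        nlinarith only [h1, h2, h3, pt_nonneg x n]) hs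
  have hF : HasSum (fun n => if n ∈ Icc 1 x then G x z q a n * pt x n else 0)
      (∑ n ∈ Icc 1 x, (if n ∈ Icc 1 x then G x z q a n * pt x n else 0)) :=
    hasSum_sum_of_ne_finset_zero (fun n hn => if_neg hn)
  have hF' : ∑ n ∈ Icc 1 x, (if n ∈ Icc 1 x then G x z q a n * pt x n else 0)
      = ∑ n ∈ Icc 1 x, G x z q a n * pt x n := sum_congr rfl fun n hn => if_pos hn
  rw [hF'] at hF
  calc ∑' n, G x z q a n * pt x n
      ≤ ∑' n, ((if n ∈ Icc 1 x then G x z q a n * pt x n else 0)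
        + (if x < n ∧ n ≡ a [MOD q] then fx x n else 0) * pt x n) := by
        refine hGp.tsum_le_tsum (fun n => ?_) (hF.summable.add hCs)
        have hp := pt_nonneg x n
        have hf := fx_nonneg x n
        by_cases h1 : n ∈ Icc 1 x
        · rw [if_pos h1]
          have : 0 ≤ (if x < n ∧ n ≡ a [MOD q] then fx x n else 0) * pt x n := by
            split_ifs <;> positivity
          linarith
        · rw [if_neg h1, zero_add]
          rcases Nat.eq_zero_or_pos n with h2 | h2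
          · subst h2
            rw [hG0, zero_mul]
            split_ifs <;> positivity
          have h3 : x < n := by
            rw [mem_Icc] at h1; omega
          refine mul_le_mul_of_nonneg_right ?_ hp
          unfold G
          by_cases h4 : n ≡ a [MOD q] ∧ rg z n
          · rw [if_pos h4, if_pos ⟨h3, h4.1⟩]
          · rw [if_neg h4]
            split_ifs
            · exact hf
            · exact le_rfl
    _ = ∑ n ∈ Icc 1 x, G x z q a n * pt x n
        + ∑' n, (if x < n ∧ n ≡ a [MOD q] then fx x n else 0) * pt x n := by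
        rw [hF.summable.tsum_add hCs, hF.tsum_eq]
    _ ≤ _ := by gcongr

/-- PRIMES IN PROGRESSIONS TO LARGE SMOOTH MODULI -/
theorem px (h1 : StmtPS) (h2 : StmtFS) (h3 : StmtTV) (h4 : StmtMT) (h5 : StmtCY) : StmtPX := by
  have h3' := h3
  obtain ⟨K, c, hK, hc, hc1, z0, hPS⟩ := h1
  obtain ⟨CF, hCF, hFS⟩ := h2
  obtain ⟨cM, hcM, x1, hMT⟩ := h4
  obtain ⟨x2, hCY⟩ := h5 (cM / 4) (by positivity)
  obtain ⟨A, hA⟩ : ∃ A : ℝ, A = 1 + 4 * CF / cM + 512 / cM + z0 := ⟨_, rfl⟩
  have hz0 : (0 : ℝ) ≤ z0 := Nat.cast_nonneg _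
  have hcF4 : 0 < 4 * CF / cM := by positivity
  have hcM5 : 0 < 512 / cM := by positivity
  have hA0 : 0 < A := by rw [hA]; linarith only [hcF4, hcM5]
  obtain ⟨W, hW⟩ := prim_big A hA0
  have hlim : Tendsto (fun x : ℕ => Real.log (x : ℝ)) atTop atTop :=
    Real.tendsto_log_atTop.comp tendsto_natCast_atTop_atTop
  have hev : ∀ᶠ x : ℕ in atTop, 64 + 4 / cM + (W : ℝ) ^ 2 ≤ Real.log (x : ℝ) ∧ x1 ≤ x ∧
      x2 ≤ x ∧ 16 ≤ x := by
    filter_upwards [hlim.eventually_ge_atTop (64 + 4 / cM + (W : ℝ) ^ 2),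
      eventually_ge_atTop x1, eventually_ge_atTop x2, eventually_ge_atTop 16] with x a1 a2 a3 a4
    exact ⟨a1, a2, a3, a4⟩
  obtain ⟨x0, hx0⟩ := eventually_atTop.1 hev
  have he4 : 1 ≤ Real.exp 4 := Real.one_le_exp (by norm_num)
  have hCge : 200 ≤ 200 * K * Real.exp 4 / c := by
    rw [le_div_iff₀ hc]
    have : 1 ≤ K * Real.exp 4 := by nlinarith only [hK, he4]
    nlinarith only [hc1, this]
  refine ⟨cM / 256, 200 * K * Real.exp 4 / c, by positivity, by linarith only [hCge], x0,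
    fun x w hx hw hC => ?_⟩
  obtain ⟨hx64, hxx1, hxx2, hx16⟩ := hx0 x hx
  have hcM4 : 0 < 4 / cM := by positivity
  have hW2 : 0 ≤ (W : ℝ) ^ 2 := by positivity
  have hL64 : 64 ≤ Real.log x := by linarith only [hx64, hcM4, hW2]
  obtain ⟨k1, k2, k3, k4, k5, k6, k7, k8⟩ := kx_facts x hL64
  have hm0 := m0_pos x hL64
  have hxp : (0 : ℝ) < x := by exact_mod_cast (by omega : 0 < x)
  obtain ⟨hfs, hf0, -⟩ := h3 x hx16
  have hE2 := e2_bd x hL64 h3' hx16
  set L := Real.log (x : ℝ) with hLd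
  have hL0 : 0 < L := by linarith only [hcM4, hW2, hx64]
  -- size of w
  have hwW : W ≤ w := by
    have e1 : (W : ℝ) ≤ √L := Real.le_sqrt_of_sq_le (by linarith only [hcM4, hx64])
    exact_mod_cast e1.trans hw
  have hwL : L ≤ (w : ℝ) ^ 2 := by
    calc L = √L ^ 2 := (Real.sq_sqrt hL0.le).symm
      _ ≤ (w : ℝ) ^ 2 := by gcongr
  have hw8 : (8 : ℝ) ≤ w := by
    have e1 : (8 : ℝ) ≤ √L := Real.le_sqrt_of_sq_le (by linarith only [hcM4, hW2, hx64])
    exact e1.trans hw
  have hw2 : 2 ≤ w := by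
    have : (2 : ℝ) ≤ w := by linarith only [hw8]
    exact_mod_cast this
  set P := primorial w with hPd
  have hPpos : 0 < P := primorial_pos w
  have hP0 : (0 : ℝ) < P := by exact_mod_cast hPpos
  have hPA : A * L ^ 6 ≤ P := by
    refine le_trans ?_ (hW w hwW)
    have : L ^ 6 ≤ (w : ℝ) ^ 12 := by
      calc L ^ 6 ≤ ((w : ℝ) ^ 2) ^ 6 := by gcongr
        _ = (w : ℝ) ^ 12 := by ring
    gcongr
  have hL61 : 1 ≤ L ^ 6 := one_le_pow₀ (by linarith only [hcM4, hW2, hx64])
  have hLL6 : L ≤ L ^ 6 := by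
    calc L = L ^ 1 := (pow_one L).symm
      _ ≤ L ^ 6 := pow_le_pow_right₀ (by linarith only [hcM4, hW2, hx64]) (by norm_num)
  have hPL : L ≤ P := by nlinarith only [hA, hcF4, hcM5, hPA, hLL6, hL61, hcM4, hx64]
  have hPF : 4 * CF / cM * L ^ 6 ≤ P := by nlinarith only [hA, hcM5, hcM4, hx64, hPA, hLL6, hL61]
  have hPM : 512 / cM ≤ P := by nlinarith only [hA, hcF4, hcM4, hx64, hPA, hLL6, hL61, hcM5]
  have hPz : (z0 : ℝ) ≤ P := by nlinarith only [hA, hcF4, hcM5, hcM4, hx64, hPA, hLL6, hPL, hL61]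
  have hP1 : (1 : ℝ) ≤ P := by linarith only [hcM4, hW2, hx64, hPL]
  have hlogP : Real.log P ≤ 139 / 100 * w := by
    have e1 := Chebyshev.theta_le_log4_mul_x (x := (w : ℝ)) (Nat.cast_nonneg _)
    rw [Chebyshev.theta_eq_log_primorial, Nat.floor_natCast] at e1
    have e2 : Real.log 4 = 2 * Real.log 2 := by
      rw [show (4 : ℝ) = 2 ^ 2 by norm_num, Real.log_pow]; norm_num
    have e3 := Real.log_two_lt_d9
    have e4 : Real.log 4 ≤ 139 / 100 := by rw [e2]; linarith only [e3]
    calc Real.log P ≤ Real.log 4 * w := e1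
      _ ≤ 139 / 100 * w := by gcongr
  have hlogP0 : 0 < Real.log P := Real.log_pos (by linarith only [hcM4, hW2, hx64, hPL])
  have hwl : 0 ≤ (w : ℝ) * Real.log L := by positivity
  have hw200 : 200 * (w : ℝ) ≤ L := by
    have e1 : 200 * ((w : ℝ) * Real.log L) ≤ L := le_trans (by gcongr) hC
    nlinarith only [e1, k8]
  have hwC : 200 * K * Real.exp 4 * ((w : ℝ) * Real.log L) ≤ c * L := by
    have e1 : 200 * K * Real.exp 4 / c * ((w : ℝ) * Real.log L)
        = (200 * K * Real.exp 4 * ((w : ℝ) * Real.log L)) / c := by ring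
    rw [e1, div_le_iff₀ hc] at hC
    linarith only [hC]
  -- the level z
  obtain ⟨z, hz⟩ : ∃ z : ℕ, z = P ^ 64 := ⟨_, rfl⟩
  have hzP : (z : ℝ) = (P : ℝ) ^ 64 := by rw [hz]; push_cast; rfl
  have hlogz : Real.log z = 64 * Real.log P := by rw [hzP, Real.log_pow]; norm_num
  have hlogz89 : Real.log z ≤ 89 * w := by rw [hlogz]; linarith only [hw8, hlogP]
  have hlogz0 : 0 < Real.log z := by rw [hlogz]; linarith only [hlogP0]
  have hzz0 : z0 ≤ z := by
    have e1 : z0 ≤ P := by exact_mod_cast hPz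
    refine e1.trans ?_
    rw [hz]
    exact Nat.le_self_pow (by norm_num) P
  have hP128 : (P : ℝ) ^ 128 ≤ x := by
    rw [← Real.log_le_log_iff (by positivity) hxp, Real.log_pow]
    push_cast
    linarith only [hw8, hlogP, hw200]
  have hz2 : z ^ 2 ≤ x := by
    have : ((z ^ 2 : ℕ) : ℝ) ≤ x := by
      push_cast
      rw [hzP, ← pow_mul]
      exact hP128
    exact_mod_cast this
  obtain ⟨p, hp, hpw, hpa⟩ := hPS z w hzz0 hw2 (by
    rw [hz]; exact Nat.pow_le_pow_right hPpos (by norm_num))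
  refine ⟨p, hp, hpw, fun a ha => ?_⟩
  have hpP : p ∣ P := by
    rw [hPd]
    unfold primorial
    exact dvd_prod_of_mem _ (mem_filter.2 ⟨mem_range.2 (by omega), hp⟩)
  obtain ⟨q, hq⟩ : ∃ q : ℕ, q = P / p := ⟨_, rfl⟩
  have hq0 : 0 < q := by rw [hq]; exact Nat.div_pos (Nat.le_of_dvd hPpos hpP) hp.pos
  have hqP : q ≤ P := by rw [hq]; exact Nat.div_le_self _ _
  have hpa' := hpa a ha
  rw [← hq] at ha hpa' ⊢
  have hφn : 1 ≤ Nat.totient q := Nat.totient_pos.2 hq0
  have hφ1 : (1 : ℝ) ≤ Nat.totient q := by exact_mod_cast hφn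
  have hφ0 : (0 : ℝ) < Nat.totient q := by linarith only [hφ1]
  have hφq : (Nat.totient q : ℝ) ≤ q := by exact_mod_cast Nat.totient_le q
  have hqPr : (q : ℝ) ≤ P := by exact_mod_cast hqP
  have hφP : (Nat.totient q : ℝ) ≤ P := hφq.trans hqPr
  have hT : (z : ℝ) ^ (1 / 32 : ℝ) = (P : ℝ) ^ 2 := by
    rw [hzP, ← Real.rpow_natCast, ← Real.rpow_mul hP0.le, ← Real.rpow_natCast]
    norm_num
  have hT1 : 1 ≤ (P : ℝ) ^ 2 := one_le_pow₀ hP1
  have hkz : (kx x : ℝ) * Real.log z ≤ c * L := by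
    have e1 : (kx x : ℝ) * Real.log z ≤ (2 * Real.log L) * (89 * w) := by gcongr
    have e2 : 1 ≤ K * Real.exp 4 := by nlinarith only [hK, he4]
    nlinarith only [hc, k3, hwC, hlogP, hlogz, hw8, hw200, hwl, e2]
  have hcmp := cmp x z q a CF ((P : ℝ) ^ 2) (1 / (Nat.totient q : ℝ) * (K * Real.log z) ^ (kx x + 1))
    (L ^ 6 * m0 x) hφ0 hφ1 hfs hf0
    (fun g g1 g2 g3 g4 => hFS x _ _ _ g hx16 hT1 g1 g2 g3 g4) hE2
    (fun t ht => by
      refine hpa' (sx x t) (kx x) ?_ ?_ ?_
      · rw [sx_re]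
        have : 0 < (kx x : ℝ) / Real.log x := by positivity
        linarith only [this]
      · rw [sx_re]
        have : (kx x : ℝ) / Real.log x ≤ c / Real.log z := by
          rw [div_le_div_iff₀ hL0 hlogz0]; exact hkz
        linarith only [this]
      · rw [sx_im, abs_neg, hT]; exact ht)
  obtain ⟨hCs, hCb⟩ := hCY x q a hxx2 hq0 (by
    have : ((q ^ 4 : ℕ) : ℝ) ≤ x := by
      push_cast
      calc (q : ℝ) ^ 4 ≤ (P : ℝ) ^ 4 := by gcongr
        _ ≤ (P : ℝ) ^ 128 := pow_le_pow_right₀ hP1 (by norm_num)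
        _ ≤ x := hP128
    exact_mod_cast this)
  have hsp := split x z q a _ hfs hf0 hCs hCb
  have hlow := low x z q a hL64 hx16
  have hMT' : cM * m0 x ≤ ∑' n, G x z 1 0 n * pt x n := by
    have e1 := hMT x z hxx1 hz2
    refine e1.trans (le_of_eq (tsum_congr fun n => ?_))
    unfold G
    simp [Nat.modEq_one]
  change _ ≤ _ + cM / 4 / q * m0 x at hsp
  -- the error terms
  have hE1 : 1 / (Nat.totient q : ℝ) * (K * Real.log z) ^ (kx x + 1)
      ≤ cM / 4 * (m0 x / Nat.totient q) := by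
    have e1 := e1_bd x hL64 (K * Real.log z) (by positivity) (by
      have a1 : K * Real.log z ≤ K * (89 * w) := by gcongr
      have a2 : 200 * K * Real.exp 4 * (w : ℝ) ≤ 200 * K * Real.exp 4 * ((w : ℝ) * Real.log L) := by
        have : (w : ℝ) ≤ w * Real.log L := by nlinarith only [k8]
        gcongr
      have a3 : K * (w : ℝ) ≤ K * Real.exp 4 * (w : ℝ) := by
        have : 0 ≤ K * (w : ℝ) := by positivity
        nlinarith only [he4, this]
      have a4 : 0 ≤ K * (w : ℝ) := by positivity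
      change K * Real.log z ≤ L
      nlinarith only [hc1, hw8, hlogP, hw200, hwC, hlogz, a2, a3, hK, hcM4, hx64]) (by
      change Real.exp 1 * kx x * (K * Real.log z) ≤ Real.exp (-3) * L
      have a1 : (kx x : ℝ) * Real.log z ≤ (2 * Real.log L) * (89 * w) := by gcongr
      have a2 : Real.exp 1 * kx x * (K * Real.log z)
          ≤ Real.exp 1 * K * ((2 * Real.log L) * (89 * w)) := by
        calc Real.exp 1 * kx x * (K * Real.log z)
            = Real.exp 1 * K * ((kx x : ℝ) * Real.log z) := by ring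
          _ ≤ _ := by gcongr
      have a3 : Real.exp 4 * Real.exp (-3) = Real.exp 1 := by rw [← Real.exp_add]; norm_num
      have a4 : Real.exp 1 * K * (200 * (w * Real.log L)) ≤ Real.exp (-3) * L := by
        calc Real.exp 1 * K * (200 * (w * Real.log L))
            = Real.exp (-3) * (200 * K * Real.exp 4 * ((w : ℝ) * Real.log L)) := by
              rw [← a3]; ring
          _ ≤ Real.exp (-3) * (c * L) := by gcongr
          _ ≤ Real.exp (-3) * (1 * L) := by gcongr
          _ = _ := by ring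
      have a5 : 0 ≤ Real.exp 1 * K * (w * Real.log L) := by positivity
      nlinarith only [a2, a4, a5])
    have e2 : 4 / cM ≤ L ^ 2 := by
      have : 4 / cM ≤ L := by linarith only [hW2, hx64]
      nlinarith only [hcM4, hx64, hw8, hw200]
    have e3 : 4 ≤ cM * L ^ 2 := by
      rw [div_le_iff₀ hcM] at e2; linarith only [e2]
    have e4 : (K * Real.log z) ^ (kx x + 1) * 4 ≤ cM * m0 x := by
      have a0 : 0 ≤ (K * Real.log z) ^ (kx x + 1) := by positivity
      calc (K * Real.log z) ^ (kx x + 1) * 4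
          ≤ (K * Real.log z) ^ (kx x + 1) * (cM * L ^ 2) := by gcongr
        _ = cM * ((K * Real.log z) ^ (kx x + 1) * L ^ 2) := by ring
        _ ≤ cM * m0 x := by gcongr
    calc 1 / (Nat.totient q : ℝ) * (K * Real.log z) ^ (kx x + 1)
        = ((K * Real.log z) ^ (kx x + 1) * 4) / (4 * Nat.totient q) := by field_simp
      _ ≤ (cM * m0 x) / (4 * Nat.totient q) := by gcongr
      _ = cM / 4 * (m0 x / Nat.totient q) := by field_simp
  have hE2' : CF * (L ^ 6 * m0 x) / (P : ℝ) ^ 2 ≤ cM / 4 * (m0 x / Nat.totient q) := by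
    have e1 : CF * L ^ 6 ≤ cM / 4 * P := by
      have : CF * L ^ 6 = cM / 4 * (4 * CF / cM * L ^ 6) := by field_simp
      rw [this]; gcongr
    calc CF * (L ^ 6 * m0 x) / (P : ℝ) ^ 2 = (CF * L ^ 6) * m0 x / (P : ℝ) ^ 2 := by ring
      _ ≤ (cM / 4 * P) * m0 x / (P : ℝ) ^ 2 := by gcongr
      _ = cM / 4 * (m0 x / P) := by field_simp
      _ ≤ cM / 4 * (m0 x / Nat.totient q) := by gcongr
  have hMT2 : 1 / (Nat.totient q : ℝ) * (cM * m0 x)
      ≤ 1 / (Nat.totient q : ℝ) * ∑' n, G x z 1 0 n * pt x n := by gcongr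
  have hqφ : cM / 4 / q * m0 x ≤ cM / 4 * (m0 x / Nat.totient q) := by
    calc cM / 4 / q * m0 x = cM / 4 * (m0 x / q) := by ring
      _ ≤ _ := by gcongr
  have hfin : cM / 4 * (m0 x / Nat.totient q)
      ≤ 32 / x * m0 x * (L * th x q a + 2 * √(x : ℝ) * L) := by
    have e1 : 1 / (Nat.totient q : ℝ) * (cM * m0 x) = 4 * (cM / 4 * (m0 x / Nat.totient q)) := by
      field_simp
    linarith only [hcmp, hlow, hsp, hE1, hE2', hMT2, hqφ, e1]
  -- divide by the main term
  have hfin2 : cM / (128 * Nat.totient q) * x ≤ L * th x q a + 2 * √(x : ℝ) * L := by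
    have e1 : cM / 4 * (m0 x / Nat.totient q)
        = 32 / x * m0 x * (cM / (128 * Nat.totient q) * x) := by
      field_simp
      ring
    rw [e1] at hfin
    exact le_of_mul_le_mul_left hfin (by positivity)
  have hsx : 2 * √(x : ℝ) * L ≤ cM / (256 * Nat.totient q) * x := by
    have e1 : (P : ℝ) ^ 3 ≤ √(x : ℝ) := by
      apply Real.le_sqrt_of_sq_le
      calc ((P : ℝ) ^ 3) ^ 2 = (P : ℝ) ^ 6 := by ring
        _ ≤ (P : ℝ) ^ 128 := pow_le_pow_right₀ hP1 (by norm_num)
        _ ≤ x := hP128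
    have e2 : 512 ≤ cM * P := by
      rw [div_le_iff₀ hcM] at hPM; linarith only [hPM]
    have e3 : 512 * (Nat.totient q : ℝ) * L ≤ cM * √(x : ℝ) := by
      calc 512 * (Nat.totient q : ℝ) * L ≤ (cM * P) * P * P := by gcongr
        _ = cM * (P : ℝ) ^ 3 := by ring
        _ ≤ cM * √(x : ℝ) := by gcongr
    have e4 : √(x : ℝ) * √(x : ℝ) = x := Real.mul_self_sqrt hxp.le
    have e5 : 0 ≤ √(x : ℝ) := Real.sqrt_nonneg _
    rw [div_mul_eq_mul_div, le_div_iff₀ (by positivity)]
    calc 2 * √(x : ℝ) * L * (256 * Nat.totient q)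
        = √(x : ℝ) * (512 * (Nat.totient q : ℝ) * L) := by ring
      _ ≤ √(x : ℝ) * (cM * √(x : ℝ)) := by gcongr
      _ = cM * (√(x : ℝ) * √(x : ℝ)) := by ring
      _ = cM * x := by rw [e4]
  have e6 : cM / (128 * Nat.totient q) * x = 2 * (cM / (256 * Nat.totient q) * x) := by
    field_simp
    ring
  have e7 : cM / (256 * Nat.totient q) * x ≤ L * th x q a := by linarith only [hfin2, hsx, e6]
  change cM / 256 * (x / ((Nat.totient q : ℝ) * L)) ≤ th x q a
  have e8 : cM / 256 * (x / ((Nat.totient q : ℝ) * L)) = (cM / (256 * Nat.totient q) * x) / L := by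
    field_simp
  rw [e8, div_le_iff₀ hL0]
  linarith only [hfin2, hsx, e6]

end Pool.Agent.Helper39.CR
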