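import Pool.Agent.Helper39.CR.GoalsS

/-!
Project CAR, stage 3: OMG and SSTR.
-/

open scoped ComplexOrder ZeroAtInfty
open TopologicalSpace

namespace Pool.Agent.Helper39.CR

open Pool.Agent.Helper34.CAR Pool.Agent.Helper39.Uct

noncomputable section

theorem push_succ {B : Type} [CStarAlgebra B] {θ : B →⋆ₐ[ℂ] B} (s : Sys B θ) (k m : ℕ)
    (a : s.A k) : s.push k (m + 1) a = s.κ (k + m) (s.push k m a) := rfl

theorem push_norm_eq {B : Type} [CStarAlgebra B] {θ : B →⋆ₐ[ℂ] B} (s : Sys B θ)
    (hk : ∀ i, Function.Injective (s.κ i)) (k m : ℕ) (a : s.A k) :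
    ‖s.push k m a‖ = ‖a‖ := by
  induction m with
  | zero => rfl
  | succ m ih =>
    rw [push_succ, NonUnitalStarAlgHom.norm_map (s.κ (k + m)) (hk (k + m)), ih]

/-- The character. -/
def chr (X : Type) [NonUnitalCStarAlgebra X] : Unitization ℂ X →⋆ₐ[ℂ] ℂ where
  toFun b := b.fst
  map_one' := rfl
  map_mul' a b := by simp
  map_zero' := rfl
  map_add' a b := by simp
  commutes' c := rfl
  map_star' a := by simp

theorem chr_apply (X : Type) [NonUnitalCStarAlgebra X] (b : Unitization ℂ X) :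
    chr X b = b.fst := rfl

theorem omg (hK : S_KINJ) : S_OMG := by
  intro X _ θ s hs k a ha
  by_contra hcon
  push Not at hcon
  obtain ⟨v, hv, -, hv3⟩ := hs
  have hpos : 0 < ‖a‖ / 2 := by
    have := norm_pos_iff.2 ha
    positivity
  obtain ⟨m, x, hx⟩ := hv3 k a (‖a‖ / 2) hpos
  obtain ⟨hv1, hv2⟩ := hv (k + m)
  -- the entrywise character
  let ω : s.A (k + m) →⋆ₐ[ℂ] Mt (s.S (k + m)) ℂ := Mt.map (chr X)
  have hω : ∀ b : s.A (k + m), ‖ω b‖ ≤ ‖b‖ := fun b => NonUnitalStarAlgHom.norm_apply_le ω b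
  let y : Mt (s.S (k + m)) ℂ := Mt.of x
  let σ : Mt (s.S (k + m)) ℂ →⋆ₐ[ℂ] s.A (k + m) := Mt.map (StarAlgHom.ofId ℂ (Unitization ℂ X))
  have hσ : ∀ c, ‖σ c‖ ≤ ‖c‖ := fun c => NonUnitalStarAlgHom.norm_apply_le σ c
  have hσy : σ y = Mt.scal x := Mt.ext fun i j => rfl
  have hωσ : ω (Mt.scal x : s.A (k + m)) = y := by
    ext i j
    rfl
  have hωp : ω (s.push k m a) = 0 := by
    ext i j
    exact hcon m i j
  -- the scalar matrix is small
  have h1 : ‖star (ω (v (k + m))) * y * ω (v (k + m))‖ < ‖a‖ / 2 := by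
    have h2 := hω (s.push k m a - star (v (k + m)) * Mt.scal x * v (k + m))
    rw [map_sub, hωp, map_mul, map_mul, map_star, hωσ, zero_sub, norm_neg] at h2
    exact h2.trans_lt hx
  have hw1 : star (ω (v (k + m))) * ω (v (k + m)) = 1 := by
    rw [← map_star, ← map_mul, hv1, map_one]
  have hw2 : ω (v (k + m)) * star (ω (v (k + m))) = 1 := by
    rw [← map_star, ← map_mul, hv2, map_one]
  have hu : ∀ (R : Type) [CStarAlgebra R] (w t : R), star w * w = 1 → ‖star w * t * w‖ ≤ ‖t‖ := by
    intro R _ w t hw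
    have hn : ‖w‖ ≤ 1 := by
      by_cases hR : Nontrivial R
      · have : ‖w‖ * ‖w‖ = 1 := by
          rw [← CStarRing.norm_star_mul_self, hw, CStarRing.norm_one]
        nlinarith [norm_nonneg w]
      · rw [not_nontrivial_iff_subsingleton] at hR
        rw [Subsingleton.elim w 0, norm_zero]
        exact zero_le_one
    calc ‖star w * t * w‖ ≤ ‖star w‖ * ‖t‖ * ‖w‖ :=
          (norm_mul_le _ _).trans (mul_le_mul_of_nonneg_right (norm_mul_le _ _) (norm_nonneg _))
      _ ≤ 1 * ‖t‖ * 1 := by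
          rw [norm_star]
          exact mul_le_mul (mul_le_mul_of_nonneg_right hn (norm_nonneg _)) hn (norm_nonneg _)
            (by positivity)
      _ = ‖t‖ := by ring
  have h3 : ‖y‖ < ‖a‖ / 2 := by
    have h4 : y = star (star (ω (v (k + m)))) * (star (ω (v (k + m))) * y * ω (v (k + m))) *
        star (ω (v (k + m))) := by
      rw [star_star]
      calc y = (ω (v (k + m)) * star (ω (v (k + m)))) * y *
            (ω (v (k + m)) * star (ω (v (k + m)))) := by rw [hw2, one_mul, mul_one]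
        _ = _ := by simp only [mul_assoc]
    rw [h4]
    refine (hu _ _ _ ?_).trans_lt h1
    rw [star_star, hw2]
  have h5 : ‖star (v (k + m)) * Mt.scal x * v (k + m)‖ < ‖a‖ / 2 := by
    refine (hu _ _ _ hv1).trans_lt ?_
    rw [← hσy]
    exact (hσ y).trans_lt h3
  have h6 := norm_sub_norm_le (s.push k m a) (star (v (k + m)) * Mt.scal x * v (k + m))
  rw [push_norm_eq s (hK _ _ s) k m a] at h6
  linarith

theorem sstr : S_SSTR := by
  intro X _ θ s k a ha m
  induction m with
  | zero =>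
    refine ⟨fun _ => True, fun x y => ⟨fun _ _ => ha x y, fun h => absurd Iff.rfl h,
      fun h => absurd trivial h⟩, fun _ _ => trivial⟩
  | succ m ih =>
    obtain ⟨P, hP, hP2⟩ := ih
    obtain ⟨hne, -, -, h0, h1, h2, h3, -⟩ := s.step (k + m)
    have hfst : ∀ b : Unitization ℂ X, b.fst = 0 → (Unitization.starMap θ b).fst = 0 := by
      intro b hb
      have : b = (b.snd : Unitization ℂ X) := by
        refine Unitization.ext ?_ ?_
        · simpa using hb
        · simp
      rw [this]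
      simp
    have key : ∀ (x1 y1 : s.S (k + m)) (c d : s.C (k + m)) (b : Unitization ℂ X),
        (P x1 → P y1 → b.fst = 0) → (¬ (P x1 ↔ P y1) → b = 0) →
        (¬ P x1 → ¬ P y1 → ∃ t : ℂ, b = algebraMap ℂ (Unitization ℂ X) t) →
        ((P x1 ∧ (c = s.c0 (k + m) ∨ c = s.c1 (k + m))) →
          (P y1 ∧ (d = s.c0 (k + m) ∨ d = s.c1 (k + m))) → (s.K (k + m) b c d).fst = 0) ∧
        (¬ ((P x1 ∧ (c = s.c0 (k + m) ∨ c = s.c1 (k + m))) ↔
          (P y1 ∧ (d = s.c0 (k + m) ∨ d = s.c1 (k + m)))) → s.K (k + m) b c d = 0) ∧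
        (¬ (P x1 ∧ (c = s.c0 (k + m) ∨ c = s.c1 (k + m))) →
          ¬ (P y1 ∧ (d = s.c0 (k + m) ∨ d = s.c1 (k + m))) →
          ∃ t : ℂ, s.K (k + m) b c d = algebraMap ℂ (Unitization ℂ X) t) := by
      intro x1 y1 c d b p1 p2 p3
      refine ⟨?_, ?_, ?_⟩
      · rintro ⟨hx, hc⟩ ⟨hy, hd⟩
        have hb := p1 hx hy
        by_cases hcd : c = d
        · subst hcd
          rcases hc with hc | hc
          · rw [hc, h0]
            exact hfst b hb
          · rw [hc, h1]
            exact hb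
        · rw [h2 b c d hcd (by tauto)]
          rfl
      · intro hn
        by_cases hx : P x1 <;> by_cases hy : P y1
        · have hcd : c ≠ d := by
            rintro rfl
            exact hn ⟨fun h => ⟨hy, h.2⟩, fun h => ⟨hx, h.2⟩⟩
          refine h2 b c d hcd ?_
          by_contra h
          push Not at h
          exact hn ⟨fun h' => absurd h'.2 (by tauto), fun h' => absurd h'.2 (by tauto)⟩
        · rw [p2 (fun h => hy (h.1 hx)), map_zero]
          rfl
        · rw [p2 (fun h => hx (h.2 hy)), map_zero]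
          rfl
        · exact absurd ⟨fun h => absurd h.1 hx, fun h => absurd h.1 hy⟩ hn
      · intro hx hy
        by_cases hx' : P x1 <;> by_cases hy' : P y1
        · have hc : c ≠ s.c0 (k + m) ∧ c ≠ s.c1 (k + m) := by
            constructor <;> intro h <;> exact hx ⟨hx', by tauto⟩
          have hd : d ≠ s.c0 (k + m) ∧ d ≠ s.c1 (k + m) := by
            constructor <;> intro h <;> exact hy ⟨hy', by tauto⟩
          exact h3 b c d hc.1 hc.2 hd.1 hd.2
        · refine ⟨0, ?_⟩
          rw [p2 (fun h => hy' (h.1 hx')), map_zero, map_zero]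
          rfl
        · refine ⟨0, ?_⟩
          rw [p2 (fun h => hx' (h.2 hy')), map_zero, map_zero]
          rfl
        · obtain ⟨t, ht⟩ := p3 hx' hy'
          rw [ht, AlgHomClass.commutes, Mt.algebraMap_apply]
          split_ifs
          · exact ⟨t, rfl⟩
          · exact ⟨0, by rw [map_zero]⟩
    refine ⟨fun x => P (s.e (k + m) x).1 ∧ ((s.e (k + m) x).2 = s.c0 (k + m) ∨
      (s.e (k + m) x).2 = s.c1 (k + m)), fun x y => ?_, ?_⟩
    · obtain ⟨p1, p2, p3⟩ := hP (s.e (k + m) x).1 (s.e (k + m) y).1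
      exact key _ _ _ _ _ p1 p2 p3
    · intro hc x
      refine ⟨hP2 (fun i hi1 hi2 => hc i hi1 (by omega)) _, ?_⟩
      have hcard := hc (k + m) (by omega) (by omega)
      by_contra h
      push Not at h
      have h4 : ({s.c0 (k + m), s.c1 (k + m), (s.e (k + m) x).2} : Finset _).card = 3 := by
        rw [Finset.card_eq_three]
        exact ⟨_, _, _, hne, fun h' => h.1 h'.symm, fun h' => h.2 h'.symm, rfl⟩
      have h5 := Finset.card_le_univ ({s.c0 (k + m), s.c1 (k + m), (s.e (k + m) x).2} :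
        Finset (s.C (k + m)))
      omega

end

end Pool.Agent.Helper39.CR
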