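import Pool.Agent.Helper39.CR.OMG

/-!
Project CAR, stage 3: SIMA.
-/

open scoped ComplexOrder ZeroAtInfty
open TopologicalSpace

namespace Pool.Agent.Helper39.CR

open Pool.Agent.Helper34.CAR Pool.Agent.Helper39.Uct

noncomputable section

theorem sima (hO : S_OMG) (hS : S_SSTR) (hE : S_ESS) : S_SIMA := by
  intro E _ s hs n k a ha hne
  -- a nonzero entry
  obtain ⟨x, y, hxy⟩ : ∃ x y, a x y ≠ 0 := by
    by_contra h
    push Not at h
    exact hne (Mt.ext fun i j => h i j)
  by_cases hz : ∃ y : E, y ≠ 0
  · obtain ⟨e, he⟩ := hE E hz (a x y) hxy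
    let z : s.A k := Mt.single y y (e : Unitization ℂ C₀(ℝ, E))
    have hzg : z ∈ grd (Unitization ℂ C₀(ℝ, E)) (wz s n k) := single_mem_grd _ _ _ _
    have hent : ∀ i j, (a * z) i j = if j = y then a i y * (e : Unitization ℂ C₀(ℝ, E)) else 0 := by
      intro i j
      rw [Mt.mul_apply, Finset.sum_eq_single y]
      · change a i y * (Mt.single y y _ : Mt _ _) y j = _
        rw [Mt.single_apply]
        by_cases hj : j = y
        · rw [if_pos ⟨rfl, hj⟩, if_pos hj]
        · rw [if_neg (fun h => hj h.2), if_neg hj, mul_zero]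
      · intro l _ hl
        change a i l * (Mt.single y y _ : Mt _ _) l j = _
        rw [Mt.single_apply, if_neg (fun h => hl h.1), mul_zero]
      · intro h
        exact absurd (Finset.mem_univ _) h
    have hnz : a * z ≠ 0 := by
      intro h
      apply he
      have h1 := hent x y
      rw [if_pos rfl, h, Mt.zero_apply] at h1
      exact h1.symm
    have hf : ∀ i j, ((a * z) i j).fst = 0 := by
      intro i j
      rw [hent]
      split_ifs
      · simp
      · rfl
    obtain ⟨m, p, q, hpq⟩ := hO _ _ s hs k (a * z) hnz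
    obtain ⟨P, hP, -⟩ := hS _ _ s k (a * z) hf m
    obtain ⟨h1, h2, h3⟩ := hP p q
    have hp : ¬ P p ∧ ¬ P q := by
      by_cases hp : P p <;> by_cases hq : P q
      · exact absurd (h1 hp hq) hpq
      · exfalso
        apply hpq
        rw [h2 (fun h => hq (h.1 hp))]
        rfl
      · exfalso
        apply hpq
        rw [h2 (fun h => hp (h.2 hq))]
        rfl
      · exact ⟨hp, hq⟩
    obtain ⟨c, hc⟩ := h3 hp.1 hp.2
    refine ⟨z, hzg, m, p, q, c, ?_, hc⟩
    rintro rfl
    apply hpq
    rw [hc, map_zero]
    rfl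
  · push Not at hz
    refine ⟨1, ?_, 0, x, y, (a x y).fst, ?_, ?_⟩
    · intro i j hij
      rw [Mt.one_apply, if_neg]
      rintro rfl
      exact hij rfl
    · intro h
      apply hxy
      refine Unitization.ext h ?_
      ext t
      exact hz _
    · change (a * 1) x y = _
      rw [mul_one]
      refine Unitization.ext ?_ ?_
      · simp [Unitization.algebraMap_eq_inl]
      · ext t
        exact (hz _).trans (hz _).symm

end

end Pool.Agent.Helper39.CR
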