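import Pool.Agent.Helper39.CR.TBase

/-!
Project CAR (MP_d97caa_an), stage 3 (theory form): goal statements. Paper proof: `CR/proof.md`.
Every packet proves one of the Props `S_...`; Props named in its proof are hypotheses of the
theorem (they are other packets). `SeparableSpace` facts: see `TBase.lean` (`sep_of_inj`,
`sep_sub`, instances for `Unitization ℂ X`, `Mt I B`, `C(unitInterval, A)`).
-/

open scoped ComplexOrder ZeroAtInfty
open TopologicalSpace

namespace Pool.Agent.Helper39.CR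

open Pool.Agent.Helper34.CAR Pool.Agent.Helper39.Uct

noncomputable section

/-! ## Consequences of the axioms of a theory -/

/-- TZ. (1) zero maps induce `0`; (2) zero algebras have `F = 0`; (3) matrix algebras over `ℂ` have
`F = 0`.
Proof. (1) If `f = 0` then `f = g.comp h` with `h : A → ℂ` and `g : ℂ → B` the zero homomorphisms
(`0 : A →⋆ₙₐ[ℂ] ℂ`), so `map f x = map h (map g x)` and `map g x ∈ F_i(ℂ)` is `0` by `point`.
(2) `A` is a subsingleton, hence separable, and the identity is the zero map: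
`x = map id x = 0` by (1). (3) If `ι` is empty, `M = 0` by `span`, use (2). Otherwise let `j : ι` and
`h : ℂ → M`, `h a = e j j a` (a *-homomorphism by `mul`, `star`); `map h : F_i(M) → F_i(ℂ)` is
injective by `stable`, and `F_i(ℂ) = 0`. -/
def S_TZ : Prop := ∀ T : Theory,
  (∀ (i : ZMod 2) (A B : Type) [NonUnitalCStarAlgebra A] [NonUnitalCStarAlgebra B]
    [SeparableSpace A] [SeparableSpace B] (f : A →⋆ₙₐ[ℂ] B), (∀ a, f a = 0) →
    ∀ x, T.map i f x = 0) ∧
  (∀ (A : Type) [NonUnitalCStarAlgebra A], (∀ a : A, a = 0) → T.Zero A) ∧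
  (∀ (M ι : Type) [NonUnitalCStarAlgebra M] [SeparableSpace M] [Fintype ι]
    (e : ι → ι → ℂ →ₗ[ℂ] M), MUnits e → T.Zero M)

/-- TADD. Orthogonal sums of *-homomorphisms induce sums.
Proof (uses TZ). Two summands `f, g` first (`f a * g b = 0`; then also `g b * f a = 0`, take stars).
`A × A` is a separable C*-algebra; `inl a = (a, 0)`, `inr a = (0, a)`, `fst`, `snd`, `diag a = (a, a)`
are *-homomorphisms. The extension `inl : A → A × A`, `snd : A × A → A` satisfies the
hypotheses of `exact`. Claim: `z = map fst (map inl z) + map snd (map inr z)` for `z ∈ F_i(A × A)`.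
Let `d` be the difference. `fst ∘ inl = id`, `snd ∘ inl = 0`, so `map inl d = 0`, so `d = map snd y`
by `exact`; `fst ∘ inr = 0`, `snd ∘ inr = id` give `map inr d = 0`, and `map inr (map snd y) = y`,
so `y = 0`, `d = 0`. Now `k : A × A → B`, `k (a, b) = f a + g b` is a *-homomorphism, `k ∘ inl = f`,
`k ∘ inr = g`, `k ∘ diag = f + g`, and `map (f+g) x = map diag (map k x) =
map diag (map fst (map f x) + map snd (map g x)) = map f x + map g x`.
General case: induction over finsets `s ⊆ J` for the *-homomorphisms `a ↦ ∑ j ∈ s, f j a`. -/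
def S_TADD : Prop := ∀ (T : Theory) (i : ZMod 2) (A B : Type) [NonUnitalCStarAlgebra A]
  [NonUnitalCStarAlgebra B] [SeparableSpace A] [SeparableSpace B] (J : Type) [Fintype J]
  (f : J → (A →⋆ₙₐ[ℂ] B)) (h : A →⋆ₙₐ[ℂ] B), (∀ j k, j ≠ k → ∀ a b, f j a * f k b = 0) →
  (∀ a, h a = ∑ j, f j a) → ∀ x, T.map i h x = ∑ j, T.map i (f j) x

/-- TCOR. All corner embeddings into a matrix algebra induce the same map.
Proof. `j ≠ k`. For `t ∈ [0,1]` let `c = cos (π t / 2)`, `s = sin (π t / 2)` and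
`H t a = c² e_jj(a) + c s e_jk(a) + c s e_kj(a) + s² e_kk(a)`. It is a *-homomorphism (the real matrix
`[[c², cs], [cs, s²]]` is a projection; expand with `mul`, `mul0`, `star`), continuous in `t` for
fixed `a` (a finite sum of continuous functions times fixed elements), `H 0 = h`, `H 1 = h'`. Use
`homotopy` (`DFunLike.ext` for `H 0 = h`). -/
def S_TCOR : Prop := ∀ (T : Theory) (i : ZMod 2) (A M : Type) [NonUnitalCStarAlgebra A]
  [NonUnitalCStarAlgebra M] [SeparableSpace A] [SeparableSpace M] (ι : Type) [Fintype ι]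
  (e : ι → ι → A →ₗ[ℂ] M), MUnits e → ∀ (j k : ι) (h h' : A →⋆ₙₐ[ℂ] M),
  (∀ a, h a = e j j a) → (∀ a, h' a = e k k a) → T.map i h = T.map i h'

/-- TUN. The inclusion into the unitization induces isomorphisms.
Proof. The extension `inr : X → X~`, `fst : X~ → ℂ` and `point`: the kernel of
`F_i(X~) → F_i(X)` is the image of `F_i(ℂ) = 0`; surjective because the boundary map of `exact` takes values
in `F_{i+1}(ℂ) = 0`. -/
def S_TUN : Prop := ∀ (T : Theory) (i : ZMod 2) (X : Type) [NonUnitalCStarAlgebra X]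
  [SeparableSpace X], Function.Bijective (T.map i (inrH X))

/-- TSZ. Suspension (over the unit interval).
Proof. Let `Cone = {f ∈ C([0,1], A) : f 1 = 0}` (a closed *-subalgebra), `q = ev_0 : Cone → A`, surjective
(`t ↦ (1 - t) • a`), with kernel the image of the inclusion `Sus A → Cone`. `Cone` is contractible: `H s f = (t ↦ f (max s t))` is
a homotopy from the identity to `0` (`f 1 = 0`), continuous in `s`: `(s, t) ↦ f (max s t)` is continuous on the
square, use `ContinuousMap.curry`. So `x = map id x = map 0 x = 0` for `x ∈ F_i(Cone)` (TZ (1)).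
With the exact sequences for `i` and for `i + 1` (`i + 1 + 1 = i` in `ZMod 2`): if `T.Zero A` and
`x ∈ F_i(Sus A)` then `d x = 0`, so `x` comes from `F_i(Cone) = 0`. If `T.Zero (Sus A)` and `x ∈ F_{i+1}(A)`,
then `map q x = 0`, so `x = d y`, `y = 0`. -/
def S_TSZ : Prop := ∀ (T : Theory) (A : Type) [NonUnitalCStarAlgebra A] [SeparableSpace A],
  T.Zero (Sus A) ↔ T.Zero A

/-- EMB. `C₀(ℝ, E)` embeds in `C([0,1], E)` with range the functions that vanish at `0` and `1`.
Proof. `g t = (2 t - 1) / (t (1 - t))` is a homeomorphism `(0,1) → ℝ` with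
`g t → ∓∞` for `t → 0, 1` (inverse: `s ↦ (s - 2 + √(s² + 4)) / (2 s)` for `s ≠ 0`, `1/2` for `s = 0`;
any other homeomorphism will do, e.g. via `tan`: `g t = tan (π (t - 1/2))`, inverse `s ↦ arctan s / π + 1/2`, with
`Real.tan_arctan`, `Real.arctan_tan`, `Real.continuousOn_tan_Ioo`; recommended). `u f t = f (g t)` for `0 < t < 1` and
`0` for `t ∈ {0, 1}`; continuity at the end points: `f` vanishes at infinity, `|tan| → ∞`
(`Real.tendsto_abs_tan_atTop` or `Real.tendsto_tan_pi_div_two`). `u` is a *-homomorphism, injective. Range: given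
`F ∈ C([0,1], E)` with `F 0 = F 1 = 0` put `f s = F (arctan s / π + 1/2)`; it vanishes at infinity because
`arctan → ± π/2` at `± ∞` and `F` is continuous (cocompact of `ℝ` = `atBot ⊔ atTop`). -/
def S_EMB : Prop := ∀ (E : Type) [NonUnitalCStarAlgebra E],
  ∃ u : C₀(ℝ, E) →⋆ₙₐ[ℂ] C(unitInterval, E), Function.Injective u ∧
    ∀ f : C(unitInterval, E), f ∈ Set.range u ↔ f 0 = 0 ∧ f 1 = 0

/-- TC0R. Suspension over `ℝ`.
Proof. By EMB there are mutually inverse *-homomorphisms between `C₀(ℝ, E)` and `Sus E` (a bijective *-homomorphism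
`C₀(ℝ, E) → Sus E`, its inverse is a *-homomorphism, `StarAlgEquiv`-style), both algebras are separable (`sep_of_inj`), so
`map_comp`, `map_id` give isomorphisms `F_i(Sus E) ≅ F_i(C₀(ℝ, E))`. Apply TSZ. -/
def S_TC0R : Prop := ∀ (T : Theory) (E : Type) [NonUnitalCStarAlgebra E] [SeparableSpace E],
  T.Zero C₀(ℝ, E) ↔ T.Zero E

/-- TNULL. The homomorphism `f ↦ diag(flip f, f)` is null-homotopic.
Proof. `dX x y = diag(x, y)` in `M_2` of the unitization of `X = C₀(ℝ, E)`. More generally, for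
`m = (m_00, m_01, m_10, m_11)` elements of `X` let `Mx m` be the matrix with these entries; it is additive and
`‖Mx m‖ ≤ ∑ ‖m_ij‖` (`Mt.norm_le_sum`).
First homotopy (rotation), `a = π t / 2`, `t ∈ [0,1]`: `h₁ t f` has the entries, as functions of `r ∈ ℝ`,
`[[c² x + s² y, c s (x - y)], [c s (x - y), s² x + c² y]]` with `x = f(-r)`, `y = f(r)`, `c = cos a`, `s = sin a` for `r ≥ 0`,
and `[[x, 0], [0, y]]` for `r ≤ 0`. (At `r = 0`, `x = y` and the two definitions agree: the entries are continuous, and vanish at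
infinity. E.g. the `(0,0)` entry is `x + s² (y - x)` restricted: `x + s² • k`, where `k r = y - x` for `r ≥ 0`, `0` for `r ≤ 0`, i.e.
`k ∈ C₀(ℝ, E)`; the four entries are `x + s² k`, `- c s k`, `- c s k`, `y - s² k`.) Pointwise it is
`R diag(x, y) R*` with a real rotation matrix, or directly: multiplicativity follows from
`c² + s² = 1`. So `h₁ t` is a *-homomorphism, and `t ↦ h₁ t f` is continuous because `f ↦ k` is fixed and only the scalars
`s²`, `c s` depend on `t`. `h₁ 0 f = dX (flip f) f`. `h₁ 1 f = dX (x + k) (y - k)`, `(x + k)(r) = f(|r|)`, `(y - k)(r) = f(-|r|)`.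
Second homotopy (shift): for `t < 1`, `u = t / (1 - t)`: `h₂ t f = dX (r ↦ f(|r| + u)) (r ↦ f(-|r| - u))`; `h₂ 1 f = 0`.
Continuity in `t < 1`: `f` is uniformly continuous; at `t = 1`: `sup_r ‖f(±(|r| + u))‖ ≤ sup_{|s| ≥ u} ‖f s‖ → 0`
(`dX` is additive with `‖dX x y‖ ≤ ‖x‖ + ‖y‖`). `h₂ 0 = h₁ 1`. -/
def S_TNULL : Prop := ∀ (E : Type) [NonUnitalCStarAlgebra E],
  ∃ h₁ h₂ : unitInterval → (C₀(ℝ, E) →⋆ₙₐ[ℂ] Mt (Fin 2) (Unitization ℂ C₀(ℝ, E))),
    (∀ f, Continuous fun t => h₁ t f) ∧ (∀ f, Continuous fun t => h₂ t f) ∧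
    (∀ f, h₁ 0 f = dX (flip E f) f) ∧ (∀ f, h₁ 1 f = h₂ 0 f) ∧ ∀ f, h₂ 1 f = 0

/-- TNEG. The flip acts as `-1`, on `C₀(ℝ, E)` and on its unitization.
Proof (uses EMB for separability of `X = C₀(ℝ, E)`, TZ, TADD, TCOR, TUN, TNULL). Let `M = Mt (Fin 2) X~`, with matrix units
`e i j b = Mt.single i j b` over `B = X~` (`MUnits`), corners `c j b = Mt.single j j b`; `c₀* = c₁* =: c*` by TCOR, bijective by
`stable`. The homomorphism `h f = dX (flip f) f` is the orthogonal sum of `c₀ ∘ inr ∘ flip` and `c₁ ∘ inr`, so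
`map h z = map flip (map inr (c* z)) + map inr (c* z)` (TADD for `J = Fin 2` or `Bool`, `map_comp`); by TNULL,
`homotopy` twice and TZ it is `0`. As `z ↦ map inr (c* z)` is onto `F_i(X)` (TUN), `map flip x = -x` for all `x`.
For `g` on `X~` with `g b = starMap (flip E) b`: `g ∘ inr = inr ∘ flip`, so
`map inr (map g x) = map flip (map inr x) = - map inr x = map inr (-x)` and `map inr` is injective. -/
def S_TNEG : Prop := ∀ (T : Theory) (i : ZMod 2) (E : Type) [NonUnitalCStarAlgebra E]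
  [SeparableSpace E],
  (∀ x : T.F i C₀(ℝ, E), T.map i (flip E) x = -x) ∧
  ∀ g : Unitization ℂ C₀(ℝ, E) →⋆ₙₐ[ℂ] Unitization ℂ C₀(ℝ, E),
    (∀ b, g b = Unitization.starMap (flip E) b) →
    ∀ x : T.F i (Unitization ℂ C₀(ℝ, E)), T.map i g x = -x

/-- TKER. The kernel of `ρ : E → Y` is a `c_0`-sum of matrix algebras, so all theories vanish on it.
Proof (uses TZ). `Z` is separable (`sep_of_inj`). By `IsE.ex`, for `k` and `a ∈ M_{J k}(ℂ)` there is a unique element `[k; a]` of
`E` with `x k [k; a] = a`, `x l [k; a] = 0` for `l ≠ k` and `ρ [k; a] = 0` (uniqueness: `norm_le` with `c = 0`), it is in the range of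
`ι`. For `k : ℕ` let `Z_k ⊆ Z` be the *-subalgebra of the `z` with `x l (ι z) = 0` for `l ≥ k` (closed). For `z ∈ Z` the elements of `Z_k` with
the same entries `x l`, `l < k`, converge to `z` (`‖x l (ι z)‖ → 0` by `lim`, `ρ (ι z) = 0`; `norm_le`), so the union of the `Z_k` is dense.
`T.Zero (Z_k)` by induction: `Z_0 = 0` (`norm_le`, `lim`...: all `x l` and `ρ` vanish). Extension `Z_k → Z_{k+1} → M`, where
`M ⊆ Z_{k+1}` is the closed *-subalgebra of the `[k; a]` and the map `Z_{k+1} → M` is `z ↦ [k; x k (ι z)]` (surjective, kernel `Z_k`);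
`M` has matrix units `e p q c = [k; c e_pq]` over `ℂ` (`MUnits` with `ι = J k`), so `T.Zero M` by TZ (3); `exact`: an element of
`F_i(Z_{k+1})` restricts to `0` in `F_i(Z_k)`, so it comes from `F_i(M) = 0`. Milnor: for `y ∈ F_i(Z)` all restrictions to the `Z_k`
vanish, so `y = d z` with `z ∈ ∏ F_{i+1}(Z_k) = 0`. (Instead of subalgebras of `Z` one may use the closed *-subalgebras of `E`
`{e : ρ e = 0 and x l e = 0 for l ≥ k}`; the maps to `Z` are the corestrictions through the injective `ι`.) -/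
def S_TKER : Prop := ∀ (T : Theory) (Y : Type) [NonUnitalCStarAlgebra Y]
  (S : Helper61.CAR.QSeq Y) (E : Type) [NonUnitalCStarAlgebra E] [SeparableSpace E]
  (x : ∀ n, E →⋆ₙₐ[ℂ] CStarMatrix (S.J n) (S.J n) ℂ) (ρ : E →⋆ₙₐ[ℂ] Y),
  Helper61.CAR.IsE S E x ρ → ∀ (Z : Type) [NonUnitalCStarAlgebra Z] (ι : Z →⋆ₙₐ[ℂ] E),
  Function.Injective ι → (∀ e, ρ e = 0 ↔ e ∈ Set.range ι) → T.Zero Z

/-! ## Graded matrix algebras -/

/-- TGR. The groups of `Gd B w = {a ∈ M_I(B) : a x y = 0 unless w x = w y}`: the corners identify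
`F_i(Gd B w)` with the functions on the values of `w`.
Proof (uses TZ, TADD, TCOR). For `γ` in the (finite) range of `w` let `z γ = ∑_{w x = γ} e_xx(1)`: central projections of `G = Gd B w` with
sum `1`. `G γ = {a ∈ G : a x y = 0 unless w x = w y = γ}` is a closed *-subalgebra with matrix units
`e x y b = Mt.single x y b`, `x, y ∈ {x // w x = γ}` over `B` (`MUnits`). Homomorphisms `s γ : G γ → G` (inclusion), `r γ : G → G γ`,
`a ↦ z γ * a` (entries outside the block replaced by `0`). `s γ ∘ r γ` are pairwise orthogonal with sum the identity, so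
`y = ∑_γ map (r γ) (map (s γ) y)` (TADD with `J` = the range of `w`, `map_comp`, `map_id`).
`cd B w x = s (w x) ∘ c x` with `c x : B → G (w x)` the corner; `r γ ∘ cd x = 0` for `γ ≠ w x` and `= c x` for `γ = w x`.
(1) TCOR in `G (w x)`. (3) If all `map (cd x) y = 0` then `map (c x) (map (s γ) y) = 0`, `w x = γ`, and `map (c x)` is injective
(`stable`), so `map (s γ) y = 0` for all `γ`, `y = 0`. (2) For `γ` in the range choose `x` and, by `stable`, `y γ ∈ F_i(G γ)` with
`map (c x) (y γ) = g γ` (then for all `x` in the block by TCOR); `y = ∑ map (r γ) (y γ)`: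
`map (cd x) y = ∑_γ map (r γ ∘ cd x) (y γ) = map (c x) (y (w x)) = g (w x)` (TZ for the zero maps). -/
def S_TGR : Prop := ∀ (T : Theory) (i : ZMod 2) (B : Type) [CStarAlgebra B] [SeparableSpace B]
  (I Γ : Type) [Fintype I] [DecidableEq I] (w : I → Γ),
  (∀ x y, w x = w y → T.map i (cd B w x) = T.map i (cd B w y)) ∧
  (∀ g : Γ → T.F i B, ∃ y : T.F i (Gd B w), ∀ x, T.map i (cd B w x) y = g (w x)) ∧
  (∀ y : T.F i (Gd B w), (∀ x, T.map i (cd B w x) y = 0) → y = 0)

/-- TKD. The connecting maps of the graded parts.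
Proof (uses TZ, TADD). `kd ∘ cd x` is the sum of three orthogonal *-homomorphisms `B → Gd (k+1)`: `b ↦ e(θ b)` at
`(x, c0)`, i.e. `cd ((e k).symm (x, c0)) ∘ θ`; `cd ((e k).symm (x, c1))`; and the rest `ρ b`, with entries `K k b c d` at
`((x, c), (x, d))`, `c, d ∉ {c0, c1}`, which are scalars (clauses of `s.step k : StepAt ..`). The rest factors through a matrix algebra over `ℂ`:
`B` unital; if `B` is trivial everything is `0`. Let `C' = {c // c ≠ c0 ∧ c ≠ c1}`, `M = Mt C' ℂ`; `b ↦` (the scalars of `K k b c d`) is a *-homomorphism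
`B → M` (the entries outside vanish in rows and columns of `C'`, `algebraMap ℂ B` is injective), and
`M → Gd (k+1)`, `a ↦` entries `algebraMap (a c d)` at `((x, c), (x, d))` is a *-homomorphism (same weight for all `c ≠ c0`). `T.Zero M` by TZ (3) with
the units `Mt.single`. So `map (cd x) (map kd y) = map θ (map (cd (x, c0)) y) + map (cd (x, c1)) y + 0` and `map θ = -1` by hypothesis. -/
def S_TKD : Prop := ∀ (T : Theory) (i : ZMod 2) (B : Type) [CStarAlgebra B] [SeparableSpace B]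
  (θ : B →⋆ₐ[ℂ] B) (s : Sys B θ),
  (∀ g : B →⋆ₙₐ[ℂ] B, (∀ b, g b = θ b) → ∀ x : T.F i B, T.map i g x = -x) →
  ∀ (n k : ℕ) (y : T.F i (Gd B (wz s n (k + 1)))) (x : s.S k),
    T.map i (cd B (wz s n k) x) (T.map i (kd s n k) y) =
      T.map i (cd B (wz s n (k + 1)) ((s.e k).symm (x, s.c1 k))) y -
      T.map i (cd B (wz s n (k + 1)) ((s.e k).symm (x, s.c0 k))) y

/-- TWS. All weights `0, .., i` occur at stage `i`; weights of the two distinguished slots.
Proof. Induction on `i`: `wt (i+1) ((e i).symm (x, c0)) = wt i x + 1`, `wt (i+1) ((e i).symm (x, c1)) = wt i x`. -/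
def S_TWS : Prop := ∀ (B : Type) [CStarAlgebra B] (θ : B →⋆ₐ[ℂ] B) (s : Sys B θ) (i : ℕ),
  (∀ j ≤ i, ∃ x, s.wt i x = j) ∧
  (∀ x, s.wt (i + 1) ((s.e i).symm (x, s.c0 i)) = s.wt i x + 1) ∧
  (∀ x, s.wt (i + 1) ((s.e i).symm (x, s.c1 i)) = s.wt i x)

/-! ## Fixed point algebras -/

/-- The limit data: `L` is the limit of the system `s` with the maps `ι`. -/
structure IsLim {B : Type} [CStarAlgebra B] {θ : B →⋆ₐ[ℂ] B} (s : Sys B θ) (L : Type)
    [CStarAlgebra L] (ι : ∀ i, s.A i →⋆ₐ[ℂ] L) : Prop where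
  comp : ∀ i a, ι (i + 1) (s.κ i a) = ι i a
  inj : ∀ i, Function.Injective (ι i)
  dense : Dense (⋃ i, Set.range (ι i))

/-- The fixed point algebra of `Z` is the closure of the union of the parts of degree `0` modulo
`n` of the stages. -/
def FixD {B : Type} [CStarAlgebra B] {θ : B →⋆ₐ[ℂ] B} (s : Sys B θ) {L : Type}
    [CStarAlgebra L] (ι : ∀ i, s.A i →⋆ₐ[ℂ] L) (γ : CircleAction L) (Z : Set Circle) (n : ℕ) :
    Prop :=
  (∀ i, ∀ a ∈ grd B (wz s n i), ι i a ∈ fixA γ Z) ∧
  ∀ b ∈ fixA γ Z, ∀ ε > (0 : ℝ), ∃ i, ∃ a ∈ grd B (wz s n i), ‖b - ι i a‖ < ε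

/-- TFIX. Fixed points of one element `z` of the circle, of finite or infinite order, `n = orderOf z` (`0` if infinite).
Proof. `z^p star(z^q) = z^(p-q)` (as `|z| = 1`), and it is `1` iff `n ∣ p - q` iff `(p : ZMod n) = (q : ZMod n)`
(`orderOf_dvd_iff_zpow_eq_one`, `ZMod.intCast_zmod_eq_zero_iff..`; also for `n = 0`). So `ι i a` is fixed if
`a ∈ grd (wz s n i)`. Conversely let `b` be fixed by `z` (hence by all `z^k`), `‖b - ι i a‖ < ε/2`. Let `E_N a` be the matrix with entries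
`((1/N) ∑_{k<N} z^(k (p-q))) a x y`, `p = wt x`, `q = wt y`: `ι i (E_N a) = (1/N) ∑ γ_{z^k} (ι i a)` by `IsWeightAction` for `z^k`, so
`‖b - ι i (E_N a)‖ ≤ (1/N) ∑ ‖γ_{z^k}(b - ι i a)‖ ≤ ‖b - ι i a‖ < ε/2` (*-homomorphisms are contractive). As `N → ∞` the scalars converge to `1`
if `z^(p-q) = 1` and to `0` otherwise (geometric sum, `|∑_{k<N} u^k| ≤ 2 / |1 - u|` for `|u| = 1`, `u ≠ 1`), so `E_N a` converges (finitely many entries,
`Mt.norm_le_sum`) to the element `a'` of `grd (wz s n i)` obtained from `a` by deleting the other entries; `‖b - ι i a'‖ ≤ ε/2 < ε`. -/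
def S_TFIX : Prop := ∀ (B : Type) [CStarAlgebra B] (θ : B →⋆ₐ[ℂ] B) (s : Sys B θ) (L : Type)
  [CStarAlgebra L] (ι : ∀ i, s.A i →⋆ₐ[ℂ] L), IsLim s L ι → ∀ γ : CircleAction L,
  IsWeightAction s ι γ → ∀ z : Circle, FixD s ι γ {z} (orderOf z)

/-- TFIXU. Fixed points of the whole circle. Proof. `ι i a` is fixed for `a` of degree `0` (integer weights) by `IsWeightAction`
(`z^p star(z^p) = 1`). A fixed point of the circle is fixed by an element of infinite order (e.g. `Circle.exp 1`; `exp(i n) = 1` only for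
`n = 0` because `π` is irrational, or by countability of the elements of finite order), so TFIX gives the second part; `orderOf = 0`. -/
def S_TFIXU : Prop := ∀ (B : Type) [CStarAlgebra B] (θ : B →⋆ₐ[ℂ] B) (s : Sys B θ) (L : Type)
  [CStarAlgebra L] (ι : ∀ i, s.A i →⋆ₐ[ℂ] L), IsLim s L ι → ∀ γ : CircleAction L,
  IsWeightAction s ι γ → FixD s ι γ Set.univ 0

/-- TTOW. The graded parts form an increasing sequence with dense union in the fixed point algebra.
Proof. `u i a = ⟨ι i a, _⟩`; injective, compatible by `IsLim`, dense by the second part of `FixD`. -/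
def S_TTOW : Prop := ∀ (B : Type) [CStarAlgebra B] (θ : B →⋆ₐ[ℂ] B) (s : Sys B θ) (L : Type)
  [CStarAlgebra L] (ι : ∀ i, s.A i →⋆ₐ[ℂ] L), IsLim s L ι → ∀ (γ : CircleAction L)
  (Z : Set Circle) (n : ℕ), FixD s ι γ Z n →
  ∃ u : ∀ i, Gd B (wz s n i) →⋆ₙₐ[ℂ] Fix γ Z, (∀ i a, ((u i a : Fix γ Z) : L) = ι i a.1) ∧
    (∀ i, Function.Injective (u i)) ∧ (∀ i a, u (i + 1) (kd s n i a) = u i a) ∧
    Dense (⋃ i, Set.range (u i))

/-- TBACK. `F(B) = 0` implies `F(fixed point algebra) = 0`.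
Proof (uses TGR, TTOW). `F_*(Gd B (wz s n k)) = 0` by TGR (3). Milnor: for `y ∈ F_i(Fix)` all restrictions vanish, so `y = d z`, `z = 0`.
(`Fix γ Z` is separable: subalgebra of the separable `L`.) -/
def S_TBACK : Prop := ∀ (T : Theory) (B : Type) [CStarAlgebra B] [SeparableSpace B]
  (θ : B →⋆ₐ[ℂ] B) (s : Sys B θ) (L : Type) [CStarAlgebra L] [SeparableSpace L]
  (ι : ∀ i, s.A i →⋆ₐ[ℂ] L), IsLim s L ι → ∀ (γ : CircleAction L) (Z : Set Circle) (n : ℕ),
  FixD s ι γ Z n → T.Zero B → T.Zero (Fix γ Z)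

/-- TFWD. `F(fixed point algebra) = 0` implies `lim = lim¹ = 0` for `(F_i(B)^(ℤ/n), 1 - shift)`, `n ≥ 1`.
Proof (uses TGR, TKD, TWS, TTOW). Write `G k = Gd B (wz s n (k + n))`, `j k = kd s n (k + n)`, `u k` as in TTOW (shifted by `n`: the ranges increase, so the
union is still dense); all residues mod `n` are weights at stage `k + n` (TWS). By TGR the group `F_i(G k)` is identified with
`ZMod n → F_i(B)`: `y ↦ (w x ↦ map (cd x) y)`, and by TKD, TWS the map `map (j k)` becomes `y ↦ (j ↦ y j - y (j + 1))`.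
First part of `LL`: let `y k j` be coherent. `Y k ∈ F_i(G k)` with `map (cd x) (Y k) = y k (w x)` (TGR (2)); `map (j k) (Y (k+1)) = Y k` by TGR (3)
(compare all `map (cd x)`). By `milnor` there is `Y' ∈ F_i(Fix) = 0` with `map (u k) Y' = Y k`; so `Y k = 0`, `y k j = 0`.
Second part: given `z k j`, let `Z' k ∈ F_i(G k)` have the components `z k`; use `milnor` with the index `i + 1` (so that `i + 1 + 1 = i`; transport along
this equality in `ZMod 2`, or case split `i = 0, 1`, where it is definitional by `decide`/`rfl`): `d Z' ∈ F_{i+1}(Fix) = 0`, so `Z' k = t k - map (j k) (t (k+1))`; take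
components of `t k` (for each residue choose an `x`). -/
def S_TFWD : Prop := ∀ (T : Theory) (B : Type) [CStarAlgebra B] [SeparableSpace B]
  (θ : B →⋆ₐ[ℂ] B) (s : Sys B θ) (L : Type) [CStarAlgebra L] [SeparableSpace L]
  (ι : ∀ i, s.A i →⋆ₐ[ℂ] L), IsLim s L ι → ∀ (γ : CircleAction L) (Z : Set Circle) (n : ℕ),
  1 ≤ n → FixD s ι γ Z n →
  (∀ (i : ZMod 2) (g : B →⋆ₙₐ[ℂ] B), (∀ b, g b = θ b) → ∀ x : T.F i B, T.map i g x = -x) →
  T.Zero (Fix γ Z) → ∀ i : ZMod 2, LL n (T.F i B)

/-! ## Algebra of the inverse systems `(G^(ℤ/n), 1 - shift)` -/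

/-- ALG6. If `n > 1` is not a prime power then `lim = 0` forces `G = 0`.
Proof. `Φ_n(1) = 1` (`Polynomial.eval_one_cyclotomic_not_prime_pow`), so `Φ_n = 1 - (1 - X) U` with `U ∈ ℤ[X]`. Let
`N = ∏_{d ∣ n, d ≠ n} Φ_d`, monic of degree `n - φ(n) < n`, `Φ_n N = X^n - 1` (`Polynomial.prod_cyclotomic_eq_X_pow_sub_one`). `ℤ[X]` acts on
`M = (ZMod n → G)` (an abelian group) with `X` acting as the shift `(X y) j = y (j + 1)` (`Polynomial.aeval` of the shift in `AddMonoid.End M` or
`Module.End ℤ M`); `X^n - 1` acts as `0`. Let `g : G` and `δ ∈ M` be `g` at `0` and `0` elsewhere. `y k = U^k N δ`: then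
`(1 - X) y (k+1) = (1 - X) U N U^k δ = (1 - Φ_n) N U^k δ = y k` as `Φ_n N = X^n - 1` acts as `0`. So `y 0 = N δ = 0` by the first half of `LL`. The value of
`N δ` at `j = - deg N`: `(X^a δ)(j) = δ(j + a)` is `g` iff `a = deg N mod n`, `0 ≤ a ≤ deg N < n`, so only the leading term contributes: `g = 0`. -/
def S_ALG6 : Prop := ∀ (n : ℕ), n ≠ 0 → n ≠ 1 → ¬ IsPrimePow n → ∀ (G : Type) [AddCommGroup G],
  LL n G → ∀ g : G, g = 0

/-- ALGM. If `n ≥ 2` and `lim = lim¹ = 0` for `n`, then every `m` prime to `n` acts bijectively on `G`.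
Proof. `M = (ZMod n → G)`, `(X y) j = y (j + 1)`, `T = 1 - X`, `M1 = {y : ∑ y j = 0}`. (a) `M1 = T M`: for `y ∈ M1` let
`m j = - ∑_{l < j.val} y l`; then `m j - m (j+1) = y j` (at `j.val = n - 1` because the total sum is `0`).
(b) for `z k ∈ M1` there are `t k ∈ M1` with `z k = t k - T t (k+1)`: `z k = T (m k)`, `m k = t' k - T t' (k+1)` (`LL`), `t k = T (t' k)`; and the solution `t` is unique
(first half of `LL` for the difference; `LL` is applied to all of `M`). (c) on `M1`, `n y = T (H y)`, `H y = ∑_{k=1}^{n-1} ∑_{l<k} X^l y`: `T ∑_{l<k} X^l y = y - X^k y` and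
`∑_{k<n} X^k y = 0` on `M1` (it is the constant `∑ y`). Integers `a`, `b` with `a m = 1 + b n`. So `a m y = y + b T H y` on `M1`.
Surjectivity of `m` on `M1`: for `y ∈ M1` let `z k = (-b H)^k y`, `u` the solution of `z k = u k - T u (k+1)` in `M1`; both `k ↦ u (k+1)` and `k ↦ -b H (u k)` solve the
system for `k ↦ z (k+1)`, so `u 1 = -b H (u 0)` and `y = u 0 - T (u 1) = u 0 + b T H (u 0) = a m u 0 = m (a u 0)`. Injectivity: `m y = 0` gives `y = - b T H y = -b H T y`
(`H`, `T` commute), so `y' k = (-b H)^k y` satisfies `y' k - T y' (k+1) = 0`, so `y' = 0` by the first half, `y = 0`.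
From `M1` to `G`: for `g` let `y = (g at 0, -g at 1)` (`n ≥ 2`): surjective: `y = m y'`, `g = m (y' 0)`; injective: `m g = 0` gives `m y = 0`. -/
def S_ALGM : Prop := ∀ (n : ℕ), 2 ≤ n → ∀ (G : Type) [AddCommGroup G], LL n G →
  ∀ m : ℕ, n.Coprime m → Function.Bijective fun g : G => m • g

/-- ALGN. If `n ≥ 2`, `lim = 0` for `n` and `n` acts bijectively on `G`, then `G = 0`.
Proof. Notation of ALGM. For `y ∈ M1`: `y = n y'` with `y' j = (y j)/n`, `y' ∈ M1` (injectivity of `n`), so `y = T (H y')` with `H y' ∈ M1`: `T : M1 → M1` is onto. Starting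
with `y` choose `y k ∈ M1`, `y 0 = y`, `T (y (k+1)) = y k`; the first half of `LL` gives `y = 0`. So `M1 = 0` and `G = 0` (`(g, -g, 0, ..) ∈ M1`). -/
def S_ALGN : Prop := ∀ (n : ℕ), 2 ≤ n → ∀ (G : Type) [AddCommGroup G], LL n G →
  (Function.Bijective fun g : G => n • g) → ∀ g : G, g = 0

/-! ## From `D` to the unitization of `C₀(ℝ, E)` -/

/-- TDB. Proof. `Y = C₀(ℝ, D)` has (Q) (`S_Q`), is separable (EMB, `sep_of_inj`); `S_QSEQ`, `S_ESTR`, `S_ESEP`, `S_EN` give `E`, `x`, `ρ` with `PN E`. `ρ` is surjective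
(`ex` with `z n = Φ n f`). `Z = {e : ρ e = 0}` (closed *-subalgebra). TKER: `T.Zero Z`. The extension `Z → E → Y` and `exact` for both `i`:
`T.Zero E ↔ T.Zero Y` (`F_i(Y) → F_i(E) → F_i(Z) = 0` and `F_i(Z) = 0 → F_{i+1}(Y) → F_{i+1}(E)`: so `F_i(Y) → F_i(E)` is bijective). TC0R for
`D` and `E`; TUN for `X = C₀(ℝ, E)`: `F_i(X~) ≅ F_i(X)`. -/
def S_TDB : Prop := ∀ (D : Type) [NonUnitalCStarAlgebra D] [SeparableSpace D], Nuclear D →
  ∃ (E : Type) (_ : NonUnitalCStarAlgebra E), SeparableSpace E ∧ PN E ∧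
    ∀ T : Theory, T.Zero (Unitization ℂ C₀(ℝ, E)) ↔ T.Zero D

end

end Pool.Agent.Helper39.CR
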