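import Pool.Agent.Helper39.CR.Final
import Pool.Agent.Helper39.CR.SIMA
import Pool.Agent.Helper13.CR.SIMP
import Pool.Agent.Helper20.CR.PFB
import Pool.Agent.Helper35.CR.CHN
import Pool.Agent.Helper35.CR.TLL
import Pool.Agent.Helper91.CR.ALGP
import Pool.Agent.Helper86.CAR.CORE
import Pool.Agent.Helper12.CAR.CNT
import Pool.Agent.Helper49.CAR.INV
import Pool.Agent.Helper91.CAR.TAFZ
import Pool.Agent.Helper87.CAR.TAFE
import Pool.Agent.Helper39.CR.SYS2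
import Pool.Agent.Helper39.CR.OMG
import Pool.Agent.Helper34.CAR.Main
import Pool.Agent.Helper91.CR.TZ
import Pool.Agent.Helper91.CR.TTOW
import Pool.Agent.Helper91.CR.TWS
import Pool.Agent.Helper91.CR.SPRD
import Pool.Agent.Helper4.CR.TADD
import Pool.Agent.Helper28.CR.TCOR
import Pool.Agent.Helper31.CR.TUN
import Pool.Agent.Helper44.CAR.EMB
import Pool.Agent.Helper32.CR.TNULL
import Pool.Agent.Helper36.CR.TNEG
import Pool.Agent.Helper64.CR.TKER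
import Pool.Agent.Helper97.CR.TGR
import Pool.Agent.Helper99.CR.TKD
import Pool.Agent.Helper43.CR.TFIX
import Pool.Agent.Helper85.CR.TFIXU
import Pool.Agent.Helper5.CR.TBACK
import Pool.Agent.Helper44.CAR.TFWD
import Pool.Agent.Helper44.CAR.ALG
import Pool.Agent.Helper12.CR.ESS
import Pool.Agent.Helper44.CAR.IDL
import Pool.Agent.Helper44.CAR.CTR
import Pool.Agent.Helper44.CAR.TRM
import Pool.Agent.Helper44.CAR.TRU
import Pool.Agent.Helper64.CR.BIG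
import Pool.Agent.Helper87.CR.MONO
import Pool.Agent.Helper42.Uct.QT

/-!
Project CAR, stage 3: the proved parts.
-/

open scoped ComplexOrder ZeroAtInfty
open TopologicalSpace

namespace Pool.Agent.Helper39.CR

open Pool.Agent.Helper34.CAR Pool.Agent.Helper39.Uct Pool.Agent.Helper61.CAR

theorem p_TZ : S_TZ := Pool.Agent.Helper91.CR.tz
theorem p_TTOW : S_TTOW := Pool.Agent.Helper91.CR.ttow
theorem p_TWS : S_TWS := Pool.Agent.Helper91.CR.tws
theorem p_SPRD : S_SPRD := Pool.Agent.Helper91.CR.sprd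
theorem p_TADD : S_TADD := Pool.Agent.Helper4.CR.tadd p_TZ
theorem p_TCOR : S_TCOR := Pool.Agent.Helper28.CR.tcor
theorem p_TUN : S_TUN := Pool.Agent.Helper31.CR.tun
theorem p_EMB : S_EMB := Pool.Agent.Helper44.CAR.emb
theorem p_TNULL : S_TNULL := Pool.Agent.Helper32.CR.tnull
theorem p_TNEG : S_TNEG := Pool.Agent.Helper36.CR.tneg p_EMB p_TZ p_TADD p_TCOR p_TUN p_TNULL
theorem p_TKER : S_TKER := Pool.Agent.Helper64.CR.tker p_TZ
theorem p_TGR : S_TGR := Pool.Agent.Helper97.CR.tgr p_TZ p_TADD p_TCOR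
theorem p_TKD : S_TKD := Pool.Agent.Helper99.CR.tkd p_TZ p_TADD
theorem p_TFIX : S_TFIX := Pool.Agent.Helper43.CR.tfix
theorem p_TFIXU : S_TFIXU := Pool.Agent.Helper85.CR.tfixu p_TFIX
theorem p_TBACK : S_TBACK := Pool.Agent.Helper5.CR.tback p_TGR p_TTOW
theorem p_TFWD : S_TFWD := Pool.Agent.Helper44.CAR.tfwd p_TGR p_TKD p_TWS p_TTOW
theorem p_ALG6 : S_ALG6 := Pool.Agent.Helper44.CAR.alg6
theorem p_ALGM : S_ALGM := Pool.Agent.Helper44.CAR.algm
theorem p_ALGN : S_ALGN := Pool.Agent.Helper44.CAR.algn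
theorem p_SYS2 : S_SYS2 := Sys2.sys2 t_SYS1
theorem p_OMG : S_OMG := omg kinj
theorem p_SSTR : S_SSTR := sstr
theorem p_ESS : S_ESS := Pool.Agent.Helper12.CR.ess
theorem p_IDL : S_IDL := Pool.Agent.Helper44.CAR.idl_meets Pool.Agent.Helper42.Uct.stmtQT
theorem p_CTR : S_CTR := Pool.Agent.Helper44.CAR.ctr
theorem p_TRM : S_TRM := Pool.Agent.Helper44.CAR.trm p_TWS
theorem p_BIG : S_BIG := Pool.Agent.Helper64.CR.big p_OMG p_SSTR
theorem p_TDB2 : S_TDB2 := tdb2 s_Q (Pool.Agent.Helper44.CAR.qseq s_COL) estr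
  Pool.Agent.Helper99.CAR.esep Pool.Agent.Helper52.CAR.ez (Pool.Agent.Helper64.CAR.en s_COL s_BD)
  p_EMB p_TZ p_TUN p_TKER t_UNC

theorem p_SIMA : S_SIMA := sima p_OMG p_SSTR p_ESS
theorem p_SIMP : S_SIMP := Pool.Agent.Helper13.CR.t_simp p_TTOW p_IDL p_SIMA p_SPRD
theorem p_PFB : S_PFB := Pool.Agent.Helper20.CR.pfb
theorem p_TRU : S_TRU := Pool.Agent.Helper44.CAR.tru p_TRM p_PFB
theorem p_MONO : S_MONO := Pool.Agent.Helper87.CR.mono p_TTOW p_TRU p_BIG p_CTR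
theorem p_CHN : S_CHN := Pool.Agent.Helper35.CR.chn
theorem p_ALGP : S_ALGP := Pool.Agent.Helper91.CR.algp p_CHN
theorem p_TLL : S_TLL := Pool.Agent.Helper35.CR.tll p_TGR p_TKD p_TWS p_TTOW
theorem p_CORE : S_CORE := Pool.Agent.Helper86.CAR.s_core
theorem p_CNT : S_CNT := Pool.Agent.Helper12.CAR.cnt
theorem p_INV : Pool.Agent.Helper34.CAR.S_INV := Pool.Agent.Helper49.CAR.inv
theorem p_TAFZ : S_TAFZ := Pool.Agent.Helper91.CAR.tafz
theorem p_TAFE (hEPP : S_EPP) : S_TAFE :=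
  Pool.Agent.Helper87.CAR.tafe p_CORE p_CNT hEPP p_BIG p_ESS

theorem main6_core (hEPP : S_EPP) : S_MAIN6 :=
  main6 p_TDB2 s_NS t_HOM t_STEP' p_SYS2 kinj t_IL t_CARL t_ACT t_RET p_TFIX p_TFIXU p_EMB p_TNEG
    p_TBACK p_TFWD p_ALG6 p_ALGM p_ALGN p_SIMP p_MONO p_TAFZ (p_TAFE hEPP) p_TLL p_ALGP

end Pool.Agent.Helper39.CR
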