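import Pool.Agent.Helper60.CR.TSZ
import Pool.Agent.Helper30.CR.TC0R

/-!
Project CAR, stage 3: suspension isomorphisms (not only vanishing).
-/

open scoped ComplexOrder ZeroAtInfty
open TopologicalSpace

namespace Pool.Agent.Helper39.CR

open Pool.Agent.Helper34.CAR Pool.Agent.Helper60.CR

noncomputable section

/-- `F_i(SA) ≅ F_{i+1}(A)`. -/
theorem tsz2 (hTZ : S_TZ) (T : Theory) (i : ZMod 2) (A : Type) [NonUnitalCStarAlgebra A]
    [SeparableSpace A] : ∃ φ : T.F i (Sus A) →+ T.F (i + 1) A, Function.Bijective φ := by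
  have hc : T.Zero (Cone A) := cone_zero hTZ T
  have hi : Function.Injective (incl A) := by
    intro f g h
    have h1 : (incl A f).1 = (incl A g).1 := by rw [h]
    exact Subtype.ext h1
  have hk : ∀ a : Cone A, ev0 A a = 0 ↔ a ∈ Set.range (incl A) := by
    intro a
    constructor
    · intro h
      exact ⟨⟨a.1, h, a.2⟩, rfl⟩
    · rintro ⟨f, rfl⟩
      exact f.2.1
  obtain ⟨d, -, h2, h3⟩ := T.exact i (Sus A) (Cone A) A (incl A) (ev0 A) hi ev0_surjective hk
  refine ⟨d, ?_, ?_⟩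
  · rw [injective_iff_map_eq_zero]
    intro x hx
    obtain ⟨y, hy⟩ := (h2 x).1 hx
    rw [← hy, hc i y, map_zero]
  · intro x
    exact (h3 x).1 (hc (i + 1) _)

/-- Isomorphisms of algebras induce isomorphisms. -/
theorem bij_of_inv (T : Theory) (i : ZMod 2) {A B : Type} [NonUnitalCStarAlgebra A]
    [NonUnitalCStarAlgebra B] [SeparableSpace A] [SeparableSpace B] (f : A →⋆ₙₐ[ℂ] B)
    (g : B →⋆ₙₐ[ℂ] A) (h : ∀ b, f (g b) = b) (h' : ∀ a, g (f a) = a) :
    Function.Bijective (T.map i f) := by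
  have h1 : f.comp g = NonUnitalStarAlgHom.id ℂ B := by
    ext b
    exact h b
  have h1' : g.comp f = NonUnitalStarAlgHom.id ℂ A := by
    ext b
    exact h' b
  have h2 : ∀ x, T.map i g (T.map i f x) = x := by
    intro x
    rw [← T.map_comp i B A B g f x, h1, T.map_id]
  have h2' : ∀ x, T.map i f (T.map i g x) = x := by
    intro x
    rw [← T.map_comp i A B A f g x, h1', T.map_id]
  exact ⟨Function.LeftInverse.injective h2, Function.RightInverse.surjective h2'⟩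

/-- `F_i(C₀(ℝ, E)) ≅ F_{i+1}(E)`. -/
theorem tc0r2 (emb : S_EMB) (hTZ : S_TZ) (T : Theory) (i : ZMod 2) (E : Type)
    [NonUnitalCStarAlgebra E] [SeparableSpace E] [SeparableSpace C₀(ℝ, E)] :
    ∃ φ : T.F i C₀(ℝ, E) →+ T.F (i + 1) E, Function.Bijective φ := by
  obtain ⟨u, hu, hr⟩ := emb E
  let φ : C₀(ℝ, E) →⋆ₙₐ[ℂ] Sus E :=
    NonUnitalStarAlgHom.codRestrict u (susSub E) (fun f => (hr (u f)).1 ⟨f, rfl⟩)
  have hφ : Function.Bijective φ := by
    constructor
    · intro f g hfg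
      apply hu
      exact congrArg Subtype.val hfg
    · rintro ⟨f, hf⟩
      obtain ⟨g, hg⟩ := (hr f).2 hf
      exact ⟨g, Subtype.ext hg⟩
  let e := StarAlgEquiv.ofBijective φ hφ
  let ψ : Sus E →⋆ₙₐ[ℂ] C₀(ℝ, E) := (e.symm : Sus E →⋆ₙₐ[ℂ] C₀(ℝ, E))
  have h1 : ∀ b, φ (ψ b) = b := fun b => e.apply_symm_apply b
  have h2 : ∀ b, ψ (φ b) = b := fun b => e.symm_apply_apply b
  obtain ⟨d, hd⟩ := tsz2 hTZ T i E
  exact ⟨d.comp (T.map i ψ), hd.comp (bij_of_inv T i ψ φ h2 h1)⟩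

/-- The kernel with vanishing theory. -/
theorem bij_of_ext (T : Theory) (i : ZMod 2) {J A Q : Type} [NonUnitalCStarAlgebra J]
    [NonUnitalCStarAlgebra A] [NonUnitalCStarAlgebra Q] [SeparableSpace J] [SeparableSpace A]
    [SeparableSpace Q] (u : J →⋆ₙₐ[ℂ] A) (q : A →⋆ₙₐ[ℂ] Q) (hu : Function.Injective u)
    (hq : Function.Surjective q) (hk : ∀ a, q a = 0 ↔ a ∈ Set.range u) (hJ : T.Zero J) :
    Function.Bijective (T.map i q) := by
  constructor
  · have key : ∀ i : ZMod 2, ∀ x : T.F (i + 1) Q, T.map (i + 1) q x = 0 → x = 0 := by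
      intro i x hx
      obtain ⟨d, -, -, h3⟩ := T.exact i J A Q u q hu hq hk
      obtain ⟨y, hy⟩ := (h3 x).1 hx
      rw [← hy, hJ i y, map_zero]
    rw [injective_iff_map_eq_zero]
    have h := key (i - 1)
    rw [sub_add_cancel] at h
    exact h
  · intro x
    obtain ⟨d, h1, -, -⟩ := T.exact i J A Q u q hu hq hk
    exact (h1 x).1 (hJ i _)

end

end Pool.Agent.Helper39.CR
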