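import Pool.Agent.Helper39.CR.GoalsT

/-!
Project CAR (MP_d97caa_an), stage 3: assembly of `S_MAIN3` from the packets.
-/

open scoped ComplexOrder ZeroAtInfty
open TopologicalSpace

namespace Pool.Agent.Helper39.CR

open Pool.Agent.Helper34.CAR Pool.Agent.Helper39.Uct

noncomputable section

/-- The limit is separable. -/
theorem sep_lim {B : Type} [CStarAlgebra B] [SeparableSpace B] {θ : B →⋆ₐ[ℂ] B} (s : Sys B θ)
    (L : Type) [CStarAlgebra L] (ι : ∀ i, s.A i →⋆ₐ[ℂ] L) (h : IsLim s L ι) :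
    SeparableSpace L := by
  have h1 : ∀ i, IsSeparable (Set.range (ι i)) := fun i => by
    have hc : Continuous (ι i) := (AddMonoidHomClass.continuous_of_bound (ι i) 1 (fun x => by
      simpa using NonUnitalStarAlgHom.norm_apply_le (ι i) x))
    exact isSeparable_range hc
  have h2 : IsSeparable (⋃ i, Set.range (ι i)) := IsSeparable.iUnion h1
  have h3 : IsSeparable (Set.univ : Set L) := by
    have := h2.closure
    rwa [h.dense.closure_eq] at this
  exact isSeparable_univ_iff.1 h3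

/-- Retracts. -/
theorem zero_of_retract (T : Theory) {B H : Type} [NonUnitalCStarAlgebra B]
    [NonUnitalCStarAlgebra H] [SeparableSpace B] [SeparableSpace H] (j : B →⋆ₙₐ[ℂ] H)
    (p : H →⋆ₙₐ[ℂ] B) (hp : ∀ b, p (j b) = b) (h : T.Zero H) : T.Zero B := by
  intro i x
  have h1 : p.comp j = NonUnitalStarAlgHom.id ℂ B := by
    ext b
    exact hp b
  have h2 := T.map_comp i B H B j p x
  rw [h1, T.map_id] at h2
  rw [h2, h i (T.map i p x), map_zero]

/-- Assembly of stage 3. -/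
theorem main3 (hTDB : S_TDB) (hNS : Helper61.CAR.S_NS) (hHOM : S_HOM) (hSTEP : S_STEP)
    (hSYS : S_SYS) (hKINJ : S_KINJ) (hIL : S_IL) (hCARL : S_CARL) (hACT : S_ACT)
    (hRET : S_RET) (hTFIX : S_TFIX) (hTFIXU : S_TFIXU) (hEMB : S_EMB) (hTNEG : S_TNEG)
    (hBACK : S_TBACK) (hFWD : S_TFWD) (h6 : S_ALG6) (hM : S_ALGM) (hN : S_ALGN) :
    S_MAIN3 := by
  intro D _ _ hD
  obtain ⟨E, iE, sE, hPN, hTD⟩ := hTDB D hD
  -- the separable unital algebra B
  have sX : SeparableSpace C₀(ℝ, E) := by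
    obtain ⟨u, hu, -⟩ := hEMB E
    exact sep_of_inj u hu
  obtain ⟨s, hs⟩ := hSYS (Unitization ℂ C₀(ℝ, E)) (Unitization.starMap (flip E))
    (hSTEP C₀(ℝ, E) (flip E) (hNS E hPN) (hHOM E))
  have hk := hKINJ _ _ s
  obtain ⟨L, iL, ι, hι1, hι2, hι3⟩ := hIL s.A s.κ hk
  have hlim : IsLim s L ι := ⟨hι1, hι2, hι3⟩
  have hcar : IsCAR L := hCARL _ _ s hs L ι hι1 hι2 hι3
  obtain ⟨γ, hγ⟩ := hACT _ _ s L ι hι1 hι2 hι3
  have sL : SeparableSpace L := sep_lim s L ι hlim
  have hU : FixD s ι γ Set.univ 0 := hTFIXU _ _ s L ι hlim γ hγ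
  have hz : ∀ z : Circle, FixD s ι γ {z} (orderOf z) := hTFIX _ _ s L ι hlim γ hγ
  have hneg : ∀ (T : Theory) (i : ZMod 2)
      (g : Unitization ℂ C₀(ℝ, E) →⋆ₙₐ[ℂ] Unitization ℂ C₀(ℝ, E)),
      (∀ b, g b = Unitization.starMap (flip E) b) →
      ∀ x : T.F i (Unitization ℂ C₀(ℝ, E)), T.map i g x = -x :=
    fun T i g hg x => (hTNEG T i E).2 g hg x
  have hθ2 : ∀ b : Unitization ℂ C₀(ℝ, E),
      (Unitization.starMap (flip E) : Unitization ℂ C₀(ℝ, E) →⋆ₐ[ℂ] _)
        ((Unitization.starMap (flip E) : Unitization ℂ C₀(ℝ, E) →⋆ₐ[ℂ] _) b) = b := by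
    intro b
    induction b with
    | inl_add_inr r a =>
      rw [map_add, map_add]
      have e1 : (Unitization.starMap (flip E) : Unitization ℂ C₀(ℝ, E) →⋆ₐ[ℂ] _)
          (Unitization.inl r) = Unitization.inl r := by
        simp
        rfl
      have e2 : ∀ a : C₀(ℝ, E), (Unitization.starMap (flip E) :
          Unitization ℂ C₀(ℝ, E) →⋆ₐ[ℂ] _) (a : Unitization ℂ C₀(ℝ, E)) =
          ((flip E a : C₀(ℝ, E)) : Unitization ℂ C₀(ℝ, E)) := by
        intro a
        simp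
      rw [e1, e1, e2, e2]
      congr 2
      ext t
      rw [flip_apply, flip_apply, neg_neg]
  -- the block diagonal elements are the elements of degree 0 for integer weights
  have hbd : ∀ i a, s.BlockDiag i a ↔ a ∈ grd (Unitization ℂ C₀(ℝ, E)) (wz s 0 i) := by
    intro i a
    constructor
    · intro h x y hxy
      exact h x y (fun h' => hxy (by simp only [wz, h']))
    · intro h x y hxy
      refine h x y (fun h' => hxy ?_)
      have : ((s.wt i x : ℕ) : ℤ) = ((s.wt i y : ℕ) : ℤ) := h'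
      exact_mod_cast this
  have hfix0 : ∀ i a, s.BlockDiag i a → ι i a ∈ γ.fix := by
    intro i a ha z
    exact hU.1 i a ((hbd i a).1 ha) z (Set.mem_univ z)
  have hfixcl : γ.fix ⊆ closure {b | ∃ i a, s.BlockDiag i a ∧ b = ι i a} := by
    intro b hb
    rw [Metric.mem_closure_iff]
    intro ε hε
    obtain ⟨i, a, ha, hab⟩ := hU.2 b (fun z _ => hb z) ε hε
    exact ⟨ι i a, ⟨i, a, (hbd i a).2 ha, rfl⟩, by rw [dist_eq_norm]; exact hab⟩
  -- retraction
  have hret : ∀ (T : Theory) (Z : Set Circle), (fixA γ Z : Set L) = γ.fix → T.Zero (Fix γ Z) →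
      T.Zero (Unitization ℂ C₀(ℝ, E)) := by
    intro T Z hZ h0
    obtain ⟨i₀, p, hp⟩ := hRET _ _ hθ2 s L ι hι1 hι2 γ hfix0 hfixcl (Fix γ Z)
      (NonUnitalStarSubalgebraClass.subtype (fixA γ Z)) Subtype.val_injective (by
        rw [← hZ]
        exact Subtype.range_coe)
    exact zero_of_retract T i₀ p hp h0
  refine ⟨L, iL, γ, hcar, fun T => ⟨?_, ?_, ?_⟩⟩
  · rw [← hTD T]
    refine ⟨hret T _ ?_, hBACK T _ _ s L ι hlim γ _ 0 hU⟩
    ext b
    exact ⟨fun h z => h z (Set.mem_univ z), fun h z _ => h z⟩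
  · intro z hz1 hzp
    rw [← hTD T]
    refine ⟨fun h0 => ?_, hBACK T _ _ s L ι hlim γ _ _ (hz z)⟩
    by_cases hn : orderOf z = 0
    · refine hret T {z} ?_ h0
      ext b
      constructor
      · intro hb
        have hcl : b ∈ closure γ.fix := by
          rw [Metric.mem_closure_iff]
          intro ε hε
          obtain ⟨i, a, ha, hab⟩ := (hz z).2 b hb ε hε
          rw [hn] at ha
          exact ⟨ι i a, hfix0 i a ((hbd i a).2 ha), by rw [dist_eq_norm]; exact hab⟩
        have hclosed : IsClosed γ.fix := by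
          have h1 : γ.fix = ((fixA γ Set.univ : NonUnitalStarSubalgebra ℂ L) : Set L) := by
            ext b
            exact ⟨fun h z _ => h z, fun h z => h z (Set.mem_univ z)⟩
          rw [h1]
          infer_instance
        rwa [hclosed.closure_eq] at hcl
      · intro hb w hw
        exact hb w
    · intro i x
      have hne1 : orderOf z ≠ 1 := fun h => hz1 (orderOf_eq_one_iff.1 h)
      exact h6 (orderOf z) hn hne1 hzp _ (hFWD T _ _ s L ι hlim γ _ _
        (Nat.one_le_iff_ne_zero.2 hn) (hz z) (hneg T) h0 i) x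
  · intro z z' hz1 hz1' hco
    rw [← hTD T]
    refine ⟨?_, fun h => ⟨hBACK T _ _ s L ι hlim γ _ _ (hz z) h,
      hBACK T _ _ s L ι hlim γ _ _ (hz z') h⟩⟩
    rintro ⟨h0, h0'⟩ i x
    have hne1 : orderOf z ≠ 1 := fun h => hz1 (orderOf_eq_one_iff.1 h)
    have hne1' : orderOf z' ≠ 1 := fun h => hz1' (orderOf_eq_one_iff.1 h)
    have hne0 : orderOf z ≠ 0 := fun h => by
      rw [h, Nat.coprime_zero_left] at hco
      exact hne1' hco
    have hne0' : orderOf z' ≠ 0 := fun h => by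
      rw [h, Nat.coprime_zero_right] at hco
      exact hne1 hco
    have hL := hFWD T _ _ s L ι hlim γ _ _ (Nat.one_le_iff_ne_zero.2 hne0) (hz z) (hneg T) h0 i
    have hL' := hFWD T _ _ s L ι hlim γ _ _ (Nat.one_le_iff_ne_zero.2 hne0') (hz z') (hneg T)
      h0' i
    exact hN (orderOf z') (by omega) _ hL'
      (hM (orderOf z) (by omega) _ hL (orderOf z') hco) x

end

end Pool.Agent.Helper39.CR
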