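import Pool.Agent.Helper34.CAR.GoalsC

/-!
Project CAR: CUT.
-/

open scoped ComplexOrder

namespace Pool.Agent.Helper39.CR

open Pool.Agent.Helper34.CAR

theorem cut : S_CUT := by
  intro A _ a l hl hlt
  let := CStarAlgebra.spectralOrder A
  have := CStarAlgebra.spectralOrderedRing A
  have hsa : IsSelfAdjoint (star a * a) := IsSelfAdjoint.star_mul_self a
  have hpos : 0 ≤ star a * a := star_mul_self_nonneg a
  set c : A := star a * a with hc
  have hnt : Nontrivial A := by
    by_contra h
    rw [not_nontrivial_iff_subsingleton] at h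
    rw [Subsingleton.elim c 0, norm_zero] at hlt
    linarith
  let f : ℝ → ℝ := fun t => max 0 (t - l)
  have hf : Continuous f := by fun_prop
  let h : ℝ → ℝ := fun t => Real.sqrt (max 0 (t - l)) * f t
  have hh : Continuous h := by fun_prop
  refine ⟨cfc f c, cfc h c, ?_, ?_, ?_, ?_⟩
  · intro h0
    have h1 : ‖c‖ ∈ spectrum ℝ c := CStarAlgebra.norm_mem_spectrum_of_nonneg (a := c) hpos
    have h2 := norm_apply_le_norm_cfc f c h1
    rw [h0, norm_zero] at h2
    have h3 : f ‖c‖ = 0 := norm_le_zero_iff.1 h2
    have h4 : f ‖c‖ = ‖c‖ - l := max_eq_right (by linarith)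
    linarith
  · exact IsSelfAdjoint.star_eq (cfc_predicate f c)
  · intro b hb
    exact ((Commute.cfc_real (a := c) (b := b) (Commute.symm hb) f).eq).symm
  · have e1 : star (cfc f c) = cfc f c := IsSelfAdjoint.star_eq (cfc_predicate f c)
    have e2 : star (cfc h c) = cfc h c := IsSelfAdjoint.star_eq (cfc_predicate h c)
    rw [e1, e2]
    have h1 : cfc f c * c * cfc f c = cfc (fun t => f t * t * f t) c := by
      rw [cfc_mul (fun t => f t * t) f c (by fun_prop) (by fun_prop),
        cfc_mul f (fun t => t) c (by fun_prop) (by fun_prop), cfc_id' ℝ c]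
    have h2 : cfc f c * cfc f c = cfc (fun t => f t * f t) c := by
      rw [cfc_mul f f c (by fun_prop) (by fun_prop)]
    have h3 : cfc h c * cfc h c = cfc (fun t => h t * h t) c := by
      rw [cfc_mul h h c (by fun_prop) (by fun_prop)]
    have h4 : (l : ℂ) • cfc (fun t => f t * f t) c = cfc (fun t => l * (f t * f t)) c := by
      rw [cfc_const_mul l (fun t => f t * f t) c (by fun_prop)]
      exact Complex.coe_smul l _
    rw [h1, h2, h3, h4, ← cfc_sub (fun t => f t * t * f t) (fun t => l * (f t * f t)) c
      (by fun_prop) (by fun_prop)]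
    congr 1
    funext t
    change f t * t * f t - l * (f t * f t) = (Real.sqrt (max 0 (t - l)) * f t) *
      (Real.sqrt (max 0 (t - l)) * f t)
    have h5 : Real.sqrt (max 0 (t - l)) * Real.sqrt (max 0 (t - l)) = max 0 (t - l) :=
      Real.mul_self_sqrt (le_max_left _ _)
    have h6 : (Real.sqrt (max 0 (t - l)) * f t) * (Real.sqrt (max 0 (t - l)) * f t) =
        max 0 (t - l) * (f t * f t) := by
      rw [mul_mul_mul_comm, h5]
    rw [h6]
    by_cases ht : 0 ≤ t - l
    · have h7 : f t = t - l := max_eq_right ht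
      rw [h7, max_eq_right ht]
      ring
    · have h7 : f t = 0 := max_eq_left (by linarith)
      rw [h7]
      ring

end Pool.Agent.Helper39.CR
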