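import Pool.Agent.Helper34.CAR.Defs

/-!
# Theories: the homological form of the CAR theorem

Project CAR (MP_d97caa_an), stage 3: definitions for the statement in terms of theories
`F = (F_0, F_1)` on separable C*-algebras, the example being `F_i = E_i(·, B)` with `K_*(B) = 0`.
-/

open scoped ComplexOrder

namespace Pool.Agent.Helper39.CR

open Pool.Agent.Helper34.CAR

noncomputable section

/-- A bundled abelian group. -/
structure Ab where
  G : Type
  [str : AddCommGroup G]

attribute [instance] Ab.str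

instance : CoeSort Ab Type := ⟨Ab.G⟩

/-- `M` is the algebra of `ι × ι` matrices over `A`; `e i j a` is the matrix with the entry `a` at
the place `(i, j)`. -/
structure MUnits {ι A M : Type} [Fintype ι] [NonUnitalCStarAlgebra A] [NonUnitalCStarAlgebra M]
    (e : ι → ι → A →ₗ[ℂ] M) : Prop where
  mul : ∀ i j k a b, e i j a * e j k b = e i k (a * b)
  mul0 : ∀ i j k l a b, j ≠ k → e i j a * e k l b = 0
  star : ∀ i j a, star (e i j a) = e j i (star a)
  inj : ∀ i j a, e i j a = 0 → a = 0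
  span : ∀ x : M, ∃ f : ι → ι → A, x = ∑ i, ∑ j, e i j (f i j)

/-- A `ℤ/2`-graded contravariant theory on separable C*-algebras that vanishes on `ℂ`:
homotopy invariant, matrix stable, with six-term exact sequences for extensions and Milnor
sequences for increasing unions. -/
structure Theory where
  /-- the groups `F_i(A)` -/
  F : ZMod 2 → (A : Type) → [NonUnitalCStarAlgebra A] → Ab
  /-- the map induced by a *-homomorphism -/
  map : ∀ (i : ZMod 2) {A B : Type} [NonUnitalCStarAlgebra A] [NonUnitalCStarAlgebra B],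
    (A →⋆ₙₐ[ℂ] B) → (F i B →+ F i A)
  map_id : ∀ (i : ZMod 2) (A : Type) [NonUnitalCStarAlgebra A]
    [TopologicalSpace.SeparableSpace A] (x : F i A), map i (NonUnitalStarAlgHom.id ℂ A) x = x
  map_comp : ∀ (i : ZMod 2) (A B C : Type) [NonUnitalCStarAlgebra A] [NonUnitalCStarAlgebra B]
    [NonUnitalCStarAlgebra C] [TopologicalSpace.SeparableSpace A]
    [TopologicalSpace.SeparableSpace B] [TopologicalSpace.SeparableSpace C]
    (f : A →⋆ₙₐ[ℂ] B) (g : B →⋆ₙₐ[ℂ] C) (x : F i C), map i (g.comp f) x = map i f (map i g x)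
  /-- homotopy invariance -/
  homotopy : ∀ (i : ZMod 2) (A B : Type) [NonUnitalCStarAlgebra A] [NonUnitalCStarAlgebra B]
    [TopologicalSpace.SeparableSpace A] [TopologicalSpace.SeparableSpace B]
    (h : unitInterval → (A →⋆ₙₐ[ℂ] B)), (∀ a, Continuous fun t => h t a) →
    map i (h 0) = map i (h 1)
  /-- matrix stability -/
  stable : ∀ (i : ZMod 2) (A M : Type) [NonUnitalCStarAlgebra A] [NonUnitalCStarAlgebra M]
    [TopologicalSpace.SeparableSpace A] [TopologicalSpace.SeparableSpace M]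
    (ι : Type) [Fintype ι] (e : ι → ι → A →ₗ[ℂ] M), MUnits e → ∀ (j : ι) (h : A →⋆ₙₐ[ℂ] M),
    (∀ a, h a = e j j a) → Function.Bijective (map i h)
  /-- six-term exact sequences -/
  exact : ∀ (i : ZMod 2) (J A Q : Type) [NonUnitalCStarAlgebra J] [NonUnitalCStarAlgebra A]
    [NonUnitalCStarAlgebra Q] [TopologicalSpace.SeparableSpace J]
    [TopologicalSpace.SeparableSpace A] [TopologicalSpace.SeparableSpace Q]
    (u : J →⋆ₙₐ[ℂ] A) (q : A →⋆ₙₐ[ℂ] Q), Function.Injective u → Function.Surjective q →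
    (∀ a, q a = 0 ↔ a ∈ Set.range u) →
    ∃ d : F i J →+ F (i + 1) Q,
      (∀ x : F i A, map i u x = 0 ↔ ∃ y, map i q y = x) ∧
      (∀ x : F i J, d x = 0 ↔ ∃ y, map i u y = x) ∧
      (∀ x : F (i + 1) Q, map (i + 1) q x = 0 ↔ ∃ y, d y = x)
  /-- Milnor sequences `0 → lim¹ F_{i+1}(B_k) → F_i(A) → lim F_i(B_k) → 0` for increasing unions -/
  milnor : ∀ (i : ZMod 2) (A : Type) [NonUnitalCStarAlgebra A] [TopologicalSpace.SeparableSpace A]
    (B : ℕ → Type) [∀ k, NonUnitalCStarAlgebra (B k)]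
    [∀ k, TopologicalSpace.SeparableSpace (B k)]
    (j : ∀ k, B k →⋆ₙₐ[ℂ] B (k + 1)) (u : ∀ k, B k →⋆ₙₐ[ℂ] A),
    (∀ k, Function.Injective (u k)) → (∀ k b, u (k + 1) (j k b) = u k b) →
    Dense (⋃ k, Set.range (u k)) →
    (∀ x : (∀ k, F i (B k)), (∀ k, map i (j k) (x (k + 1)) = x k) →
      ∃ y : F i A, ∀ k, map i (u k) y = x k) ∧
    ∃ d : (∀ k, F (i + 1) (B k)) →+ F i A,
      (∀ z, d z = 0 ↔ ∃ t : (∀ k, F (i + 1) (B k)),
        ∀ k, z k = t k - map (i + 1) (j k) (t (k + 1))) ∧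
      (∀ y : F i A, (∀ k, map i (u k) y = 0) ↔ ∃ z, d z = y)
  /-- the theory vanishes on `ℂ` -/
  point : ∀ (i : ZMod 2) (x : F i ℂ), x = 0

/-- `F_0(A) = F_1(A) = 0`. -/
def Theory.Zero (T : Theory) (A : Type) [NonUnitalCStarAlgebra A] : Prop :=
  ∀ (i : ZMod 2) (x : T.F i A), x = 0

/-- The fixed point algebra `{a | γ_z(a) = a for all z ∈ Z}` of a set `Z` of points of the
circle. -/
def fixA {A : Type} [CStarAlgebra A] (γ : CircleAction A) (Z : Set Circle) :
    NonUnitalStarSubalgebra ℂ A where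
  carrier := {a | ∀ z ∈ Z, γ.act z a = a}
  add_mem' {a b} ha hb z hz := by rw [map_add, ha z hz, hb z hz]
  zero_mem' z _ := map_zero _
  mul_mem' {a b} ha hb z hz := by rw [map_mul, ha z hz, hb z hz]
  smul_mem' c a ha z hz := by rw [map_smul, ha z hz]
  star_mem' {a} ha z hz := by rw [map_star, ha z hz]

instance {A : Type} [CStarAlgebra A] (γ : CircleAction A) (Z : Set Circle) :
    IsClosed ((fixA γ Z : NonUnitalStarSubalgebra ℂ A) : Set A) := by
  have h : ((fixA γ Z : NonUnitalStarSubalgebra ℂ A) : Set A) =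
      ⋂ z ∈ Z, {a | γ.act z a = a} := by
    ext a
    simp only [Set.mem_iInter]
    rfl
  rw [h]
  refine isClosed_iInter fun z => isClosed_iInter fun _ => isClosed_eq ?_ continuous_id
  exact (AddMonoidHomClass.continuous_of_bound (γ.act z) 1 (fun x => by
    simpa using NonUnitalStarAlgHom.norm_apply_le (γ.act z) x))

/-- The fixed point algebra as a C*-algebra. -/
abbrev Fix {A : Type} [CStarAlgebra A] (γ : CircleAction A) (Z : Set Circle) : Type :=
  ↥(fixA γ Z)

/-- The main theorem of stage 3. -/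
def S_MAIN3 : Prop :=
  ∀ (D : Type) [NonUnitalCStarAlgebra D] [TopologicalSpace.SeparableSpace D], Nuclear D →
    ∃ (A : Type) (_ : CStarAlgebra A) (γ : CircleAction A), IsCAR A ∧ ∀ T : Theory,
      (T.Zero (Fix γ Set.univ) ↔ T.Zero D) ∧
      (∀ z : Circle, z ≠ 1 → ¬ IsPrimePow (orderOf z) → (T.Zero (Fix γ {z}) ↔ T.Zero D)) ∧
      (∀ z z' : Circle, z ≠ 1 → z' ≠ 1 → (orderOf z).Coprime (orderOf z') →
        ((T.Zero (Fix γ {z}) ∧ T.Zero (Fix γ {z'})) ↔ T.Zero D))

end

end Pool.Agent.Helper39.CR
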