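import Pool.Agent.Helper34.CAR.Defs
import Pool.Agent.Helper39.CR.Theory

/-!
# Fixed point algebras of automorphisms of the CAR algebra: definitions for the statement
-/

open scoped ComplexOrder Topology
open TopologicalSpace

namespace Pool.Agent.Helper39.CarDefs

open Pool.Agent.Helper34.CAR Pool.Agent.Helper39.CR

noncomputable section

/-! ## Actions and fixed point algebras -/

/-- Strongly approximately inner: the circle action `γ` is a pointwise limit of the inner actions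
`Ad (u i z)` of norm continuous unitary representations `u i` of the circle in the fixed point
algebra of `γ`. -/
def StrApprInner {A : Type} [CStarAlgebra A] (γ : CircleAction A) : Prop :=
  ∃ u : ℕ → Circle → A,
    (∀ i z, star (u i z) * u i z = 1 ∧ u i z * star (u i z) = 1) ∧
    (∀ i z w, u i (z * w) = u i z * u i w) ∧ (∀ i, Continuous (u i)) ∧
    (∀ i z w, γ.act w (u i z) = u i z) ∧
    ∀ z a, Filter.Tendsto (fun i => u i z * a * star (u i z)) Filter.atTop (𝓝 (γ.act z a))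

/-- The fixed point algebra `{a | γ_z(a) = a for all z ∈ Z}` as a C*-algebra. -/
def FixAlg {A : Type} [CStarAlgebra A] (γ : CircleAction A) (Z : Set Circle) : Type :=
  Fix γ Z

instance {A : Type} [CStarAlgebra A] (γ : CircleAction A) (Z : Set Circle) :
    NonUnitalCStarAlgebra (FixAlg γ Z) :=
  (inferInstance : NonUnitalCStarAlgebra (Fix γ Z))

/-! ## Properties of C*-algebras -/

/-- `e` is a unit of `H`. -/
def IsUnitOf {H : Type} [NonUnitalCStarAlgebra H] (e : H) : Prop :=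
  ∀ a : H, e * a = a ∧ a * e = a

/-- `H` is unital, nonzero, and simple: every nonzero element generates `H` as a two-sided
ideal. -/
def UnitalSimple (H : Type) [NonUnitalCStarAlgebra H] : Prop :=
  ∃ e : H, e ≠ 0 ∧ IsUnitOf e ∧ ∀ b : H, b ≠ 0 →
    ∃ (m : ℕ) (x y : Fin m → H), ∑ l, x l * b * y l = e

/-- Tracial states of a unital C*-algebra. -/
def TracialState {H : Type} [NonUnitalCStarAlgebra H] (τ : H →ₗ[ℂ] ℂ) : Prop :=
  (∀ a, 0 ≤ τ (star a * a)) ∧ (∀ a, ‖τ a‖ ≤ ‖a‖) ∧ (∀ a b, τ (a * b) = τ (b * a)) ∧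
    ∀ e, IsUnitOf e → τ e = 1

/-- There is exactly one tracial state. -/
def Monotracial (H : Type) [NonUnitalCStarAlgebra H] : Prop :=
  ∃! τ : H →ₗ[ℂ] ℂ, TracialState τ

/-- Tracial rank zero (Lin), for a unital C*-algebra `H`: for every finite set `S`, every nonzero
`a` and every `ε > 0` there is a finite-dimensional *-subalgebra `C` with a unit `p ≠ 0` such that
`p` commutes with `x` up to `ε` and `p x p` is in `C` up to `ε` for `x ∈ S`, and
`1 - p = star v * v` for some `v = a * y` (so that `v * star v ∈ a H a*`). -/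
def TracialRankZero (H : Type) [NonUnitalCStarAlgebra H] : Prop :=
  ∀ (S : Finset H) (a : H) (ε : ℝ), a ≠ 0 → 0 < ε →
    ∃ (C : NonUnitalStarSubalgebra ℂ H) (p y : H), FiniteDimensional ℂ C ∧ p ∈ C ∧ p ≠ 0 ∧
      (∀ c ∈ C, p * c = c) ∧ (∀ x ∈ S, ‖p * x - x * p‖ < ε ∧ ∃ c ∈ C, ‖p * x * p - c‖ < ε) ∧
      IsUnitOf (p + star (a * y) * (a * y))

/-! ## Theories -/

/-- `lim = lim¹ = 0` for the inverse system `G ← G ← G ← ..` with the multiplication by `p` as
connecting map (`G` is Ext-`p`-complete). -/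
def PComplete (p : ℕ) (G : Type) [AddCommGroup G] : Prop :=
  (∀ y : ℕ → G, (∀ k, p • y (k + 1) = y k) → ∀ k, y k = 0) ∧
  ∀ z : ℕ → G, ∃ t : ℕ → G, ∀ k, z k = t k - p • t (k + 1)

/-! ### Maps of C*-algebras -/

/-- *-homomorphisms of C*-algebras. -/
abbrev Hom (A B : Type) [NonUnitalCStarAlgebra A] [NonUnitalCStarAlgebra B] : Type :=
  A →⋆ₙₐ[ℂ] B

/-- The identity. -/
def IsIdHom {A : Type} [NonUnitalCStarAlgebra A] (f : A →⋆ₙₐ[ℂ] A) : Prop :=
  ∀ a, f a = a

/-- `h` is the composition of `f` and `g`. -/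
def IsCompHom {A B C : Type} [NonUnitalCStarAlgebra A] [NonUnitalCStarAlgebra B]
    [NonUnitalCStarAlgebra C] (f : A →⋆ₙₐ[ℂ] B) (g : B →⋆ₙₐ[ℂ] C) (h : A →⋆ₙₐ[ℂ] C) : Prop :=
  ∀ a, h a = g (f a)

/-- Homotopic *-homomorphisms. -/
def Homotopic {A B : Type} [NonUnitalCStarAlgebra A] [NonUnitalCStarAlgebra B]
    (f g : A →⋆ₙₐ[ℂ] B) : Prop :=
  ∃ h : unitInterval → (A →⋆ₙₐ[ℂ] B), (∀ a, Continuous fun t => h t a) ∧ h 0 = f ∧ h 1 = g

/-- `h` is the inclusion `a ↦ e_jj ⊗ a` into a matrix algebra over `A`. -/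
def IsCorner {A M : Type} [NonUnitalCStarAlgebra A] [NonUnitalCStarAlgebra M]
    (h : A →⋆ₙₐ[ℂ] M) : Prop :=
  ∃ (ι : Type) (_ : Fintype ι) (e : ι → ι → A →ₗ[ℂ] M) (j : ι), MUnits e ∧ ∀ a, h a = e j j a

/-- `0 → J → A → Q → 0` is an extension. -/
def IsExtension {J A Q : Type} [NonUnitalCStarAlgebra J] [NonUnitalCStarAlgebra A]
    [NonUnitalCStarAlgebra Q] (u : J →⋆ₙₐ[ℂ] A) (q : A →⋆ₙₐ[ℂ] Q) : Prop :=
  Function.Injective u ∧ Function.Surjective q ∧ ∀ a, q a = 0 ↔ a ∈ Set.range u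

/-- Injectivity. -/
def IsInjHom {A B : Type} [NonUnitalCStarAlgebra A] [NonUnitalCStarAlgebra B]
    (f : A →⋆ₙₐ[ℂ] B) : Prop :=
  Function.Injective f

/-- The image. -/
def rangeHom {A B : Type} [NonUnitalCStarAlgebra A] [NonUnitalCStarAlgebra B]
    (f : A →⋆ₙₐ[ℂ] B) : Set B :=
  Set.range f

/-- `A` is the closure of the increasing union of the subalgebras `B k`. -/
def IsUnion {A : Type} {B : ℕ → Type} [NonUnitalCStarAlgebra A]
    [∀ k, NonUnitalCStarAlgebra (B k)] (j : ∀ k, Hom (B k) (B (k + 1)))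
    (u : ∀ k, Hom (B k) A) : Prop :=
  (∀ k, IsInjHom (u k) ∧ IsCompHom (j k) (u (k + 1)) (u k)) ∧ Dense (⋃ k, rangeHom (u k))

/-! ### Maps of abelian groups -/

/-- The identity. -/
def IsIdMap {X : Type} [AddCommGroup X] (f : X →+ X) : Prop :=
  ∀ x, f x = x

/-- `h` is the composition of `f` and `g`. -/
def IsCompMap {X Y Z : Type} [AddCommGroup X] [AddCommGroup Y] [AddCommGroup Z]
    (f : X →+ Y) (g : Y →+ Z) (h : X →+ Z) : Prop :=
  ∀ x, h x = g (f x)

/-- Equality of maps. -/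
def SameMap {X Y : Type} [AddCommGroup X] [AddCommGroup Y] (f g : X →+ Y) : Prop :=
  f = g

/-- Isomorphisms. -/
def IsIsoMap {X Y : Type} [AddCommGroup X] [AddCommGroup Y] (f : X →+ Y) : Prop :=
  Function.Bijective f

/-- Exactness at the middle group. -/
def ExactAt {X Y Z : Type} [AddCommGroup X] [AddCommGroup Y] [AddCommGroup Z]
    (f : X →+ Y) (g : Y →+ Z) : Prop :=
  ∀ y, g y = 0 ↔ ∃ x, f x = y

/-- The maps extend by a connecting map `Z → X'` to an exact sequence `X → Y → Z → X' → Y'`. -/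
def SixTermAt {X Y Z X' Y' : Type} [AddCommGroup X] [AddCommGroup Y] [AddCommGroup Z]
    [AddCommGroup X'] [AddCommGroup Y'] (f : X →+ Y) (g : Y →+ Z) (f' : X' →+ Y') : Prop :=
  ExactAt f g ∧ ∃ d : Z →+ X', ExactAt g d ∧ ExactAt d f'

/-- The maps extend to an exact sequence `0 → lim¹ Y_k → G → lim X_k → 0`. -/
def MilnorAt {G : AddCommGrpCat.{0}} {X Y : ℕ → AddCommGrpCat.{0}}
    (x : ∀ k, X (k + 1) →+ X k) (y : ∀ k, Y (k + 1) →+ Y k) (r : ∀ k, G →+ X k) : Prop :=
  (∀ t : (∀ k, X k), (∀ k, x k (t (k + 1)) = t k) → ∃ g, ∀ k, r k g = t k) ∧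
  ∃ d : (∀ k, Y k) →+ G,
    (∀ z, d z = 0 ↔ ∃ t : (∀ k, Y k), ∀ k, z k = t k - y k (t (k + 1))) ∧
    (∀ g, (∀ k, r k g = 0) ↔ ∃ z, d z = g)

/-! ### Theories -/

/-- Abelian groups `F_i(A)`, `i ∈ ℤ/2`, for all C*-algebras `A`, and homomorphisms
`F_i(B) → F_i(A)` for *-homomorphisms `A → B`. -/
structure Groups where
  F : ZMod 2 → (A : Type) → [NonUnitalCStarAlgebra A] → AddCommGrpCat.{0}
  map : ∀ (i : ZMod 2) {A B : Type} [NonUnitalCStarAlgebra A] [NonUnitalCStarAlgebra B],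
    Hom A B → (F i B →+ F i A)

namespace Groups

variable (T : Groups)

/-- Contravariant functors. -/
def Functorial : Prop :=
  (∀ (i : ZMod 2) (A : Type) [NonUnitalCStarAlgebra A] [SeparableSpace A] (f : Hom A A),
    IsIdHom f → IsIdMap (T.map i f)) ∧
  ∀ (i : ZMod 2) (A B C : Type) [NonUnitalCStarAlgebra A] [NonUnitalCStarAlgebra B]
    [NonUnitalCStarAlgebra C] [SeparableSpace A] [SeparableSpace B] [SeparableSpace C]
    (f : Hom A B) (g : Hom B C) (h : Hom A C), IsCompHom f g h →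
    IsCompMap (T.map i g) (T.map i f) (T.map i h)

/-- Homotopy invariance. -/
def HomotopyInvariant : Prop :=
  ∀ (i : ZMod 2) (A B : Type) [NonUnitalCStarAlgebra A] [NonUnitalCStarAlgebra B]
    [SeparableSpace A] [SeparableSpace B] (f g : Hom A B),
    Homotopic f g → SameMap (T.map i f) (T.map i g)

/-- Matrix stability. -/
def MatrixStable : Prop :=
  ∀ (i : ZMod 2) (A M : Type) [NonUnitalCStarAlgebra A] [NonUnitalCStarAlgebra M]
    [SeparableSpace A] [SeparableSpace M] (h : Hom A M), IsCorner h → IsIsoMap (T.map i h)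

/-- Six-term exact sequences of extensions. -/
def SixTerm : Prop :=
  ∀ (i : ZMod 2) (J A Q : Type) [NonUnitalCStarAlgebra J] [NonUnitalCStarAlgebra A]
    [NonUnitalCStarAlgebra Q] [SeparableSpace J] [SeparableSpace A] [SeparableSpace Q]
    (u : Hom J A) (q : Hom A Q), IsExtension u q →
    SixTermAt (T.map i q) (T.map i u) (T.map (i + 1) q)

/-- Milnor sequences of increasing unions. -/
def Milnor : Prop :=
  ∀ (i : ZMod 2) (A : Type) (B : ℕ → Type) [NonUnitalCStarAlgebra A]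
    [∀ k, NonUnitalCStarAlgebra (B k)] [SeparableSpace A] [∀ k, SeparableSpace (B k)]
    (j : ∀ k, Hom (B k) (B (k + 1))) (u : ∀ k, Hom (B k) A), IsUnion j u →
    MilnorAt (G := T.F i A) (X := fun k => T.F i (B k)) (Y := fun k => T.F (i + 1) (B k))
      (fun k => T.map i (j k)) (fun k => T.map (i + 1) (j k)) (fun k => T.map i (u k))

/-- `F_0(A) = F_1(A) = 0`. -/
def Zero (A : Type) [NonUnitalCStarAlgebra A] : Prop :=
  ∀ (i : ZMod 2) (x : T.F i A), x = 0

end Groups

/-- A `ℤ/2`-graded contravariant theory on separable C*-algebras that vanishes on `ℂ`. -/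
structure IsTheory (T : Groups) : Prop where
  functorial : T.Functorial
  homotopy : T.HomotopyInvariant
  stable : T.MatrixStable
  exact : T.SixTerm
  milnor : T.Milnor
  point : T.Zero ℂ

end

end Pool.Agent.Helper39.CarDefs
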