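import Pool.Agent.Helper85.CR.Goals
import Pool.Agent.Helper28.PL.Final
import Pool.Agent.Helper69.PL.TriP
import Pool.Agent.Helper34.FF.Rot

/-!
# Project CR (MP_bdaf95_co), packet EDG: planar graphs have at most `3 n - 6` edges
-/

set_option autoImplicit false

namespace Pool.Agent.Helper39.CR

open Equiv Helper28.VF Helper28.PL Pool.Agent.Helper85.CR

/-- A planar graph is contained in a simple triangulated plane map. -/
theorem ex_tri {V : Type} [Fintype V] (G : SimpleGraph V) (hG : Pool.Agent.Helper85.CR.Planar G)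
    (h3 : 3 ≤ Fintype.card V) :
    ∃ (D E F : Type) (_ : Fintype D) (_ : Fintype E) (_ : Fintype F) (M : PM D V E F),
      Simple M ∧ Triang M ∧ (∀ u v, G.Adj u v → Adj M u v) ∧
      Fintype.card E + 6 = 3 * Fintype.card V := by
  have hP : Helper28.PL.Planar G := by
    rcases hG with h | ⟨H, hGH, hc, σ, hσ, he⟩
    · rw [Nat.card_eq_fintype_card] at h
      omega
    · exact Pool.Agent.Helper34.FF.Rot.planar_of_rot G H (by omega) hGH hc σ hσ he
  obtain ⟨D, E, F, _, _, _, M, hS, hA⟩ := hP
  obtain ⟨D', E', F', i1, i2, i3, M', hS', hT', hA'⟩ := stmtMax D V E F M hS h3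
  refine ⟨D', E', F', i1, i2, i3, M', hS', hT', fun u v h => hA' u v (hA u v h), ?_⟩
  have e1 := Helper69.PL.card_D2 M'
  have e2 := Helper69.PL.card_D3 hS' hT'
  have e3 := M'.euler
  omega

/-- The edges of a graph contained in a plane map. -/
theorem edges_le {V : Type} [Fintype V] (G : SimpleGraph V) {D E F : Type} [Fintype D] [Fintype E]
    [Fintype F] (M : PM D V E F) (hA : ∀ u v, G.Adj u v → Adj M u v) :
    G.edgeSet.ncard ≤ Fintype.card E := by
  classical
  let f : E → Sym2 V := fun e =>
    s(M.vt (M.ed_surj e).choose, M.vt (M.α (M.ed_surj e).choose))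
  have h1 : G.edgeSet ⊆ f '' Set.univ := by
    intro e he
    induction e using Sym2.ind with
    | _ u v =>
      obtain ⟨d, hd1, hd2⟩ := hA u v he
      refine ⟨M.ed d, Set.mem_univ _, ?_⟩
      have h1 := (M.ed_surj (M.ed d)).choose_spec
      have h2 := (M.ed_iff _ _).1 h1.symm
      change s(M.vt (M.ed_surj (M.ed d)).choose, M.vt (M.α (M.ed_surj (M.ed d)).choose)) = s(u, v)
      rcases h2 with h2 | h2
      · rw [h2, hd1, hd2]
      · rw [h2, M.α_inv, hd1, hd2]
        exact Sym2.eq_swap
  calc G.edgeSet.ncard ≤ (f '' Set.univ).ncard := Set.ncard_le_ncard h1 (Set.toFinite _)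
    _ ≤ (Set.univ : Set E).ncard := Set.ncard_image_le (Set.toFinite _)
    _ = Fintype.card E := by rw [Set.ncard_univ, Nat.card_eq_fintype_card]

/-- packet EDG -/
theorem gEDG : StmtEDG := by
  intro V _ G hG h3
  obtain ⟨D, E, F, _, _, _, M, -, -, hA, hE⟩ := ex_tri G hG h3
  have h := edges_le G M hA
  omega

end Pool.Agent.Helper39.CR
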