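import Pool.Agent.Helper39.CR.ISO
import Pool.Agent.Helper34.CAR.Assemble

/-!
Project CAR, stage 3: from `D` to the unitization of `C₀(ℝ, E)`, with isomorphisms.
-/

open scoped ComplexOrder ZeroAtInfty
open TopologicalSpace

namespace Pool.Agent.Helper39.CR

open Pool.Agent.Helper34.CAR Pool.Agent.Helper39.Uct Pool.Agent.Helper61.CAR

noncomputable section

/-- TDB2. -/
def S_TDB2 : Prop := ∀ (D : Type) [NonUnitalCStarAlgebra D] [SeparableSpace D], Nuclear D →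
  ∃ (E : Type) (_ : NonUnitalCStarAlgebra E), SeparableSpace E ∧ PN E ∧
    (∀ 𝒞 : Cls, Perm 𝒞 → (𝒞 D ↔ 𝒞 (Unitization ℂ C₀(ℝ, E)))) ∧
    ∀ (T : Theory) (i : ZMod 2),
      ∃ φ : T.F i (Unitization ℂ C₀(ℝ, E)) →+ T.F (i + 1 + 1) D, Function.Bijective φ

theorem tdb2 (hQ : S_Q) (hQS : S_QSEQ) (h1 : S_ESTR) (h2 : S_ESEP) (h3 : S_EZ) (h4 : S_EN)
    (hEMB : S_EMB) (hTZ : S_TZ) (hTUN : S_TUN) (hTKER : S_TKER) (hUNC : S_UNC) : S_TDB2 := by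
  intro D _ _ hD
  have sY : SeparableSpace C₀(ℝ, D) := by
    obtain ⟨u, hu, -⟩ := hEMB D
    exact sep_of_inj u hu
  obtain ⟨S⟩ := hQS C₀(ℝ, D) (hQ D hD)
  obtain ⟨E, iE, x, ρ, hE⟩ := h1 C₀(ℝ, D) S
  have sE : SeparableSpace E := h2 _ S E x ρ hE
  have sX : SeparableSpace C₀(ℝ, E) := by
    obtain ⟨u, hu, -⟩ := hEMB E
    exact sep_of_inj u hu
  obtain ⟨Z, iZ, ι₀, hZ1, hZ2, hZ3, hZ4⟩ := h3 _ S E x ρ hE
  have hρ : Function.Surjective ρ := by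
    intro f
    obtain ⟨e, -, he⟩ := hE.ex (fun n => S.Φ n f) f (by simp)
    exact ⟨e, he⟩
  refine ⟨E, iE, sE, h4 _ S E x ρ hE, ?_, ?_⟩
  · intro 𝒞 h𝒞
    have e1 : 𝒞 D ↔ 𝒞 C₀(ℝ, D) := h𝒞.susp D
    have hZ : 𝒞 Z := h𝒞.typeI Z hZ2
    have e2 : 𝒞 C₀(ℝ, D) ↔ 𝒞 E :=
      ⟨fun h => h𝒞.ext Z E _ ι₀ ρ hZ3 hρ hZ4 hZ h, fun h => h𝒞.quot Z E _ ι₀ ρ hZ3 hρ hZ4 hZ h⟩
    have e3 : 𝒞 E ↔ 𝒞 C₀(ℝ, E) := h𝒞.susp E
    exact ((e1.trans e2).trans e3).trans (hUNC 𝒞 h𝒞 _)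
  · intro T i
    have hz : T.Zero Z := hTKER T _ S E x ρ hE Z ι₀ hZ3 hZ4
    -- `F_i(X~) ≅ F_i(X)`
    have b1 : Function.Bijective (T.map i (inrH C₀(ℝ, E))) := hTUN T i C₀(ℝ, E)
    obtain ⟨φ2, b2⟩ := tc0r2 hEMB hTZ T i E
    -- `F_{i+1}(Y) ≅ F_{i+1}(E)`
    have b3 : Function.Bijective (T.map (i + 1) ρ) := bij_of_ext T (i + 1) ι₀ ρ hZ3 hρ hZ4 hz
    obtain ⟨φ4, b4⟩ := tc0r2 hEMB hTZ T (i + 1) D
    let e3 := AddEquiv.ofBijective (T.map (i + 1) ρ) b3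
    refine ⟨(φ4.comp e3.symm.toAddMonoidHom).comp (φ2.comp (T.map i (inrH C₀(ℝ, E)))), ?_⟩
    exact (b4.comp e3.symm.bijective).comp (b2.comp b1)

/-- Vanishing. -/
theorem zero_iff_of (T : Theory) {B D : Type} [NonUnitalCStarAlgebra B]
    [NonUnitalCStarAlgebra D]
    (h : ∀ i, ∃ φ : T.F i B →+ T.F (i + 1 + 1) D, Function.Bijective φ) :
    T.Zero B ↔ T.Zero D := by
  constructor
  · intro hB
    have key : ∀ i, ∀ y : T.F (i + 1 + 1) D, y = 0 := by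
      intro i y
      obtain ⟨φ, hφ⟩ := h i
      obtain ⟨x, hx⟩ := hφ.2 y
      rw [← hx, hB i x, map_zero]
    intro i
    have h := key (i - 1 - 1)
    rw [sub_add_cancel, sub_add_cancel] at h
    exact h
  · intro hD i x
    obtain ⟨φ, hφ⟩ := h i
    exact hφ.1 (by rw [hD _ (φ x), map_zero])

/-- Multiplication by `n` is bijective. -/
def Theory.Div (T : Theory) (n : ℕ) (A : Type) [NonUnitalCStarAlgebra A] : Prop :=
  ∀ i : ZMod 2, Function.Bijective fun x : T.F i A => n • x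

theorem div_of (T : Theory) {B D : Type} [NonUnitalCStarAlgebra B]
    [NonUnitalCStarAlgebra D]
    (h : ∀ i, ∃ φ : T.F i B →+ T.F (i + 1 + 1) D, Function.Bijective φ) (n : ℕ)
    (hD : T.Div n D) : T.Div n B := by
  intro i
  obtain ⟨φ, hφ⟩ := h i
  have h1 : (φ ∘ fun x : T.F i B => n • x) = (fun y : T.F (i + 1 + 1) D => n • y) ∘ φ := by
    funext x
    exact map_nsmul φ n x
  have h2 : Function.Bijective (φ ∘ fun x : T.F i B => n • x) := by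
    rw [h1]
    exact (hD (i + 1 + 1)).comp hφ
  exact (Function.Bijective.of_comp_iff' hφ _).1 h2

end

end Pool.Agent.Helper39.CR
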