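import Pool.Agent.Helper39.CR.GoalsP
import Pool.Agent.Helper34.CAR.GoalsC
import Pool.Agent.Helper39.CR.Main3
import Pool.Agent.Helper39.CR.TDB2

/-!
Project CAR (MP_d97caa_an), stage 3: assembly of `S_MAIN6` from the packets.
-/

open scoped ComplexOrder ZeroAtInfty
open TopologicalSpace

namespace Pool.Agent.Helper39.CR

open Pool.Agent.Helper34.CAR Pool.Agent.Helper39.Uct

noncomputable section

/-- The main theorem. -/
def S_MAIN6 : Prop :=
  ∀ (D : Type) [NonUnitalCStarAlgebra D] [TopologicalSpace.SeparableSpace D], Nuclear D →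
    ∃ (A : Type) (_ : CStarAlgebra A) (γ : CircleAction A), IsCAR A ∧ Sai γ ∧
      (∀ z : Circle, orderOf z ≠ 0 → IsSimpleU (Fix γ {z}) ∧ IsTAF (Fix γ {z}) ∧
        ∃! τ : Fix γ {z} →ₗ[ℂ] ℂ, IsTrState τ) ∧
      ∀ T : Theory,
        (T.Zero (Fix γ Set.univ) ↔ T.Zero D) ∧
        (∀ z : Circle, z ≠ 1 → ¬ IsPrimePow (orderOf z) → (T.Zero (Fix γ {z}) ↔ T.Zero D)) ∧
        (∀ (z : Circle) (p e : ℕ), p.Prime → orderOf z = p ^ (e + 1) →
          (T.Zero (Fix γ {z}) ↔ ∀ i, PComp p (T.F i D))) ∧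
        (∀ z z' : Circle, z ≠ 1 → z' ≠ 1 → (orderOf z).Coprime (orderOf z') →
          ((T.Zero (Fix γ {z}) ∧ T.Zero (Fix γ {z'})) ↔ T.Zero D))

/-- `PComp` is invariant under isomorphisms. -/
theorem PComp.of_bij {p : ℕ} {G H : Type} [AddCommGroup G] [AddCommGroup H] (φ : G →+ H)
    (hφ : Function.Bijective φ) (h : PComp p H) : PComp p G := by
  let e := AddEquiv.ofBijective φ hφ
  have he : ∀ x, e x = φ x := fun x => rfl
  refine ⟨fun y hy k => ?_, fun z => ?_⟩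
  · have h1 := h.1 (fun k => φ (y k)) (fun k => by rw [← map_nsmul, hy k]) k
    exact hφ.1 (by rw [h1, map_zero])
  · obtain ⟨t, ht⟩ := h.2 (fun k => φ (z k))
    refine ⟨fun k => e.symm (t k), fun k => ?_⟩
    apply e.injective
    rw [map_sub, map_nsmul, e.apply_symm_apply, e.apply_symm_apply, he]
    exact ht k

theorem pcomp_iff (T : Theory) {B D : Type} [NonUnitalCStarAlgebra B]
    [NonUnitalCStarAlgebra D]
    (h : ∀ i, ∃ φ : T.F i B →+ T.F (i + 1 + 1) D, Function.Bijective φ) (p : ℕ) :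
    (∀ i, PComp p (T.F i B)) ↔ ∀ i, PComp p (T.F i D) := by
  constructor
  · intro hB
    have key : ∀ i, PComp p (T.F (i + 1 + 1) D) := by
      intro i
      obtain ⟨φ, hφ⟩ := h i
      let e := AddEquiv.ofBijective φ hφ
      exact PComp.of_bij e.symm.toAddMonoidHom e.symm.bijective (hB i)
    intro i
    have h := key (i - 1 - 1)
    rw [sub_add_cancel, sub_add_cancel] at h
    exact h
  · intro hD i
    obtain ⟨φ, hφ⟩ := h i
    exact PComp.of_bij φ hφ (hD _)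

/-- Assembly. -/
theorem main6 (hTDB : S_TDB2) (hNS : Helper61.CAR.S_NS) (hHOM : S_HOM) (hSTEP : S_STEP)
    (hSYS : S_SYS2) (hKINJ : S_KINJ) (hIL : S_IL) (hCARL : S_CARL) (hACT : S_ACT)
    (hRET : S_RET) (hTFIX : S_TFIX) (hTFIXU : S_TFIXU) (hEMB : S_EMB) (hTNEG : S_TNEG)
    (hBACK : S_TBACK) (hFWD : S_TFWD) (h6 : S_ALG6) (hM : S_ALGM) (hN : S_ALGN)
    (hSIMP : S_SIMP) (hMONO : S_MONO) (hTAFZ : S_TAFZ) (hTAFE : S_TAFE) (hTLL : S_TLL)
    (hP : S_ALGP) : S_MAIN6 := by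
  intro D _ _ hD
  obtain ⟨E, iE, sE, hPN, hCD, hφ⟩ := hTDB D hD
  have hTD : ∀ T : Theory, T.Zero (Unitization ℂ C₀(ℝ, E)) ↔ T.Zero D := fun T =>
    zero_iff_of T (hφ T)
  -- the separable unital algebra B
  have sX : SeparableSpace C₀(ℝ, E) := by
    obtain ⟨u, hu, -⟩ := hEMB E
    exact sep_of_inj u hu
  obtain ⟨s, hs, hs2⟩ := hSYS (Unitization ℂ C₀(ℝ, E)) (Unitization.starMap (flip E))
    (hSTEP C₀(ℝ, E) (flip E) (hNS E hPN) (hHOM E))
  have hk := hKINJ _ _ s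
  obtain ⟨L, iL, ι, hι1, hι2, hι3⟩ := hIL s.A s.κ hk
  have hlim : IsLim s L ι := ⟨hι1, hι2, hι3⟩
  have hcar : IsCAR L := hCARL _ _ s hs L ι hι1 hι2 hι3
  obtain ⟨γ, hγ⟩ := hACT _ _ s L ι hι1 hι2 hι3
  have sL : SeparableSpace L := sep_lim s L ι hlim
  have hU : FixD s ι γ Set.univ 0 := hTFIXU _ _ s L ι hlim γ hγ
  have hz : ∀ z : Circle, FixD s ι γ {z} (orderOf z) := hTFIX _ _ s L ι hlim γ hγ
  have hneg : ∀ (T : Theory) (i : ZMod 2)
      (g : Unitization ℂ C₀(ℝ, E) →⋆ₙₐ[ℂ] Unitization ℂ C₀(ℝ, E)),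
      (∀ b, g b = Unitization.starMap (flip E) b) →
      ∀ x : T.F i (Unitization ℂ C₀(ℝ, E)), T.map i g x = -x :=
    fun T i g hg x => (hTNEG T i E).2 g hg x
  have hθ2 : ∀ b : Unitization ℂ C₀(ℝ, E),
      (Unitization.starMap (flip E) : Unitization ℂ C₀(ℝ, E) →⋆ₐ[ℂ] _)
        ((Unitization.starMap (flip E) : Unitization ℂ C₀(ℝ, E) →⋆ₐ[ℂ] _) b) = b := by
    intro b
    induction b with
    | inl_add_inr r a =>
      rw [map_add, map_add]
      have e1 : (Unitization.starMap (flip E) : Unitization ℂ C₀(ℝ, E) →⋆ₐ[ℂ] _)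
          (Unitization.inl r) = Unitization.inl r := by
        simp
        rfl
      have e2 : ∀ a : C₀(ℝ, E), (Unitization.starMap (flip E) :
          Unitization ℂ C₀(ℝ, E) →⋆ₐ[ℂ] _) (a : Unitization ℂ C₀(ℝ, E)) =
          ((flip E a : C₀(ℝ, E)) : Unitization ℂ C₀(ℝ, E)) := by
        intro a
        simp
      rw [e1, e1, e2, e2]
      congr 2
      ext t
      rw [flip_apply, flip_apply, neg_neg]
  -- the block diagonal elements are the elements of degree 0 for integer weights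
  have hbd : ∀ i a, s.BlockDiag i a ↔ a ∈ grd (Unitization ℂ C₀(ℝ, E)) (wz s 0 i) := by
    intro i a
    constructor
    · intro h x y hxy
      exact h x y (fun h' => hxy (by simp only [wz, h']))
    · intro h x y hxy
      refine h x y (fun h' => hxy ?_)
      have : ((s.wt i x : ℕ) : ℤ) = ((s.wt i y : ℕ) : ℤ) := h'
      exact_mod_cast this
  have hfix0 : ∀ i a, s.BlockDiag i a → ι i a ∈ γ.fix := by
    intro i a ha z
    exact hU.1 i a ((hbd i a).1 ha) z (Set.mem_univ z)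
  have hfixcl : γ.fix ⊆ closure {b | ∃ i a, s.BlockDiag i a ∧ b = ι i a} := by
    intro b hb
    rw [Metric.mem_closure_iff]
    intro ε hε
    obtain ⟨i, a, ha, hab⟩ := hU.2 b (fun z _ => hb z) ε hε
    exact ⟨ι i a, ⟨i, a, (hbd i a).2 ha, rfl⟩, by rw [dist_eq_norm]; exact hab⟩
  -- retraction
  have hret : ∀ (T : Theory) (Z : Set Circle), (fixA γ Z : Set L) = γ.fix → T.Zero (Fix γ Z) →
      T.Zero (Unitization ℂ C₀(ℝ, E)) := by
    intro T Z hZ h0
    obtain ⟨i₀, p, hp⟩ := hRET _ _ hθ2 s L ι hι1 hι2 γ hfix0 hfixcl (Fix γ Z)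
      (NonUnitalStarSubalgebraClass.subtype (fixA γ Z)) Subtype.val_injective (by
        rw [← hZ]
        exact Subtype.range_coe)
    exact zero_of_retract T i₀ p hp h0
  refine ⟨L, iL, γ, hcar, sai s ι hι1 hι3 γ hγ, fun z hz0 =>
    ⟨hSIMP E s hs L ι hlim γ _ _ (Nat.one_le_iff_ne_zero.2 hz0) (hz z), ?_, hMONO E s hs hs2 L ι hlim hcar γ _ _ (Nat.one_le_iff_ne_zero.2 hz0) (hz z)⟩,
    fun T => ⟨?_, ?_, ?_, ?_⟩⟩
  · by_cases hE : ∃ y : E, y ≠ 0
    · exact hTAFE E hE s hs L ι hlim γ _ _ (Nat.one_le_iff_ne_zero.2 hz0) (hz z)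
    · push Not at hE
      exact hTAFZ E hE s L ι hlim γ _ _ (hz z)
  · rw [← hTD T]
    refine ⟨hret T _ ?_, hBACK T _ _ s L ι hlim γ _ 0 hU⟩
    ext b
    exact ⟨fun h z => h z (Set.mem_univ z), fun h z _ => h z⟩
  · intro z hz1 hzp
    have hTD' := hTD T
    rw [← hTD']
    refine ⟨fun h0 => ?_, hBACK T _ _ s L ι hlim γ _ _ (hz z)⟩
    by_cases hn : orderOf z = 0
    · refine hret T {z} ?_ h0
      ext b
      constructor
      · intro hb
        have hcl : b ∈ closure γ.fix := by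
          rw [Metric.mem_closure_iff]
          intro ε hε
          obtain ⟨i, a, ha, hab⟩ := (hz z).2 b hb ε hε
          rw [hn] at ha
          exact ⟨ι i a, hfix0 i a ((hbd i a).2 ha), by rw [dist_eq_norm]; exact hab⟩
        have hclosed : IsClosed γ.fix := by
          have h1 : γ.fix = ((fixA γ Set.univ : NonUnitalStarSubalgebra ℂ L) : Set L) := by
            ext b
            exact ⟨fun h z _ => h z, fun h z => h z (Set.mem_univ z)⟩
          rw [h1]
          infer_instance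
        rwa [hclosed.closure_eq] at hcl
      · intro hb w hw
        exact hb w
    · intro i x
      have hne1 : orderOf z ≠ 1 := fun h => hz1 (orderOf_eq_one_iff.1 h)
      have hLL := hFWD T _ _ s L ι hlim γ _ _ (Nat.one_le_iff_ne_zero.2 hn) (hz z) (hneg T) h0 i
      exact h6 (orderOf z) hn hne1 hzp _ hLL x
  · intro z p e hp hze
    have hn0 : orderOf z ≠ 0 := by
      rw [hze]
      exact pow_ne_zero _ hp.ne_zero
    have hn1 : 1 ≤ orderOf z := Nat.one_le_iff_ne_zero.2 hn0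
    rw [← pcomp_iff T (hφ T) p]
    constructor
    · intro h0 i
      have hLL := hFWD T _ _ s L ι hlim γ _ _ hn1 (hz z) (hneg T) h0 i
      rw [hze] at hLL
      exact (hP p hp e _).1 hLL
    · intro h
      refine hTLL T _ _ s L ι hlim γ _ _ hn1 (hz z) (hneg T) fun i => ?_
      rw [hze]
      exact (hP p hp e _).2 (h i)
  · intro z z' hz1 hz1' hco
    rw [← hTD T]
    refine ⟨?_, fun h => ⟨hBACK T _ _ s L ι hlim γ _ _ (hz z) h,
      hBACK T _ _ s L ι hlim γ _ _ (hz z') h⟩⟩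
    rintro ⟨h0, h0'⟩ i x
    have hne1 : orderOf z ≠ 1 := fun h => hz1 (orderOf_eq_one_iff.1 h)
    have hne1' : orderOf z' ≠ 1 := fun h => hz1' (orderOf_eq_one_iff.1 h)
    have hne0 : orderOf z ≠ 0 := fun h => by
      rw [h, Nat.coprime_zero_left] at hco
      exact hne1' hco
    have hne0' : orderOf z' ≠ 0 := fun h => by
      rw [h, Nat.coprime_zero_right] at hco
      exact hne1 hco
    have hL := hFWD T _ _ s L ι hlim γ _ _ (Nat.one_le_iff_ne_zero.2 hne0) (hz z) (hneg T) h0 i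
    have hL' := hFWD T _ _ s L ι hlim γ _ _ (Nat.one_le_iff_ne_zero.2 hne0') (hz z') (hneg T)
      h0' i
    exact hN (orderOf z') (by omega) _ hL'
      (hM (orderOf z) (by omega) _ hL (orderOf z') hco) x

end

end Pool.Agent.Helper39.CR
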