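import Pool.Agent.Helper39.CR.CarDefs
import Pool.Agent.Helper39.CR.Main6

open scoped ComplexOrder Topology
open TopologicalSpace

namespace Pool.Agent.Helper39.CR

open Pool.Agent.Helper34.CAR Pool.Agent.Helper39.CarDefs

/-- The statement of the hand-in. -/
def S_FINAL : Prop :=
    ∀ (D : Type) [NonUnitalCStarAlgebra D] [SeparableSpace D], Nuclear D →
    ∃ (A : Type) (_ : CStarAlgebra A) (γ : CircleAction A), IsCAR A ∧ StrApprInner γ ∧
      (∀ z : Circle, orderOf z ≠ 0 → UnitalSimple (FixAlg γ {z}) ∧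
        TracialRankZero (FixAlg γ {z}) ∧ Monotracial (FixAlg γ {z})) ∧
      ∀ T : Groups, IsTheory T →
        (T.Zero (FixAlg γ Set.univ) ↔ T.Zero D) ∧
        (∀ z : Circle, z ≠ 1 → ¬ IsPrimePow (orderOf z) →
          (T.Zero (FixAlg γ {z}) ↔ T.Zero D)) ∧
        (∀ (z : Circle) (p e : ℕ), p.Prime → orderOf z = p ^ (e + 1) →
          (T.Zero (FixAlg γ {z}) ↔ ∀ i, PComplete p (T.F i D))) ∧
        (∀ z z' : Circle, z ≠ 1 → z' ≠ 1 → (orderOf z).Coprime (orderOf z') →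
          ((T.Zero (FixAlg γ {z}) ∧ T.Zero (FixAlg γ {z'})) ↔ T.Zero D))

/-- Theories in the two forms. -/
def toTheory (T : Groups) (h : IsTheory T) : Theory where
  F i A _ := ⟨T.F i A⟩
  map i := T.map i
  map_id i A _ _ x := h.functorial.1 i A (NonUnitalStarAlgHom.id ℂ A) (fun _ => rfl) x
  map_comp i A B C _ _ _ _ _ _ f g x :=
    h.functorial.2 i A B C f g (g.comp f) (fun _ => rfl) x
  homotopy i A B _ _ _ _ k hk := h.homotopy i A B (k 0) (k 1) ⟨k, hk, rfl, rfl⟩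
  stable i A M _ _ _ _ ι iι e he j k hk := h.stable i A M k ⟨ι, iι, e, j, he, hk⟩
  exact i J A Q _ _ _ _ _ _ u q h1 h2 h3 := by
    obtain ⟨h4, d, h5, h6⟩ := h.exact i J A Q u q ⟨h1, h2, h3⟩
    exact ⟨d, h4, h5, h6⟩
  milnor i A _ _ B _ _ j u h1 h2 h3 := h.milnor i A B j u
    ⟨fun k => ⟨h1 k, fun b => (h2 k b).symm⟩, h3⟩
  point := h.point

theorem final_of_main6 (h : S_MAIN6) : S_FINAL := by
  intro D _ _ hD
  obtain ⟨A, iA, γ, h1, h2, h3, h4⟩ := h D hD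
  exact ⟨A, iA, γ, h1, h2, h3, fun T hT => h4 (toTheory T hT)⟩

end Pool.Agent.Helper39.CR
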