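import Pool.Agent.Helper39.CR.Parts6
import Pool.Agent.Helper39.CR.CUT
import Pool.Agent.Helper2.CAR.OMGQ
import Pool.Agent.Helper48.CAR.EPP

/-!
Project CAR: the final theorem.
-/

namespace Pool.Agent.Helper39.CR

open Pool.Agent.Helper34.CAR

theorem p_CUT : S_CUT := cut
theorem p_OMGQ : S_OMGQ := Pool.Agent.Helper2.CAR5.omgq p_SSTR kinj
theorem p_EPP : S_EPP := Pool.Agent.Helper48.CAR.epp p_CUT p_INV p_ESS p_OMGQ

theorem final : S_FINAL := final_of_main6 (main6_core p_EPP)

end Pool.Agent.Helper39.CR
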