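import Pool.Agent.Helper39.CR.GoalsS

/-!
Project CAR (MP_d97caa_an), stage 3: elements of prime power order. Goal statements.
-/

open scoped ComplexOrder ZeroAtInfty
open TopologicalSpace

namespace Pool.Agent.Helper39.CR

open Pool.Agent.Helper34.CAR Pool.Agent.Helper39.Uct

noncomputable section

/-- `lim = lim¹ = 0` for the inverse system `G ← G ← G ← ..` with the multiplication by `p` as
connecting map (`G` is Ext-`p`-complete). -/
def PComp (p : ℕ) (G : Type) [AddCommGroup G] : Prop :=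
  (∀ y : ℕ → G, (∀ k, p • y (k + 1) = y k) → ∀ k, y k = 0) ∧
  ∀ z : ℕ → G, ∃ t : ℕ → G, ∀ k, z k = t k - p • t (k + 1)

/-- CHN. `C(T)` : for an endomorphism `T` of an abelian group `M`, the map `t ↦ (t k - T (t (k+1)))_k` of `M^ℕ` is
bijective (injectivity: `t k = T (t (k+1))` for all `k` implies `t = 0`). If `T^a = P V` and `P^b = T H` with commuting endomorphisms, `a, b ≥ 1`, then
`C(P)` implies `C(T)` (and by symmetry the converse).
Proof. (i) `C(P)` implies `C(P V)`: for `z` and `l` let `s l` be the solution of `s l j = V^j (z (l+j)) + P (s l (j+1))`, `t l = s l 0`. By uniqueness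
`s l (j+1) = V (s (l+1) j)`, so `t l = z l + P (s l 1) = z l + P V (t (l+1))`. Uniqueness: if `t k = P V (t (k+1))` then for each `l` the sequence `V^j (t (l+j))` solves the homogeneous
system of `P`, so `t l = 0`. (ii) `C(T^a)` implies `C(T)`, `a ≥ 1`: let `w k = ∑_{i<a} T^i (z (k+i))`; for each residue class `C(T^a)` gives `t` with `t k = w k + T^a (t (k+a))` for all `k`
(write `k = a j + r`). `t' k = z k + T (t (k+1))` satisfies the same equation (`z k + T (w (k+1)) = w k + T^a (z (k+a))`), so `t' = t` by uniqueness. Uniqueness: `t k = T (t (k+1))` gives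
`t k = T^a (t (k+a))`, so `t = 0` on each residue class. (iii) `C(P) → C(P V) = C(T^a) → C(T)`. -/
def S_CHN : Prop := ∀ (M : Type) [AddCommGroup M] (T P V : AddMonoid.End M) (a : ℕ), 1 ≤ a →
  T ^ a = P * V → P * V = V * P →
  ((∀ y : ℕ → M, (∀ k, P (y (k + 1)) = y k) → ∀ k, y k = 0) ∧
    ∀ z : ℕ → M, ∃ t : ℕ → M, ∀ k, z k = t k - P (t (k + 1))) →
  (∀ y : ℕ → M, (∀ k, T (y (k + 1)) = y k) → ∀ k, y k = 0) ∧
    ∀ z : ℕ → M, ∃ t : ℕ → M, ∀ k, z k = t k - T (t (k + 1))

/-- ALGP. Prime powers `n = p^(e+1)`: `lim = lim¹ = 0` for `(G^(ℤ/n), 1 - shift)` iff the same holds for `(G, p)`.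
Proof (uses CHN). `M = (ZMod n → G)`, `(X y) j = y (j+1)`, `T = 1 - X`, `M1 = {y : ∑ y j = 0}` (an `AddSubgroup`, stable under `X`). Notation `C(·)` of CHN; `LL n G` is `C(T)` on `M`, `PComp p G` is `C(p)` on `G`.
(a) `C(T on M) ↔ C(T on M1)`: `T M = M1` (`m j = - ∑_{l < j.val} y l`, see ALGM). `→`: `z k = T (m k)`, `m k = t' k - T (t' (k+1))`, `t k = T (t' k)`; uniqueness is clear. `←`: for `z` solve `t' k = T (z k) + T (t' (k+1))`
in `M1` and put `t k = z k + t' (k+1)`; a homogeneous solution `t k = T (t (k+1))` lies in `M1`. (b) `C(T on M1) ↔ C(p on M1)` by CHN twice: `p^(e+1) = n = T H` on `M1`, `H y = ∑_{k=1}^{n-1} ∑_{l<k} X^l y` (see ALGM), and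
`T^n = p V`: in `(ZMod p)[X]`, `(1 - X)^n = 1 - X^n` (`sub_pow_char_pow`), so `(1-X)^n - (1 - X^n) = p W` in `ℤ[X]`, and `X^n = 1` on `M`. (c) `C(p on M1) ↔ C(p on G)`: `←` componentwise (the sum of the components
solves the homogeneous system, so it is `0`); `→` with the elements `(g at 0, -g at 1)`, `n ≥ 2`. -/
def S_ALGP : Prop := ∀ (p : ℕ), p.Prime → ∀ (e : ℕ) (G : Type) [AddCommGroup G],
  (LL (p ^ (e + 1)) G ↔ PComp p G)

/-- TLL. The theory of the fixed point algebra vanishes iff `lim = lim¹ = 0` for `(F_i(B)^(ℤ/n), 1 - shift)`, `n ≥ 1`.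
Proof. `→` is TFWD (helper44: `Helper44/CAR/TFWD.lean`). `←` with the same set-up (`G k = Gd B (wz s n (k + n))`, components by TGR, connecting map by TKD, all residues occur by TWS, `u` by TTOW): for
`y ∈ F_i(Fix)` the restrictions to `G k` are coherent, so their components are `0` by the first half of `LL` for `F_i(B)`, so they are `0` (TGR (3)); so `y = d z` with `z ∈ ∏ F_{i+1}(G k)`
(`milnor`); by the second half of `LL` for `F_{i+1}(B)` (components, TGR (2), (3)) `z k = t k - map (j k) (t (k+1))`, so `d z = 0`. -/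
def S_TLL : Prop := ∀ (T : Theory) (B : Type) [CStarAlgebra B] [SeparableSpace B]
  (θ : B →⋆ₐ[ℂ] B) (s : Sys B θ) (L : Type) [CStarAlgebra L] [SeparableSpace L]
  (ι : ∀ i, s.A i →⋆ₐ[ℂ] L), IsLim s L ι → ∀ (γ : CircleAction L) (Z : Set Circle) (n : ℕ),
  1 ≤ n → FixD s ι γ Z n →
  (∀ (i : ZMod 2) (g : B →⋆ₙₐ[ℂ] B), (∀ b, g b = θ b) → ∀ x : T.F i B, T.map i g x = -x) →
  (∀ i : ZMod 2, LL n (T.F i B)) → T.Zero (Fix γ Z)

end

end Pool.Agent.Helper39.CR
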