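import Pool.Agent.Helper39.CR.SBase

/-!
Project CAR (MP_d97caa_an), stage 3: simplicity and unique trace of the fixed point algebras of
elements of finite order. Goal statements. Notation: `B = Unitization ℂ X`, `θ = starMap θ₀`.
The system `s` is over `B`; entries of elements of the stages `s.A k = Mt (s.S k) B` lie in `B`;
`b.fst : ℂ` is the value of the character of `b : B`.
-/

open scoped ComplexOrder ZeroAtInfty
open TopologicalSpace

namespace Pool.Agent.Helper39.CR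

open Pool.Agent.Helper34.CAR Pool.Agent.Helper39.Uct

noncomputable section

/-! ## Simplicity -/

/-- OMG. In a matricial system no nonzero element stays in the kernel of the character.
Proof (uses KINJ). Suppose `(push k m a) x y` has `fst = 0` for all `m, x, y`. `push k m` is the iterate of the injective *-homomorphisms
`κ`, so it is isometric (`NonUnitalStarAlgHom.norm_map` or `isometry`); by the last clause of `Matricial` with `ε = ‖a‖ / 2 > 0` there are `m`, `x`
with `‖push k m a - star v * scal x * v‖ < ε`, `v = v (k + m)` unitary. Apply `ω = Mt.map (Unitization.fstHom ℂ X)`-like (the entrywise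
character `B →⋆ₐ[ℂ] ℂ`, `Mt S B →⋆ₐ[ℂ] Mt S ℂ`), which is contractive: `ω (push a) = 0`, `ω (scal x) = x`, so `‖star (ω v) * x * ω v‖ < ε`, and
`ω v` is unitary, so `‖x‖ < ε` (`x = ω v * (star (ω v) * x * ω v) * star (ω v)`), `‖scal x‖ ≤ ‖x‖` (`scal : Mt S ℂ → Mt S B` is `Mt.map` of the unital *-homomorphism
`ℂ → B`), so `‖star v * scal x * v‖ < ε` and `‖a‖ = ‖push a‖ < 2 ε = ‖a‖`. -/
def S_OMG : Prop := ∀ (X : Type) [NonUnitalCStarAlgebra X] (θ : X →⋆ₙₐ[ℂ] X)
  (s : Sys (Unitization ℂ X) (Unitization.starMap θ)), s.Matricial → ∀ (k : ℕ) (a : s.A k),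
  a ≠ 0 → ∃ (m : ℕ) (x y : s.S (k + m)), (s.push k m a x y).fst ≠ 0

/-- SSTR. The structure of the images of a matrix with entries in `X`.
Proof. Induction on `m`; `m = 0`: `P = True`. Step: `push k (m+1) a = κ (push k m a)`, with the entries `K ((push k m a) (e x).1 (e y).1) (e x).2 (e y).2`
(`Sys.κ_apply`). `P' x = P (e x).1 ∧ ((e x).2 = c0 ∨ (e x).2 = c1)`. Cases (clauses of `s.step`): both `P`: the entry `b` has `fst = 0`, `K b c0 c0 = θ b` (`fst` is
preserved by `starMap`), `K b c1 c1 = b`, `K b c d = 0` if `c ≠ d` and one of them is `c0` or `c1`, a scalar if none is. Both not `P`: `b` is a scalar,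
`K b c d` is this scalar or `0` (`AlgHomClass.commutes`, `Mt.algebraMap_apply`). Exactly one `P`: `b = 0`. If all `card (C i) = 2`, every element of `C i` is `c0` or `c1`
(`c0 ≠ c1`), so `P'` is everything. -/
def S_SSTR : Prop := ∀ (X : Type) [NonUnitalCStarAlgebra X] (θ : X →⋆ₙₐ[ℂ] X)
  (s : Sys (Unitization ℂ X) (Unitization.starMap θ)) (k : ℕ) (a : s.A k),
  (∀ x y, (a x y).fst = 0) → ∀ m : ℕ, ∃ P : s.S (k + m) → Prop,
    (∀ x y, (P x → P y → (s.push k m a x y).fst = 0) ∧ (¬ (P x ↔ P y) → s.push k m a x y = 0) ∧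
      (¬ P x → ¬ P y → ∃ c : ℂ, s.push k m a x y = algebraMap ℂ (Unitization ℂ X) c)) ∧
    ((∀ i, k ≤ i → i < k + m → Fintype.card (s.C i) = 2) → ∀ x, P x)

/-- ESS. `C₀(ℝ, E)` is essential in its unitization, unless `E = 0`.
Proof. `b = λ + f ≠ 0`. If `λ = 0` take `x = star f` (`f * star f ≠ 0`). If `λ ≠ 0` let `y ≠ 0` in `E`, and for `T : ℝ` let
`x_T t = (max 0 (1 - |t - T|)) • y` (in `C₀(ℝ, E)`, compact support). `b * x_T` is the element of `C₀(ℝ, E)` with the value `λ y + f(T) y` at `T`. If all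
`b * x_T = 0` then `|λ| ‖y‖ ≤ ‖f T‖ ‖y‖` for all `T`; but `f T → 0` as `T → ∞` (`zero_at_infty`), so `λ = 0`, a contradiction. -/
def S_ESS : Prop := ∀ (E : Type) [NonUnitalCStarAlgebra E], (∃ y : E, y ≠ 0) →
  ∀ b : Unitization ℂ C₀(ℝ, E), b ≠ 0 → ∃ x : C₀(ℝ, E), b * (x : Unitization ℂ C₀(ℝ, E)) ≠ 0

/-- SIMA. The ideal generated by a nonzero element contains an element with a nonzero scalar entry.
Proof (uses OMG, SSTR, ESS). `a x y ≠ 0` for some `x, y`. If `E = 0` then `C₀(ℝ, E) = 0`, `B = ℂ`, all entries are scalars: `z = 1`, `m = 0`. Otherwise ESS gives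
`e : C₀(ℝ, E)` with `a x y * e ≠ 0`; `z = Mt.single y y e`; `a * z ≠ 0` (entry `(x, y)`), it has entries in the ideal `C₀(ℝ, E)` (`fst = 0`). By OMG there are
`m, p, q` with `((push (a * z)) p q).fst ≠ 0`. By SSTR, with `P`: `P p, P q` both true is impossible (`fst = 0`), exactly one true is impossible (`= 0`), so the entry is a
scalar `μ` and `μ = fst ≠ 0`. -/
def S_SIMA : Prop := ∀ (E : Type) [NonUnitalCStarAlgebra E]
  (s : Sys (Unitization ℂ C₀(ℝ, E)) (Unitization.starMap (flip E))), s.Matricial →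
  ∀ (n k : ℕ) (a : s.A k), a ∈ grd (Unitization ℂ C₀(ℝ, E)) (wz s n k) → a ≠ 0 →
  ∃ z ∈ grd (Unitization ℂ C₀(ℝ, E)) (wz s n k), ∃ (m : ℕ) (p q : s.S (k + m)) (μ : ℂ), μ ≠ 0 ∧
    s.push k m (a * z) p q = algebraMap ℂ (Unitization ℂ C₀(ℝ, E)) μ

/-- IDL. A closed ideal `≠ 0` meets the members of a dense union of subalgebras.
Proof (uses QT of project Uct: `Helper39.Uct.t_QT`, or take `S_QT` as hypothesis). `I = closure (idl c)` is a closed subspace, a two-sided ideal (multiplication is continuous) and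
closed under `star` (`star c = c`). `π : H → H'` the quotient map. Suppose `u k a ∈ I` only for `a = 0`. Then `π ∘ u k` is injective, so isometric, so
`‖π h‖ = ‖h‖` for `h` in the dense set `⋃ range (u k)`, hence for all `h`. `c * c * c ∈ idl c` (`m = 1`), so `π (c * c * c) = 0`, `c * c * c = 0`, `(c*c)*(c*c) = 0`, and
`c = 0` by the C*-identity (`‖c * c‖ = ‖c‖²` twice). -/
def S_IDL : Prop := ∀ (H : Type) [NonUnitalCStarAlgebra H] (G : ℕ → Type)
  [∀ k, NonUnitalCStarAlgebra (G k)] (u : ∀ k, G k →⋆ₙₐ[ℂ] H), (∀ k, Function.Injective (u k)) →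
  Dense (⋃ k, Set.range (u k)) → ∀ c : H, star c = c → c ≠ 0 →
  ∃ (k : ℕ) (a : G k), a ≠ 0 ∧ u k a ∈ closure (idl c)

/-- SPRD. A full corner spreads over all weights.
Proof. `I k` stands for the set of the `a ∈ G k` that are mapped to a given ideal. (1) If `single p p 1 ∈ I k` (`p : S k`) then
`single (p,c) (p,c) 1 = single (p,c) (p,c) 1 * κ (single p p 1) * single (p,c) (p,c) 1 ∈ I (k+1)` for all `c`, where `(p,c) = (e k).symm (p, c)`; its weight is `wt p + 1` for
`c = c0`, `wt p` for `c = c1`. By induction on `d`: for all `r ≤ d` there is `p' : S (k+d)` with `wt p' = wt p + r`, `single p' p' 1 ∈ I (k + d)`. (2) For `d = n`, every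
`l : S (k + n)` has `wt l ≡ wt p + r` mod `n` for some `r ≤ n` (`n ≥ 1`), so `single l p' 1`, `single p' l 1` are in `grd` and `single l l 1 ∈ I (k+n)`; the sum over `l` is `1`. -/
def S_SPRD : Prop := ∀ (B : Type) [CStarAlgebra B] (θ : B →⋆ₐ[ℂ] B) (s : Sys B θ) (n : ℕ),
  1 ≤ n → ∀ I : ∀ k, Set (Gd B (wz s n k)), (∀ k a b, a ∈ I k → b ∈ I k → a + b ∈ I k) →
  (∀ k, (0 : Gd B (wz s n k)) ∈ I k) → (∀ k a b c, b ∈ I k → a * b * c ∈ I k) →
  (∀ k a, a ∈ I k → kd s n k a ∈ I (k + 1)) →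
  ∀ (k : ℕ) (p : s.S k), cd B (wz s n k) p 1 ∈ I k → ∑ x, cd B (wz s n (k + n)) x 1 ∈ I (k + n)

/-- SIMP. The fixed point algebras of elements of finite order are simple.
Proof (uses TTOW, IDL, SIMA, SPRD). `H = Fix γ Z`, `u` from TTOW; `e = ⟨1, _⟩` is a unit of `H`, `e ≠ 0` (`L` is nontrivial: `B` is, `ι 0` is injective). Let `b ≠ 0`,
`c = star b * b` (`≠ 0`, self-adjoint). It suffices to write `e = ∑ x l * c * y l` (then `x l * star b * b * y l`). IDL gives `k`, `a : Gd B (wz s n k)`, `a ≠ 0`,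
`u k a ∈ J = closure (idl c)`. `J` is a closed two-sided ideal of `H`. SIMA: `z`, `m`, `p`, `q`, `μ`. `push k m (a z)` is in `grd` (iterate `kd`; as `u (k+m) (iterate) = u k ..`, it is
mapped to `J`), and its entry at `(p, q)` is `μ ≠ 0`, so `w p = w q`, and `single p p 1 * push (a z) * single q p (μ⁻¹) = single p p 1`; so
`u (k+m) (cd p 1) ∈ J`. SPRD with `I k = {a | u k a ∈ J}`: `e = u _ (∑ x, cd x 1) ∈ J`. So some `j ∈ idl c` has `‖e - j‖ < 1`; `j` is invertible in `L` (`Units` from `‖1 - j‖ < 1`) and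
its inverse is fixed by `γ` (`γ z (j⁻¹)` is an inverse of `γ z j = j`), so `e = j⁻¹ * j` is in `idl c`. -/
def S_SIMP : Prop := ∀ (E : Type) [NonUnitalCStarAlgebra E]
  (s : Sys (Unitization ℂ C₀(ℝ, E)) (Unitization.starMap (flip E))), s.Matricial →
  ∀ (L : Type) [CStarAlgebra L] (ι : ∀ i, s.A i →⋆ₐ[ℂ] L), IsLim s L ι →
  ∀ (γ : CircleAction L) (Z : Set Circle) (n : ℕ), 1 ≤ n → FixD s ι γ Z n → IsSimpleU (Fix γ Z)

/-! ## Unique trace -/

/-- BIG. A matricial system has infinitely many steps of size `≥ 4`, unless `X = 0`.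
Proof (uses OMG, SSTR). Otherwise `card (C i) = 2` for all `i ≥ N` (`card = 2^a`, `≥ 2` because `c0 ≠ c1`, and `< 4`). Take `x ≠ 0` in `X` and any `t : S N`
(e.g. `top N`), `a = Mt.single t t x ≠ 0`, with entries in `X`. SSTR: `P` holds everywhere, so all entries of all `push N m a` have `fst = 0`, against OMG. -/
def S_BIG : Prop := ∀ (X : Type) [NonUnitalCStarAlgebra X] (θ : X →⋆ₙₐ[ℂ] X)
  (s : Sys (Unitization ℂ X) (Unitization.starMap θ)), s.Matricial → (∃ x : X, x ≠ 0) →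
  ∀ N, ∃ i ≥ N, 4 ≤ Fintype.card (s.C i)

/-- PFB. Positive functionals on unital C*-algebras.
Proof. Cauchy-Schwarz for the positive semidefinite form `⟪a, b⟫ = f (star a * b)`: `‖f b‖² ≤ f 1 * f (star b * b)` (or expand `0 ≤ f (star (1 + t b) * (1 + t b))`), and
`‖b‖² - star b * b = star c * c` (`IsSelfAdjoint.le_algebraMap_norm_self`, `CStarAlgebra.nonneg_iff_eq_star_mul_self`, with the spectral order
`CStarAlgebra.spectralOrder B`), so `f (star b * b) ≤ ‖b‖² f 1`. -/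
def S_PFB : Prop := ∀ (B : Type) [CStarAlgebra B] (f : B →ₗ[ℂ] ℂ), (∀ b, 0 ≤ f (star b * b)) →
  ∀ b, ‖f b‖ ≤ ‖b‖ * (f 1).re

/-- TRM. A compatible family of tracial states takes the same value on all diagonal matrix units.
Proof. `m k x = (τ k (cd x 1)).re`, `τ k (cd x 1) ≥ 0` (`cd x 1 = star (cd x 1) * cd x 1`). It depends only on the residue `wz s n k x = r` (for `w x = w y`:
`cd x 1 = V * V*`, `cd y 1 = V* * V`, `V = single x y 1`). So `m k x = M k (w x)`, `M k : ZMod n → ℝ`, `M k ≥ 0` (put `M k r = 0` for residues that do not occur; for `k ≥ n - 1` all occur, TWS). `kd (cd x 1) = ∑ c, cd (x, c) 1`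
gives `M k r = (c_k - 1) M (k+1) r + M (k+1) (r+1)`, `c_k = card (C k)`, for `r` occurring at stage `k`, in particular for all `r` if `k ≥ n`. `N k = card (S k) = ∏_{i<k} c_i`, `p k r = #{x | w x = r} / N k` satisfies
`p (k+1) r = (1 - 1/c_k) p k r + (1/c_k) p k (r - 1)`, so `min_r p k r` is nondecreasing in `k`, and positive for `k ≥ n` : `p k r ≥ p₀ > 0` for `k ≥ n`. `∑_r p k r * (N k * M k r) = 1`
(clause `one`), so `0 ≤ N k * M k r ≤ 1 / p₀`. Let `δ k r = N k * (M k (r+1) - M k r)`: `δ k = (1 - 1/c_k) δ (k+1) + (1/c_k) S (δ (k+1))`, `(S f) r = f (r+1)`, so `δ k = Q δ (k')` for `k ≤ k'` with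
`Q = ∏ ((1 - 1/c_i) + (1/c_i) S)`. `‖·‖` the maximum norm. The factors commute and do not increase the norm; among `k ≤ i < k'` with `k'` large there are `n * j` indices with `c_i = 2`, so
`‖δ k‖ ≤ ‖((1+S)/2)^(n j) δ k'‖`. On functions with sum `0` (`δ k'` is one; all polynomials in `S` preserve this) `‖((1+S)/2)^n f‖ ≤ (1 - 2^{-n}) ‖f‖`, because
`((1+S)/2)^n = ∑_i binom(n,i) 2^{-n} S^i`, all residues `i = 0..n-1` occur, `∑_{i<n} S^i f = 0`, so one can subtract `2^{-n} ∑_{i<n} S^i`. So `‖δ k‖ ≤ (1 - 2^{-n})^j * 2/p₀ → 0`: `δ k = 0` for `k ≥ n`, `M k` is constant `= 1 / N k` (clause `one`) for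
`k ≥ n`, and for `k < n` by the recursion (`τ k (cd x 1) = ∑_c τ (k+1) (cd (x,c) 1)`, downward induction). -/
def S_TRM : Prop := ∀ (B : Type) [CStarAlgebra B] (θ : B →⋆ₐ[ℂ] B) (s : Sys B θ) (n : ℕ),
  1 ≤ n → (∀ N, ∃ i ≥ N, Fintype.card (s.C i) = 2) → ∀ τ : (∀ k, Gd B (wz s n k) →ₗ[ℂ] ℂ),
  TrFam s n τ → ∀ k x, τ k (cd B (wz s n k) x 1) = ((Fintype.card (s.S k) : ℂ))⁻¹

/-- TRU. Compatible families of tracial states are unique.
Proof (uses TRM, PFB). `N k = card (S k)`. For `x : S k`, `b : B` let `g k x b = τ k (cd x b) - τ' k (cd x b)`. By PFB for `b ↦ τ k (cd x b)` and TRM, `‖g k x b‖ ≤ 2 ‖b‖ / N k`. Scalars: `g k x (λ) = 0` by TRM.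
`kd (cd x b) = cd (x,c0) (θ b) + cd (x,c1) b + ∑_{c, d ∉ {c0,c1}} single (x,c) (x,d) (K b c d)` with scalars `K b c d`; the trace of `single (x,c) (x,d) t` is `0` for `c ≠ d` (trace property with the projection `cd (x,c) 1`), and the diagonal ones are
scalar multiples of `cd (x,c) 1`. So `g k x b = g (k+1) (x,c0) (θ b) + g (k+1) (x,c1) b`. By induction on `m`: `‖g k x b‖ ≤ 2^m * 2 ‖b‖ / N (k + m) = (∏_{k ≤ i < k+m} (2 / c_i)) * 2 ‖b‖ / N k`, `c_i = card (C i)`
(`‖θ b‖ ≤ ‖b‖`). If infinitely many `c_i ≥ 4` this tends to `0` (`c_i ≥ 2`), so `g = 0`. If `X = 0` all `b` are scalars. Finally `a = ∑ single x y (a x y)` over `w x = w y`, and `τ k` vanishes on `single x y b`, `x ≠ y`. -/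
def S_TRU : Prop := ∀ (X : Type) [NonUnitalCStarAlgebra X] (θ : X →⋆ₙₐ[ℂ] X)
  (s : Sys (Unitization ℂ X) (Unitization.starMap θ)) (n : ℕ), 1 ≤ n →
  (∀ N, ∃ i ≥ N, Fintype.card (s.C i) = 2) →
  ((∀ x : X, x = 0) ∨ ∀ N, ∃ i ≥ N, 4 ≤ Fintype.card (s.C i)) →
  ∀ τ τ' : (∀ k, Gd (Unitization ℂ X) (wz s n k) →ₗ[ℂ] ℂ), TrFam s n τ → TrFam s n τ' →
  ∀ k a, τ k a = τ' k a

/-- CTR. The CAR algebra has a tracial state.
Proof. On `M_N(ℂ)`, `N = 2^e`, let `t a = (∑ a i i) / N`: positive, tracial, `t 1 = 1`, `‖t a‖ ≤ ‖a‖` (entries are bounded by the norm). It is the only linear functional with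
`t 1 = 1`, `t (a b) = t (b a)`; so for a unital *-homomorphism `φ : M_N(ℂ) → M_{N'}(ℂ)` one has `t' ∘ φ = t`. `j i (x) = j (i+1) (φ x)` for `φ = (j (i+1))⁻¹ ∘ j i` (injectivity and inclusion of the ranges; `φ` is a unital
*-homomorphism). So the functionals `t` define `τ₀` on the subspace `⋃ range (j i)` (increasing), with `‖τ₀ b‖ ≤ ‖b‖` (`j i` is isometric); extend by continuity
(e.g. `LinearMap.extend` / `ContinuousLinearMap.extend` from the dense submodule, or define `τ b` as the limit). Positivity and the trace property pass to the limit. -/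
def S_CTR : Prop := ∀ (A : Type) [CStarAlgebra A], IsCAR A → ∃ τ : A →ₗ[ℂ] ℂ, IsTrState τ

/-- MONO. The fixed point algebras of elements of finite order have a unique tracial state.
Proof (uses TTOW, TRU, BIG, CTR). Existence: restrict the trace of `L` (CTR; the unit of `Fix γ Z` is `1`: `e` with `IsOne e` satisfies `e = e * 1 = 1`). Uniqueness: `u` from TTOW;
`τ k = τ ∘ u k` is a `TrFam` (clause `one`: `∑ x, cd x 1 = 1` is mapped to `1`); BIG gives the alternative of TRU with `X = C₀(ℝ, E)`; so `τ = τ'` on the dense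
`⋃ range (u k)`, and both are continuous. -/
def S_MONO : Prop := ∀ (E : Type) [NonUnitalCStarAlgebra E]
  (s : Sys (Unitization ℂ C₀(ℝ, E)) (Unitization.starMap (flip E))), s.Matricial →
  (∀ N, ∃ i ≥ N, Fintype.card (s.C i) = 2) →
  ∀ (L : Type) [CStarAlgebra L] (ι : ∀ i, s.A i →⋆ₐ[ℂ] L), IsLim s L ι → IsCAR L →
  ∀ (γ : CircleAction L) (Z : Set Circle) (n : ℕ), 1 ≤ n → FixD s ι γ Z n →
  ∃! τ : Fix γ Z →ₗ[ℂ] ℂ, IsTrState τ

/-- SYS2. The recursion of SYS with infinitely many steps of size 2.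
Proof. As SYS (see `S_SYS`, `S_SYS1` in Helper34/CAR/GoalsB.lean; copy its proof), but at odd stages the step is the trivial one: `C = Fin 2` (or `Bool`), `c0 = 0`,
`c1 = 1`, `K b = diag(θ b, b)`, `w = 1`, `v' = kapF K v`. `StepAt θ ∅ 1` holds (no other indices), `v'` is unitary and `kapF K (star v * scal x * v) = star v' * scal (x ⊗ 1) * v'` as in SYS1 (`kapF K (scal x) = scal (x ⊗ 1)` because
`K` is unital, `θ 1 = 1`). The last clause of `Matricial` only needs infinitely many good stages. -/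
def S_SYS2 : Prop := ∀ (B : Type) [CStarAlgebra B] [TopologicalSpace.SeparableSpace B]
  (θ : B →⋆ₐ[ℂ] B), StepProp B θ → ∃ s : Sys B θ, s.Matricial ∧
    ∀ N, ∃ i ≥ N, Fintype.card (s.C i) = 2

end

end Pool.Agent.Helper39.CR
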