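import Pool.Agent.Helper39.CR.GoalsS
import Pool.Agent.Helper19.CAR.SYS1
import Pool.Agent.Helper32.CAR.SYS

/-!
# Project CAR, packet SYS2: the recursion with infinitely many steps of size 2

Adapted from helper32's `CAR/SYS.lean`.
-/

set_option autoImplicit false

open Filter Topology

namespace Pool.Agent.Helper39.CR.Sys2

open Pool.Agent.Helper34.CAR

section recursion

variable {B : Type} [CStarAlgebra B]

/-- The state of the recursion. -/
structure St (B : Type) [CStarAlgebra B] where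
  S : Type
  fS : Fintype S
  dS : DecidableEq S
  v : Mt S B
  hv1 : star v * v = 1
  hv2 : v * star v = 1
  G : ℕ → ℕ → Mt S B

instance (σ : St B) : Fintype σ.S := σ.fS
instance (σ : St B) : DecidableEq σ.S := σ.dS

/-- The finite set of elements at step `i`. -/
noncomputable def St.F (σ : St B) (i : ℕ) : Finset (Mt σ.S B) :=
  open Classical in
  (Finset.range (i + 1) ×ˢ Finset.range (i + 1)).image fun q => σ.G q.1 q.2

theorem St.mem_F (σ : St B) {i j m : ℕ} (hj : j ≤ i) (hm : m ≤ i) : σ.G j m ∈ σ.F i := by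
  classical
  unfold St.F
  refine Finset.mem_image.2 ⟨(j, m), ?_, rfl⟩
  rw [Finset.mem_product, Finset.mem_range, Finset.mem_range]
  exact ⟨Nat.lt_succ_of_le hj, Nat.lt_succ_of_le hm⟩

/-- The data of a step. -/
structure StepD (θ : B →⋆ₐ[ℂ] B) (σ : St B) (i : ℕ) where
  a : ℕ
  C : Type
  fC : Fintype C
  dC : DecidableEq C
  c0 : C
  c1 : C
  K : B →⋆ₐ[ℂ] Mt C B
  w : Mt C B
  v' : Mt (σ.S × C) B
  card : Fintype.card C = 2 ^ a
  step : StepAt θ ∅ 1 C c0 c1 K w
  hv1 : star v' * v' = 1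
  hv2 : v' * star v' = 1
  comp : ∀ x : σ.S → σ.S → ℂ, ∃ x' : σ.S × C → σ.S × C → ℂ,
    kapF K (star σ.v * Mt.scal x * σ.v) = star v' * Mt.scal x' * v'
  approx : i % 2 = 0 → ∀ g ∈ σ.F i, ∃ x' : σ.S × C → σ.S × C → ℂ,
    ‖kapF K g - star v' * Mt.scal x' * v'‖ < 1 / ((i : ℝ) + 1)
  two : i % 2 = 1 → Fintype.card C = 2

/-- The trivial step `K b = diag(θ b, b)`. -/
noncomputable def Ktriv (θ : B →⋆ₐ[ℂ] B) : B →⋆ₐ[ℂ] Mt (Fin 2) B where
  toFun b := Mt.of fun x y => if x = y then (if x = 0 then θ b else b) else 0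
  map_one' := by
    ext x y
    rw [Mt.of_apply, Mt.one_apply, map_one]
    split_ifs <;> rfl
  map_mul' a b := by
    ext x y
    rw [Mt.of_apply, Mt.mul_apply, map_mul]
    fin_cases x <;> fin_cases y <;> simp
  map_zero' := by
    ext x y
    rw [Mt.of_apply, Mt.zero_apply, map_zero]
    split_ifs <;> rfl
  map_add' a b := by
    ext x y
    rw [Mt.of_apply, Mt.add_apply, Mt.of_apply, Mt.of_apply, map_add]
    split_ifs <;> simp
  commutes' c := by
    ext x y
    rw [Mt.of_apply, Mt.algebraMap_apply, AlgHomClass.commutes]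
    split_ifs <;> rfl
  map_star' a := by
    ext x y
    rw [Mt.of_apply, Mt.star_apply, Mt.of_apply, map_star]
    fin_cases x <;> fin_cases y <;> simp

theorem Ktriv_apply (θ : B →⋆ₐ[ℂ] B) (b : B) (x y : Fin 2) :
    Ktriv θ b x y = if x = y then (if x = 0 then θ b else b) else 0 := rfl

theorem stepAt_triv (θ : B →⋆ₐ[ℂ] B) : StepAt θ ∅ 1 (Fin 2) 0 1 (Ktriv θ) 1 := by
  refine ⟨by decide, by rw [star_one, one_mul], by rw [star_one, mul_one], ?_, ?_, ?_, ?_, ?_⟩
  · intro b
    rw [Ktriv_apply]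
    simp
  · intro b
    rw [Ktriv_apply]
    simp
  · intro b x y hxy _
    rw [Ktriv_apply, if_neg hxy]
  · intro b x y h0 h1
    exfalso
    fin_cases x
    · exact h0 rfl
    · exact h1 rfl
  · intro b hb
    simp at hb

theorem kapF_scal {S C : Type} [Fintype S] [DecidableEq S] [Fintype C] [DecidableEq C]
    (K : B →⋆ₐ[ℂ] Mt C B) (x : S → S → ℂ) : ∃ x' : S × C → S × C → ℂ,
      kapF K (Mt.scal x) = Mt.scal x' := by
  refine ⟨fun p q => if p.2 = q.2 then x p.1 q.1 else 0, ?_⟩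
  ext p q
  rw [Pool.Agent.Helper19.CAR.kapF_apply, Mt.scal_apply, Mt.scal_apply, AlgHomClass.commutes,
    Mt.algebraMap_apply]
  split_ifs
  · rfl
  · rw [map_zero]

theorem exists_stepD (hS : S_SYS1) {θ : B →⋆ₐ[ℂ] B} (hθ : StepProp B θ) (σ : St B) (i : ℕ) :
    Nonempty (StepD θ σ i) := by
  rcases Nat.mod_two_eq_zero_or_one i with h0 | h1
  · obtain ⟨a, C, fC, dC, c0, c1, K, w, v', h1, h2, h3, h4, h5, h6⟩ :=
      hS B θ hθ σ.S σ.v σ.hv1 σ.hv2 (σ.F i) (1 / ((i : ℝ) + 1)) (by positivity)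
    exact ⟨⟨a, C, fC, dC, c0, c1, K, w, v', h1, h2, h3, h4, h5, fun _ => h6,
      fun h => by omega⟩⟩
  · refine ⟨⟨1, Fin 2, inferInstance, inferInstance, 0, 1, Ktriv θ, 1, kapF (Ktriv θ) σ.v, by simp,
      stepAt_triv θ, ?_, ?_, ?_, fun h => by omega, fun _ => by simp⟩⟩
    · rw [← Pool.Agent.Helper19.CAR.kapH_apply, ← map_star, ← map_mul, σ.hv1, map_one]
    · rw [← Pool.Agent.Helper19.CAR.kapH_apply, ← map_star, ← map_mul, σ.hv2, map_one]
    · intro x
      obtain ⟨x', hx'⟩ := kapF_scal (Ktriv θ) x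
      refine ⟨x', ?_⟩
      rw [← hx']
      simp only [← Pool.Agent.Helper19.CAR.kapH_apply]
      rw [map_mul, map_mul, map_star]

variable [TopologicalSpace.SeparableSpace B]

/-- A dense sequence of matrices. -/
noncomputable def dsq (S : Type) [Fintype S] [DecidableEq S] : ℕ → Mt S B :=
  haveI : TopologicalSpace.SeparableSpace (Mt S B) := Pool.Agent.Helper32.CAR.mt_separable
  TopologicalSpace.denseSeq (Mt S B)

theorem dsq_dense (S : Type) [Fintype S] [DecidableEq S] : DenseRange (dsq (B := B) S) :=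
  haveI : TopologicalSpace.SeparableSpace (Mt S B) := Pool.Agent.Helper32.CAR.mt_separable
  TopologicalSpace.denseRange_denseSeq (Mt S B)

/-- The first state. -/
noncomputable def st0 : St B where
  S := Unit
  fS := inferInstance
  dS := inferInstance
  v := 1
  hv1 := by rw [star_one, one_mul]
  hv2 := by rw [star_one, one_mul]
  G _ m := dsq Unit m

variable (hS : S_SYS1) {θ : B →⋆ₐ[ℂ] B} (hθ : StepProp B θ)

/-- The chosen step. -/
noncomputable def stp (σ : St B) (i : ℕ) : StepD θ σ i :=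
  Classical.choice (exists_stepD hS hθ σ i)

instance (σ : St B) (i : ℕ) (D : StepD θ σ i) : Fintype D.C := D.fC
instance (σ : St B) (i : ℕ) (D : StepD θ σ i) : DecidableEq D.C := D.dC

/-- The next state. -/
noncomputable def nxt (σ : St B) (i : ℕ) (D : StepD θ σ i) : St B where
  S := σ.S × D.C
  fS := inferInstance
  dS := inferInstance
  v := D.v'
  hv1 := D.hv1
  hv2 := D.hv2
  G j m := if j ≤ i then kapF D.K (σ.G j m) else dsq (σ.S × D.C) m

/-- The states. -/
noncomputable def st : ℕ → St B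
  | 0 => st0
  | i + 1 => nxt (st i) i (stp hS hθ (st i) i)

/-- The steps. -/
noncomputable def sd (i : ℕ) : StepD θ (st hS hθ i) i := stp hS hθ (st hS hθ i) i

/-- The system. -/
noncomputable def sys : Sys B θ where
  S i := (st hS hθ i).S
  fS i := (st hS hθ i).fS
  dS i := (st hS hθ i).dS
  C i := (sd hS hθ i).C
  fC i := (sd hS hθ i).fC
  dC i := (sd hS hθ i).dC
  s0 := ()
  uniq := fun _ => rfl
  e _ := Equiv.refl _
  c0 i := (sd hS hθ i).c0
  c1 i := (sd hS hθ i).c1
  card i := ⟨(sd hS hθ i).a, (sd hS hθ i).card⟩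
  K i := (sd hS hθ i).K
  w i := (sd hS hθ i).w
  step i := (sd hS hθ i).step

theorem sys_κ (i : ℕ) (a : (sys hS hθ).A i) :
    (sys hS hθ).κ i a = kapF (sd hS hθ i).K (show Mt (st hS hθ i).S B from a) := rfl

theorem G_dense (j : ℕ) : DenseRange ((st hS hθ j).G j) := by
  cases j with
  | zero => exact dsq_dense Unit
  | succ j =>
    have h1 : (st hS hθ (j + 1)).G (j + 1) = dsq ((st hS hθ j).S × (sd hS hθ j).C) := by
      funext m
      change (if j + 1 ≤ j then _ else _) = _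
      rw [if_neg (by omega)]
      rfl
    rw [h1]
    exact dsq_dense _

theorem G_succ (i j m : ℕ) (h : j ≤ i) :
    (st hS hθ (i + 1)).G j m = kapF (sd hS hθ i).K ((st hS hθ i).G j m) := by
  change (if j ≤ i then _ else _) = _
  rw [if_pos h]
  rfl

theorem push_G (j m : ℕ) (d : ℕ) :
    (sys hS hθ).push j d (show (sys hS hθ).A j from (st hS hθ j).G j m) =
      (show (sys hS hθ).A (j + d) from (st hS hθ (j + d)).G j m) := by
  induction d with
  | zero => rfl
  | succ d ih =>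
    change (sys hS hθ).κ (j + d) ((sys hS hθ).push j d _) = (st hS hθ (j + d + 1)).G j m
    rw [ih, G_succ hS hθ (j + d) j m (by omega)]
    rfl

theorem sys_matricial : (sys hS hθ).Matricial := by
  refine ⟨fun i => (st hS hθ i).v, fun i => ⟨(st hS hθ i).hv1, (st hS hθ i).hv2⟩, ?_, ?_⟩
  · intro i x
    exact (sd hS hθ i).comp x
  · intro j a ε hε
    have hd : ∃ m : ℕ, ‖a - (show (sys hS hθ).A j from (st hS hθ j).G j m)‖ < ε / 2 := by
      have h1 := (G_dense hS hθ j).exists_dist_lt (show Mt (st hS hθ j).S B from a) (half_pos hε)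
      obtain ⟨m, hm⟩ := h1
      exact ⟨m, by rw [← dist_eq_norm]; exact hm⟩
    obtain ⟨m, hm⟩ := hd
    obtain ⟨n, hn⟩ := exists_nat_one_div_lt (half_pos hε)
    obtain ⟨d, hd1, hd2⟩ : ∃ d : ℕ, m + n ≤ d ∧ (j + d) % 2 = 0 := by
      rcases Nat.mod_two_eq_zero_or_one (j + (m + n)) with h | h
      · exact ⟨m + n, le_rfl, h⟩
      · exact ⟨m + n + 1, by omega, by omega⟩
    have hF := (st hS hθ (j + d)).mem_F (i := j + d) (j := j) (m := m) (by omega) (by omega)
    obtain ⟨x, hx⟩ := (sd hS hθ (j + d)).approx hd2 _ hF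
    refine ⟨d + 1, x, ?_⟩
    have h1 := Pool.Agent.Helper32.CAR.push_norm (sys hS hθ) j a (show (sys hS hθ).A j from (st hS hθ j).G j m) (d + 1)
    rw [push_G] at h1
    have h2 : (st hS hθ (j + (d + 1))).G j m =
        kapF (sd hS hθ (j + d)).K ((st hS hθ (j + d)).G j m) :=
      G_succ hS hθ (j + d) j m (by omega)
    have h3 : (1 : ℝ) / (((j + d : ℕ) : ℝ) + 1) ≤ 1 / ((n : ℝ) + 1) := by
      refine one_div_le_one_div_of_le (by positivity) ?_
      have : (n : ℝ) ≤ ((j + d : ℕ) : ℝ) := by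
        exact_mod_cast (by omega : n ≤ j + d)
      linarith
    have h4 : ‖(show (sys hS hθ).A (j + (d + 1)) from (st hS hθ (j + (d + 1))).G j m) -
        star (show (sys hS hθ).A (j + (d + 1)) from (st hS hθ (j + (d + 1))).v) *
          (Mt.scal x : (sys hS hθ).A (j + (d + 1))) *
          (show (sys hS hθ).A (j + (d + 1)) from (st hS hθ (j + (d + 1))).v)‖ < ε / 2 := by
      have h5 : ‖kapF (sd hS hθ (j + d)).K ((st hS hθ (j + d)).G j m) -
        star (sd hS hθ (j + d)).v' * Mt.scal x * (sd hS hθ (j + d)).v'‖ < ε / 2 :=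
        lt_of_lt_of_le hx (h3.trans hn.le)
      rw [← h2] at h5
      exact h5
    have h6 := norm_sub_le_norm_sub_add_norm_sub ((sys hS hθ).push j (d + 1) a)
      (show (sys hS hθ).A (j + (d + 1)) from (st hS hθ (j + (d + 1))).G j m)
      (star (show (sys hS hθ).A (j + (d + 1)) from (st hS hθ (j + (d + 1))).v) *
          (Mt.scal x : (sys hS hθ).A (j + (d + 1))) *
          (show (sys hS hθ).A (j + (d + 1)) from (st hS hθ (j + (d + 1))).v))
    calc _ ≤ _ := h6
      _ < ε := by linarith [h1.trans_lt hm]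

end recursion

/-- Packet SYS2. -/
theorem sys2 (hS : S_SYS1) : Pool.Agent.Helper39.CR.S_SYS2 := by
  intro B _ _ θ hθ
  refine ⟨sys hS hθ, sys_matricial hS hθ, fun N => ⟨2 * N + 1, by omega, ?_⟩⟩
  exact (sd hS hθ (2 * N + 1)).two (by omega)

end Pool.Agent.Helper39.CR.Sys2
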