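import Pool.Agent.Helper39.CR.GoalsT
import Pool.Agent.Helper34.CAR.SAI

/-!
Project CAR (MP_d97caa_an), stage 3 with simplicity and unique trace: definitions and the final
statement `S_MAIN4`.
-/

open scoped ComplexOrder ZeroAtInfty
open TopologicalSpace

namespace Pool.Agent.Helper39.CR

open Pool.Agent.Helper34.CAR Pool.Agent.Helper39.Uct

noncomputable section

/-- `e` is a unit of `H`. -/
def IsOne {H : Type} [NonUnitalCStarAlgebra H] (e : H) : Prop := ∀ a : H, e * a = a ∧ a * e = a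

/-- `H` is unital, nonzero, and simple: every nonzero element generates `H` as a two-sided ideal. -/
def IsSimpleU (H : Type) [NonUnitalCStarAlgebra H] : Prop :=
  ∃ e : H, e ≠ 0 ∧ IsOne e ∧ ∀ b : H, b ≠ 0 →
    ∃ (m : ℕ) (x y : Fin m → H), ∑ l, x l * b * y l = e

/-- Tracial states of a unital C*-algebra. -/
def IsTrState {H : Type} [NonUnitalCStarAlgebra H] (τ : H →ₗ[ℂ] ℂ) : Prop :=
  (∀ a, 0 ≤ τ (star a * a)) ∧ (∀ a, ‖τ a‖ ≤ ‖a‖) ∧ (∀ a b, τ (a * b) = τ (b * a)) ∧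
    ∀ e, IsOne e → τ e = 1

/-- The main theorem of stage 3 with simplicity and unique trace. -/
def S_MAIN4 : Prop :=
  ∀ (D : Type) [NonUnitalCStarAlgebra D] [TopologicalSpace.SeparableSpace D], Nuclear D →
    ∃ (A : Type) (_ : CStarAlgebra A) (γ : CircleAction A), IsCAR A ∧ Sai γ ∧
      (∀ z : Circle, orderOf z ≠ 0 → IsSimpleU (Fix γ {z}) ∧
        ∃! τ : Fix γ {z} →ₗ[ℂ] ℂ, IsTrState τ) ∧
      ∀ T : Theory,
        (T.Zero (Fix γ Set.univ) ↔ T.Zero D) ∧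
        (∀ z : Circle, z ≠ 1 → ¬ IsPrimePow (orderOf z) → (T.Zero (Fix γ {z}) ↔ T.Zero D)) ∧
        (∀ z z' : Circle, z ≠ 1 → z' ≠ 1 → (orderOf z).Coprime (orderOf z') →
          ((T.Zero (Fix γ {z}) ∧ T.Zero (Fix γ {z'})) ↔ T.Zero D))

/-- The two-sided ideal generated by `c` (if `H` is unital). -/
def idl {H : Type} [NonUnitalCStarAlgebra H] (c : H) : Set H :=
  {h | ∃ (m : ℕ) (x y : Fin m → H), h = ∑ l, x l * c * y l}

/-- Compatible tracial states of the graded parts modulo `n` of the stages. -/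
structure TrFam {B : Type} [CStarAlgebra B] {θ : B →⋆ₐ[ℂ] B} (s : Sys B θ) (n : ℕ)
    (τ : ∀ k, Gd B (wz s n k) →ₗ[ℂ] ℂ) : Prop where
  pos : ∀ k a, 0 ≤ τ k (star a * a)
  tr : ∀ k a b, τ k (a * b) = τ k (b * a)
  comp : ∀ k a, τ (k + 1) (kd s n k a) = τ k a
  one : ∀ k, ∑ x, τ k (cd B (wz s n k) x 1) = 1

end

end Pool.Agent.Helper39.CR
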