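import Pool.Agent.Helper39.CR.Theory
import Pool.Agent.Helper34.CAR.GoalsB
import Pool.Agent.Helper61.CAR.GoalsQ

/-!
Project CAR (MP_d97caa_an), stage 3: auxiliary definitions for the goal statements.
-/

open scoped ComplexOrder ZeroAtInfty
open TopologicalSpace

namespace Pool.Agent.Helper39.CR

open Pool.Agent.Helper34.CAR

noncomputable section

/-! ## Separability -/

instance {X : Type} [NonUnitalCStarAlgebra X] [SeparableSpace X] :
    SeparableSpace (Unitization ℂ X) :=
  (Unitization.uniformEquivProd (𝕜 := ℂ) (A := X)).symm.surjective.denseRange.separableSpace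
    (Unitization.uniformEquivProd (𝕜 := ℂ) (A := X)).symm.continuous

/-- A C*-algebra that embeds into a separable one is separable. -/
theorem sep_of_inj {A B : Type} [NonUnitalCStarAlgebra A] [NonUnitalCStarAlgebra B]
    [SeparableSpace B] (f : A →⋆ₙₐ[ℂ] B) (hf : Function.Injective f) : SeparableSpace A := by
  have hi : Isometry f := NonUnitalStarAlgHom.isometry f hf
  have : SecondCountableTopology B := UniformSpace.secondCountable_of_separable B
  have : SecondCountableTopology A := hi.isEmbedding.secondCountableTopology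
  infer_instance

/-- Closed *-subalgebras of separable C*-algebras are separable. -/
instance sep_sub {A : Type} [NonUnitalCStarAlgebra A] [SeparableSpace A]
    (S : NonUnitalStarSubalgebra ℂ A) : SeparableSpace S := by
  have : SecondCountableTopology A := UniformSpace.secondCountable_of_separable A
  infer_instance

instance {I B : Type} [Fintype I] [DecidableEq I] [CStarAlgebra B] [SeparableSpace B] :
    SeparableSpace (Mt I B) := by
  let f : (I → I → B) → Mt I B := fun a => Mt.of a
  have hf : Continuous f := by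
    rw [continuous_iff_continuousAt]
    intro a
    rw [ContinuousAt, tendsto_iff_norm_sub_tendsto_zero]
    refine squeeze_zero (fun b => norm_nonneg _) (fun b => Mt.norm_le_sum (f b - f a)) ?_
    have h0 : (0 : ℝ) = ∑ i : I, ∑ j : I, ‖a i j - a i j‖ := by simp
    rw [h0]
    refine tendsto_finsetSum _ fun i _ => tendsto_finsetSum _ fun j _ => ?_
    have hc : Continuous fun b : I → I → B => ‖b i j - a i j‖ := by fun_prop
    exact hc.tendsto a
  have hs : Function.Surjective f := fun a => ⟨a, rfl⟩
  exact hs.denseRange.separableSpace hf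

/-! ## Suspensions over the unit interval -/

/-- Continuous functions `[0,1] → A` vanishing at the end points. -/
def susSub (A : Type) [NonUnitalCStarAlgebra A] :
    NonUnitalStarSubalgebra ℂ C(unitInterval, A) where
  carrier := {f | f 0 = 0 ∧ f 1 = 0}
  add_mem' {f g} hf hg := by simp_all
  zero_mem' := by simp
  mul_mem' {f g} hf hg := by simp_all
  smul_mem' c f hf := by simp_all
  star_mem' {f} hf := by simp_all

instance (A : Type) [NonUnitalCStarAlgebra A] :
    IsClosed ((susSub A : NonUnitalStarSubalgebra ℂ C(unitInterval, A)) :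
      Set C(unitInterval, A)) := by
  have h : ((susSub A : NonUnitalStarSubalgebra ℂ C(unitInterval, A)) :
      Set C(unitInterval, A)) = {f | f 0 = 0} ∩ {f | f 1 = 0} := rfl
  rw [h]
  exact (isClosed_eq (continuous_eval_const 0) continuous_const).inter
    (isClosed_eq (continuous_eval_const 1) continuous_const)

/-- The suspension of `A`, over the unit interval. -/
abbrev Sus (A : Type) [NonUnitalCStarAlgebra A] : Type := ↥(susSub A)

instance {A : Type} [NonUnitalCStarAlgebra A] [SeparableSpace A] :
    SeparableSpace C(unitInterval, A) := by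
  have : SecondCountableTopology A := UniformSpace.secondCountable_of_separable A
  infer_instance

/-- The inclusion into the unitization. -/
def inrH (X : Type) [NonUnitalCStarAlgebra X] : X →⋆ₙₐ[ℂ] Unitization ℂ X :=
  Unitization.inrNonUnitalStarAlgHom ℂ X

/-! ## Graded parts of matrix algebras -/

/-- The matrices `a` over `B` with `a x y = 0` unless `w x = w y`. -/
def grd {I Γ : Type} [Fintype I] [DecidableEq I] (B : Type) [CStarAlgebra B] (w : I → Γ) :
    NonUnitalStarSubalgebra ℂ (Mt I B) where
  carrier := {a | ∀ x y, w x ≠ w y → a x y = 0}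
  add_mem' {a b} ha hb x y h := by rw [Mt.add_apply, ha x y h, hb x y h, add_zero]
  zero_mem' x y _ := rfl
  mul_mem' {a b} ha hb x y h := by
    rw [Mt.mul_apply]
    refine Finset.sum_eq_zero fun k _ => ?_
    by_cases h1 : w x = w k
    · rw [hb k y (fun h2 => h (h1.trans h2)), mul_zero]
    · rw [ha x k h1, zero_mul]
  smul_mem' c a ha x y h := by rw [Mt.smul_apply, ha x y h, smul_zero]
  star_mem' {a} ha x y h := by rw [Mt.star_apply, ha y x (Ne.symm h), star_zero]

theorem continuous_entry {I B : Type} [Fintype I] [DecidableEq I] [CStarAlgebra B] (x y : I) :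
    Continuous fun a : Mt I B => a x y := by
  rw [continuous_iff_continuousAt]
  intro a
  rw [ContinuousAt, tendsto_iff_norm_sub_tendsto_zero]
  refine squeeze_zero (fun b => norm_nonneg _) (fun b => Mt.norm_entry_le (b - a) x y) ?_
  have : Continuous fun b : Mt I B => ‖b - a‖ := by fun_prop
  simpa using this.tendsto a

instance {I Γ : Type} [Fintype I] [DecidableEq I] (B : Type) [CStarAlgebra B] (w : I → Γ) :
    IsClosed ((grd B w : NonUnitalStarSubalgebra ℂ (Mt I B)) : Set (Mt I B)) := by
  have h : ((grd B w : NonUnitalStarSubalgebra ℂ (Mt I B)) : Set (Mt I B)) =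
      ⋂ x, ⋂ y, ⋂ (_ : w x ≠ w y), {a | a x y = 0} := by
    ext a
    simp only [Set.mem_iInter]
    rfl
  rw [h]
  exact isClosed_iInter fun x => isClosed_iInter fun y => isClosed_iInter fun _ =>
    isClosed_eq (continuous_entry x y) continuous_const

/-- The graded part as a C*-algebra. -/
abbrev Gd {I Γ : Type} [Fintype I] [DecidableEq I] (B : Type) [CStarAlgebra B] (w : I → Γ) :
    Type := ↥(grd B w)

theorem single_mem_grd {I Γ : Type} [Fintype I] [DecidableEq I] (B : Type) [CStarAlgebra B]
    (w : I → Γ) (x : I) (b : B) : (Mt.single x x b : Mt I B) ∈ grd B w := by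
  intro y z h
  rw [Mt.single_apply, if_neg]
  rintro ⟨h1, h2⟩
  exact h (by rw [h1, h2])

/-- The corner embedding `b ↦ e_xx ⊗ b`. -/
def cd {I Γ : Type} [Fintype I] [DecidableEq I] (B : Type) [CStarAlgebra B] (w : I → Γ) (x : I) :
    B →⋆ₙₐ[ℂ] Gd B w where
  toFun b := ⟨Mt.single x x b, single_mem_grd B w x b⟩
  map_smul' c b := Subtype.ext (by
    ext y z
    change (Mt.single x x (c • b) : Mt I B) y z = c • (Mt.single x x b : Mt I B) y z
    rw [Mt.single_apply, Mt.single_apply]
    split_ifs <;> simp)
  map_zero' := Subtype.ext (by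
    ext y z
    change (Mt.single x x (0 : B) : Mt I B) y z = 0
    rw [Mt.single_apply]
    split_ifs <;> rfl)
  map_add' a b := Subtype.ext (by
    ext y z
    change (Mt.single x x (a + b) : Mt I B) y z =
      (Mt.single x x a : Mt I B) y z + (Mt.single x x b : Mt I B) y z
    rw [Mt.single_apply, Mt.single_apply, Mt.single_apply]
    split_ifs <;> simp)
  map_mul' a b := Subtype.ext (by
    change (Mt.single x x (a * b) : Mt I B) = Mt.single x x a * Mt.single x x b
    rw [Mt.single_mul_single])
  map_star' a := Subtype.ext (by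
    change (Mt.single x x (star a) : Mt I B) = star (Mt.single x x a)
    rw [Mt.star_single])

/-- The weights modulo `n` (`n = 0`: integer weights). -/
def wz {B : Type} [CStarAlgebra B] {θ : B →⋆ₐ[ℂ] B} (s : Sys B θ) (n i : ℕ) :
    s.S i → ZMod n := fun x => (s.wt i x : ZMod n)

theorem κ_mem {B : Type} [CStarAlgebra B] {θ : B →⋆ₐ[ℂ] B} (s : Sys B θ) (n i : ℕ)
    (a : s.A i) (ha : a ∈ grd B (wz s n i)) : s.κ i a ∈ grd B (wz s n (i + 1)) := by
  intro x y h
  rw [Sys.κ_apply]
  by_cases h1 : wz s n i (s.e i x).1 = wz s n i (s.e i y).1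
  · have h2 : ¬ ((s.e i x).2 = s.c0 i ↔ (s.e i y).2 = s.c0 i) := by
      intro h3
      apply h
      change ((s.wt (i + 1) x : ℕ) : ZMod n) = ((s.wt (i + 1) y : ℕ) : ZMod n)
      simp only [Sys.wt, h3, Nat.cast_add]
      congr 1
    obtain ⟨-, -, -, -, -, h5, -⟩ := s.step i
    by_cases h6 : (s.e i x).2 = s.c0 i
    · refine h5 _ _ _ ?_ (Or.inl h6)
      intro h7
      exact h2 (by rw [← h7])
    · have h7 : (s.e i y).2 = s.c0 i := by
        by_contra h8
        exact h2 (by simp [h6, h8])
      refine h5 _ _ _ ?_ (Or.inr (Or.inr (Or.inl h7)))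
      intro h8
      exact h2 (by rw [← h8])
  · rw [ha _ _ h1, map_zero, Mt.zero_apply]

/-- The connecting maps on the graded parts. -/
def kd {B : Type} [CStarAlgebra B] {θ : B →⋆ₐ[ℂ] B} (s : Sys B θ) (n i : ℕ) :
    Gd B (wz s n i) →⋆ₙₐ[ℂ] Gd B (wz s n (i + 1)) where
  toFun a := ⟨s.κ i a.1, κ_mem s n i a.1 a.2⟩
  map_smul' c a := Subtype.ext (map_smul (s.κ i) c a.1)
  map_zero' := Subtype.ext (map_zero (s.κ i))
  map_add' a b := Subtype.ext (map_add (s.κ i) a.1 b.1)
  map_mul' a b := Subtype.ext (map_mul (s.κ i) a.1 b.1)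
  map_star' a := Subtype.ext (map_star (s.κ i) a.1)

/-! ## The algebra of inverse systems -/

/-- `lim = lim¹ = 0` for the inverse system `(G^(ℤ/n), 1 - shift)`. -/
def LL (n : ℕ) (G : Type) [AddCommGroup G] : Prop :=
  (∀ y : ℕ → ZMod n → G, (∀ k j, y (k + 1) j - y (k + 1) (j + 1) = y k j) →
    ∀ k j, y k j = 0) ∧
  (∀ z : ℕ → ZMod n → G, ∃ t : ℕ → ZMod n → G,
    ∀ k j, z k j = t k j - (t (k + 1) j - t (k + 1) (j + 1)))

end

end Pool.Agent.Helper39.CR
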